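import Pool.Agent.Lib.MP_bcd198_co.C.Defs

/-!
# MP_bcd198_co, C/B1: corners of Young diagrams
-/

set_option autoImplicit false

namespace MPbcd198.C

open Equiv Pool.Agent.Lib.MP_463376_co Pool.Agent.Lib.MP_463376_co.Hs

variable {lam mu : YoungDiagram} {c : ℕ × ℕ}

private theorem B1_del_cells (h : c ∈ corn lam) : (del lam c).cells = lam.cells.erase c := by
  unfold del
  rw [dif_pos h]

private theorem B1_del_neg (h : c ∉ corn lam) : del lam c = lam := by
  unfold del
  rw [dif_neg h]

theorem mem_del (h : c ∈ corn lam) (x : ℕ × ℕ) : x ∈ (del lam c).cells ↔ x ∈ lam.cells ∧ x ≠ c := by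
  rw [B1_del_cells h, Finset.mem_erase]
  tauto

private theorem B1_mem_of_corn (h : c ∈ corn lam) : c ∈ lam.cells := (Finset.mem_filter.1 h).1

theorem card_del (h : c ∈ corn lam) : (del lam c).card + 1 = lam.card := by
  unfold YoungDiagram.card
  rw [B1_del_cells h]
  exact Finset.card_erase_add_one (B1_mem_of_corn h)

theorem del_le (lam : YoungDiagram) (c : ℕ × ℕ) : del lam c ≤ lam := by
  by_cases h : c ∈ corn lam
  · rw [← YoungDiagram.cells_subset_iff, B1_del_cells h]
    exact Finset.erase_subset _ _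
  · rw [B1_del_neg h]

private theorem B1_mem_cells_row {mu : YoungDiagram} {i j : ℕ} : (i, j) ∈ mu.cells ↔ j < mu.rowLen i := by
  rw [YoungDiagram.mem_cells]
  exact YoungDiagram.mem_iff_lt_rowLen

private theorem B1_mem_cells_col {mu : YoungDiagram} {i j : ℕ} : (i, j) ∈ mu.cells ↔ i < mu.colLen j := by
  rw [YoungDiagram.mem_cells]
  exact YoungDiagram.mem_iff_lt_colLen

theorem mem_corn_iff (lam : YoungDiagram) (c : ℕ × ℕ) :
    c ∈ corn lam ↔ lam.rowLen c.1 = c.2 + 1 ∧ lam.rowLen (c.1 + 1) < lam.rowLen c.1 := by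
  obtain ⟨i, j⟩ := c
  unfold corn
  rw [Finset.mem_filter, B1_mem_cells_row, B1_mem_cells_row, B1_mem_cells_row]
  simp only
  constructor
  · rintro ⟨h1, h2, h3⟩
    constructor
    · omega
    · omega
  · rintro ⟨h1, h2⟩
    refine ⟨?_, ?_, ?_⟩
    · omega
    · omega
    · omega

theorem mem_corn_iff' (lam : YoungDiagram) (c : ℕ × ℕ) :
    c ∈ corn lam ↔ lam.colLen c.2 = c.1 + 1 ∧ lam.colLen (c.2 + 1) < lam.colLen c.2 := by
  obtain ⟨i, j⟩ := c
  unfold corn
  rw [Finset.mem_filter, B1_mem_cells_col, B1_mem_cells_col, B1_mem_cells_col]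
  simp only
  constructor
  · rintro ⟨h1, h2, h3⟩
    constructor
    · omega
    · omega
  · rintro ⟨h1, h2⟩
    refine ⟨?_, ?_, ?_⟩
    · omega
    · omega
    · omega

/-- `YoungDiagram.mem_iff_lt_rowLen` characterises `rowLen` -/
theorem rowLen_del (h : c ∈ corn lam) (i : ℕ) :
    (del lam c).rowLen i = if i = c.1 then lam.rowLen i - 1 else lam.rowLen i := by
  have key : ∀ j, j < (del lam c).rowLen i ↔ j < (if i = c.1 then lam.rowLen i - 1 else lam.rowLen i) := by
    intro j
    rw [← B1_mem_cells_row, mem_del h, B1_mem_cells_row]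
    have h1 := (mem_corn_iff lam c).1 h
    split_ifs with hi
    · subst hi
      constructor
      · rintro ⟨h2, h3⟩
        have h4 : j ≠ c.2 := by
          intro h5
          apply h3
          rw [h5]
        omega
      · intro h2
        refine ⟨by omega, ?_⟩
        intro h3
        have h4 : j = c.2 := by
          rw [← h3]
        omega
    · constructor
      · rintro ⟨h2, h3⟩
        exact h2
      · intro h2
        refine ⟨h2, ?_⟩
        intro h3
        apply hi
        rw [← h3]
  apply le_antisymm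
  · by_contra hlt
    push Not at hlt
    exact lt_irrefl _ ((key _).1 hlt)
  · by_contra hlt
    push Not at hlt
    exact lt_irrefl _ ((key _).2 hlt)

theorem colLen_del (h : c ∈ corn lam) (j : ℕ) :
    (del lam c).colLen j = if j = c.2 then lam.colLen j - 1 else lam.colLen j := by
  have key : ∀ i, i < (del lam c).colLen j ↔ i < (if j = c.2 then lam.colLen j - 1 else lam.colLen j) := by
    intro i
    rw [← B1_mem_cells_col, mem_del h, B1_mem_cells_col]
    have h1 := (mem_corn_iff' lam c).1 h
    split_ifs with hi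
    · subst hi
      constructor
      · rintro ⟨h2, h3⟩
        have h4 : i ≠ c.1 := by
          intro h5
          apply h3
          rw [h5]
        omega
      · intro h2
        refine ⟨by omega, ?_⟩
        intro h3
        have h4 : i = c.1 := by
          rw [← h3]
        omega
    · constructor
      · rintro ⟨h2, h3⟩
        exact h2
      · intro h2
        refine ⟨h2, ?_⟩
        intro h3
        apply hi
        rw [← h3]
  apply le_antisymm
  · by_contra hlt
    push Not at hlt
    exact lt_irrefl _ ((key _).1 hlt)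
  · by_contra hlt
    push Not at hlt
    exact lt_irrefl _ ((key _).2 hlt)

/-- if `mu < lam` some corner of `lam` is not in `mu`: take a cell of `lam` not in `mu` with
maximal `i + j` -/
theorem exists_corn_notMem (h : mu < lam) : ∃ c ∈ corn lam, c ∉ mu.cells := by
  have hss : mu.cells ⊂ lam.cells := YoungDiagram.cells_ssubset_iff.2 h
  obtain ⟨x0, hx0, hx0'⟩ := Finset.exists_of_ssubset hss
  have hne : (lam.cells \ mu.cells).Nonempty := ⟨x0, Finset.mem_sdiff.2 ⟨hx0, hx0'⟩⟩
  obtain ⟨c, hc, hmax⟩ := Finset.exists_max_image (lam.cells \ mu.cells) (fun c => c.1 + c.2) hne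
  obtain ⟨hc1, hc2⟩ := Finset.mem_sdiff.1 hc
  refine ⟨c, ?_, hc2⟩
  obtain ⟨i, j⟩ := c
  unfold corn
  rw [Finset.mem_filter]
  refine ⟨hc1, ?_, ?_⟩
  · intro h1
    have h2 : (i + 1, j) ∉ mu.cells := by
      intro h3
      apply hc2
      rw [B1_mem_cells_col] at h3 ⊢
      omega
    have h3 := hmax _ (Finset.mem_sdiff.2 ⟨h1, h2⟩)
    simp only at h3
    omega
  · intro h1
    have h2 : (i, j + 1) ∉ mu.cells := by
      intro h3
      apply hc2
      rw [B1_mem_cells_row] at h3 ⊢
      omega
    have h3 := hmax _ (Finset.mem_sdiff.2 ⟨h1, h2⟩)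
    simp only at h3
    omega

theorem corn_nonempty (h : 0 < lam.card) : (corn lam).Nonempty := by
  have hlt : (⊥ : YoungDiagram) < lam := by
    rw [← YoungDiagram.cells_ssubset_iff, YoungDiagram.cells_bot]
    exact Finset.empty_ssubset.2 (Finset.card_pos.1 h)
  obtain ⟨c, hc, _⟩ := exists_corn_notMem hlt
  exact ⟨c, hc⟩

theorem le_del (hc : c ∈ corn lam) (h : mu ≤ lam) (hn : c ∉ mu.cells) : mu ≤ del lam c := by
  rw [← YoungDiagram.cells_subset_iff] at h ⊢
  intro x hx
  rw [mem_del hc]
  refine ⟨h hx, ?_⟩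
  rintro rfl
  exact hn hx

theorem mem_corn_transpose : c ∈ corn lam.transpose ↔ c.swap ∈ corn lam := by
  obtain ⟨i, j⟩ := c
  rw [mem_corn_iff, mem_corn_iff']
  simp only [YoungDiagram.rowLen_transpose, Prod.swap_prod_mk]

theorem del_transpose (lam : YoungDiagram) (c : ℕ × ℕ) :
    del lam.transpose c = (del lam c.swap).transpose := by
  by_cases h : c ∈ corn lam.transpose
  · have h' := mem_corn_transpose.1 h
    apply YoungDiagram.ext
    ext x
    rw [mem_del h, YoungDiagram.mem_cells, YoungDiagram.mem_cells, YoungDiagram.mem_transpose,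
      YoungDiagram.mem_transpose, ← YoungDiagram.mem_cells, ← YoungDiagram.mem_cells, mem_del h']
    constructor
    · rintro ⟨h1, h2⟩
      refine ⟨h1, ?_⟩
      intro h3
      exact h2 (Prod.swap_injective h3)
    · rintro ⟨h1, h2⟩
      refine ⟨h1, ?_⟩
      rintro rfl
      exact h2 rfl
  · have h' : c.swap ∉ corn lam := fun h1 => h (mem_corn_transpose.2 h1)
    rw [B1_del_neg h, B1_del_neg h']

/-- the rows determine the diagram -/
theorem ext_rowLen (h : ∀ i, mu.rowLen i = lam.rowLen i) : mu = lam := by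
  apply YoungDiagram.ext
  ext ⟨i, j⟩
  rw [B1_mem_cells_row, B1_mem_cells_row, h]

theorem rowLen_eq_zero {N : ℕ} (hN : lam.colLen 0 ≤ N) : lam.rowLen N = 0 := by
  by_contra h
  have h1 : (N, 0) ∈ lam.cells := B1_mem_cells_row.2 (Nat.pos_of_ne_zero h)
  rw [B1_mem_cells_col] at h1
  omega

/-- `H_Dom` of the library has a similar statement -/
theorem sum_rowLen_eq (lam : YoungDiagram) {N : ℕ} (hN : lam.colLen 0 ≤ N) :
    ∑ i ∈ Finset.range N, lam.rowLen i = lam.card := by
  have h1 : ∀ c ∈ lam.cells, c.1 ∈ Finset.range N := by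
    rintro ⟨i, j⟩ hc
    rw [Finset.mem_range]
    by_contra hi
    push Not at hi
    have h2 : lam.rowLen i = 0 := rowLen_eq_zero (hN.trans hi)
    rw [B1_mem_cells_row, h2] at hc
    exact absurd hc (Nat.not_lt_zero _)
  unfold YoungDiagram.card
  rw [Finset.card_eq_sum_card_fiberwise h1]
  refine Finset.sum_congr rfl fun i _ => ?_
  rw [YoungDiagram.rowLen_eq_card]
  rfl

theorem card_transpose_eq (lam : YoungDiagram) : lam.transpose.card = lam.card := by
  unfold YoungDiagram.card YoungDiagram.transpose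
  simp

theorem rowLen_zero_le_card (lam : YoungDiagram) : lam.rowLen 0 ≤ lam.card := by
  rw [YoungDiagram.rowLen_eq_card]
  exact Finset.card_le_card (Finset.filter_subset _ _)

theorem colLen_zero_le_card (lam : YoungDiagram) : lam.colLen 0 ≤ lam.card := by
  rw [YoungDiagram.colLen_eq_card]
  exact Finset.card_le_card (Finset.filter_subset _ _)

theorem tt_transpose (lam : YoungDiagram) : tt lam.transpose = tt lam := by
  unfold tt
  rw [card_transpose_eq, YoungDiagram.rowLen_transpose, YoungDiagram.colLen_transpose, max_comm]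

/-- removing one cell lowers `t` by at most one -/
theorem tt_del (h : c ∈ corn lam) : tt lam ≤ tt (del lam c) + 1 := by
  unfold tt
  have h1 := card_del h
  have h2 : (del lam c).rowLen 0 ≤ lam.rowLen 0 := by
    rw [rowLen_del h]
    split_ifs
    · omega
    · exact le_rfl
  have h3 : (del lam c).colLen 0 ≤ lam.colLen 0 := by
    rw [colLen_del h]
    split_ifs
    · omega
    · exact le_rfl
  have h4 : max ((del lam c).rowLen 0) ((del lam c).colLen 0) ≤ max (lam.rowLen 0) (lam.colLen 0) :=
    max_le_max h2 h3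
  omega

theorem eq_bot_of_card (h : lam.card = 0) : lam = ⊥ := by
  apply YoungDiagram.ext
  rw [YoungDiagram.cells_bot]
  exact Finset.card_eq_zero.1 h

theorem card_bot : (⊥ : YoungDiagram).card = 0 := by
  unfold YoungDiagram.card
  rw [YoungDiagram.cells_bot]
  rfl

end MPbcd198.C
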