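import Pool.Agent.Lib.MP_bcd198_co.C.B1

/-!
# MP_bcd198_co, C/B2: the branching rule
-/

set_option autoImplicit false

namespace MPbcd198.C

open Equiv Pool.Agent.Lib.MP_463376_co Pool.Agent.Lib.MP_463376_co.Hs

open MvPolynomial in
private theorem B2_ev_symm (K : Type) [Field K] {r : ℕ} (f : Sym K) (π : Equiv.Perm (Fin r)) :
    rename π (ev K r f) = ev K r f := by
  have h1 : (rename π : MvPolynomial (Fin r) K →ₐ[K] MvPolynomial (Fin r) K).comp (ev K r) =
      ev K r := by
    ext i
    simp only [AlgHom.comp_apply, ev, aeval_X, map_sum, map_pow, rename_X]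
    rw [Equiv.sum_comp π (fun b => (X b : MvPolynomial (Fin r) K) ^ (i + 1))]
  exact DFunLike.congr_fun h1 f

open MvPolynomial in
private theorem B2_alt_antisymm (K : Type) [Field K] {r : ℕ} (a : Fin r → ℕ)
    (π : Equiv.Perm (Fin r)) :
    rename π (alt K a) = C (((Equiv.Perm.sign π : ℤ) : K)) * alt K a := by
  have h1 : rename π (alt K a) = Matrix.det ((Matrix.of fun i j : Fin r =>
      (X j : MvPolynomial (Fin r) K) ^ a i).submatrix id π) := by
    unfold alt
    rw [AlgHom.map_det]
    congr 1
    ext1 i j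
    simp [Matrix.submatrix]
  rw [h1, Matrix.det_permute', alt]
  congr 1

open MvPolynomial in
/-- coefficients of an antisymmetric polynomial at vectors with two equal entries -/
private theorem B2_zero (K : Type) [Field K] [CharZero K] {r : ℕ} (F : MvPolynomial (Fin r) K)
    (hF : ∀ π : Equiv.Perm (Fin r), rename π F = C (((Equiv.Perm.sign π : ℤ) : K)) * F)
    (d : Fin r →₀ ℕ) {i j : Fin r} (hij : d i = d j) (hne : i ≠ j) : F.coeff d = 0 := by
  classical
  have key : ∀ (π : Equiv.Perm (Fin r)) (d : Fin r →₀ ℕ),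
      F.coeff d = ((Equiv.Perm.sign π : ℤ) : K) * F.coeff (d.mapDomain π) := by
    intro π d
    rw [← coeff_rename_mapDomain π π.injective F d, hF, coeff_C_mul]
  have h2 : d.mapDomain (Equiv.swap i j) = d := by
    ext k
    rw [Finsupp.mapDomain_equiv_apply, Equiv.symm_swap, Equiv.swap_apply_def]
    split_ifs with h3 h4
    · rw [h3, hij]
    · rw [h4, hij]
    · rfl
  have h3 := key (Equiv.swap i j) d
  rw [h2, Equiv.Perm.sign_swap hne] at h3
  have h4 : F.coeff d = - F.coeff d := by
    refine h3.trans ?_
    simp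
  exact self_eq_neg.mp h4

private theorem B2_pos {lam : YoungDiagram} {i : ℕ} (h : i < lam.colLen 0) : 0 < lam.rowLen i :=
  YoungDiagram.mem_iff_lt_rowLen.1 (YoungDiagram.mem_iff_lt_colLen.2 h)

/-- Take `r = lam.colLen 0` variables in `hall_schur` (for `lam` and for all `del lam c`, whose
`colLen 0` is at most `r`).  `ev (X 0) = ∑_b X b`, so the left side is
`∑_b (ev f * alt ρ).coeff (β - e_b)`, `β_b = lam.rowLen b + rho r b > 0`.  If row `b` ends in a
corner (`rowLen (b+1) < rowLen b`, `mem_corn_iff`; cell `(b, rowLen b - 1)`) then `β - e_b` is the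
vector of `del lam (b, rowLen b - 1)` (`rowLen_del`).  Otherwise `b + 1 < r` and `β - e_b` has two
equal entries, so the coefficient of the antisymmetric polynomial `ev f * alt ρ` is zero
(library file H_Expand: `hExpand_ev_symm`, `hExpand_alt_antisymm`, see the proof of
`antisymm_eq_zero`; apply the transposition `(b, b+1)`).  For `lam = ⊥` both sides are `0`. -/
theorem branching (K : Type) [Field K] [CharZero K] (f : Sym K) (lam : YoungDiagram) :
    hall (f * MvPolynomial.X 0) (schur K lam) =
      ∑ c ∈ corn lam, hall f (schur K (del lam c)) := by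
  classical
  obtain ⟨r, hr⟩ : ∃ r, r = lam.colLen 0 := ⟨_, rfl⟩
  obtain ⟨F, hFdef⟩ : ∃ F, F = ev K r f * alt K (rho r) := ⟨_, rfl⟩
  have hF : ∀ π : Equiv.Perm (Fin r), MvPolynomial.rename π F =
      MvPolynomial.C (((Equiv.Perm.sign π : ℤ) : K)) * F := by
    intro π
    rw [hFdef, map_mul, B2_ev_symm, B2_alt_antisymm]
    ring
  obtain ⟨G, hG⟩ : ∃ G : ℕ → K, ∀ b, G b = F.coeff
      (vec fun i : Fin r => lam.rowLen i + rho r i - if (i : ℕ) = b then 1 else 0) :=
    ⟨_, fun _ => rfl⟩
  have hpos : ∀ i < r, 0 < lam.rowLen i := fun i hi => B2_pos (by rwa [← hr])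
  -- the left side
  have hleft : hall (f * MvPolynomial.X 0) (schur K lam) = ∑ b ∈ Finset.range r, G b := by
    rw [hall_schur (f * MvPolynomial.X 0) lam hr.ge, map_mul]
    have h1 : ev K r (MvPolynomial.X 0) = ∑ b : Fin r, MvPolynomial.X b := by
      unfold ev
      rw [MvPolynomial.aeval_X]
      simp
    have h2 : ev K r f * ev K r (MvPolynomial.X 0) * alt K (rho r) =
        ∑ b : Fin r, MvPolynomial.X b * F := by
      rw [h1, ← Finset.sum_mul, hFdef]
      ring
    rw [h2, MvPolynomial.coeff_sum, Finset.sum_range]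
    refine Finset.sum_congr rfl fun b _ => ?_
    rw [MvPolynomial.coeff_X_mul', if_pos, hG]
    · congr 1
      ext i
      rw [Finsupp.tsub_apply, vec_apply, vec_apply, Finsupp.single_apply]
      by_cases hib : b = i
      · subst hib
        simp
      · have : ¬ (i : ℕ) = b := fun h => hib (Fin.ext h.symm)
        rw [if_neg hib, if_neg this]
    · rw [Finsupp.mem_support_iff, vec_apply]
      have := hpos b b.2
      omega
  -- rows without corner
  have hzero : ∀ b ∈ Finset.range r, ¬ lam.rowLen (b + 1) < lam.rowLen b → G b = 0 := by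
    intro b hb hnc
    rw [Finset.mem_range] at hb
    have hle : lam.rowLen (b + 1) ≤ lam.rowLen b := lam.rowLen_anti _ _ (Nat.le_succ b)
    have heq : lam.rowLen (b + 1) = lam.rowLen b := le_antisymm hle (not_lt.1 hnc)
    have hb1 : b + 1 < r := by
      by_contra hcon
      have h1 : b + 1 = r := by omega
      have h2 : lam.rowLen (b + 1) = 0 := rowLen_eq_zero (by rw [h1, hr])
      have h3 := hpos b hb
      omega
    rw [hG]
    refine B2_zero K F hF _ (i := ⟨b, hb⟩) (j := ⟨b + 1, hb1⟩) ?_ ?_
    · rw [vec_apply, vec_apply]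
      have h3 := hpos b hb
      simp only [rho]
      rw [heq]
      simp only [if_true]
      have h4 : ¬ b + 1 = b := by omega
      rw [if_neg h4]
      omega
    · intro h
      have := congrArg Fin.val h
      simp at this
  rw [hleft]
  -- the right side
  have hright : ∀ c ∈ corn lam, hall f (schur K (del lam c)) = G c.1 := by
    intro c hc
    have hcol : (del lam c).colLen 0 ≤ r := by
      rw [colLen_del hc, hr]
      split_ifs <;> omega
    rw [hall_schur f (del lam c) hcol, ← hFdef, hG]
    congr 1
    ext i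
    rw [vec_apply, vec_apply, rowLen_del hc]
    by_cases hic : (i : ℕ) = c.1
    · rw [if_pos hic, if_pos hic]
      have h3 := hpos i i.2
      omega
    · rw [if_neg hic, if_neg hic]
      omega
  rw [Finset.sum_congr rfl hright]
  have hfil : ∑ b ∈ Finset.range r, G b =
      ∑ b ∈ (Finset.range r).filter (fun b => lam.rowLen (b + 1) < lam.rowLen b), G b := by
    rw [Finset.sum_filter]
    refine Finset.sum_congr rfl fun b hb => ?_
    split_ifs with h
    · rfl
    · exact hzero b hb h
  rw [hfil]
  symm
  refine Finset.sum_nbij (fun c => c.1) ?_ ?_ ?_ (fun _ _ => rfl)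
  · intro c hc
    have h1 := (mem_corn_iff lam c).1 hc
    rw [Finset.mem_filter, Finset.mem_range]
    refine ⟨?_, h1.2⟩
    rw [hr]
    apply YoungDiagram.mem_iff_lt_colLen.1
    apply YoungDiagram.mem_iff_lt_rowLen.2
    omega
  · intro c hc c' hc' h
    have h1 := (mem_corn_iff lam c).1 hc
    have h2 := (mem_corn_iff lam c').1 hc'
    simp only at h
    have h3 := h1.1
    have h4 := h2.1
    rw [← h] at h4
    exact Prod.ext h (by omega)
  · intro b hb
    rw [Finset.mem_coe, Finset.mem_filter, Finset.mem_range] at hb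
    refine ⟨(b, lam.rowLen b - 1), ?_, rfl⟩
    rw [Finset.mem_coe, mem_corn_iff]
    simp only
    have h3 := hpos b hb.1
    exact ⟨by omega, hb.2⟩

end MPbcd198.C
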