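import Pool.Agent.Lib.MP_bcd198_co.C.B2

/-!
# MP_bcd198_co, C/B3: degrees, first consequences of the branching rule
-/

set_option autoImplicit false

namespace MPbcd198.C

open Equiv Pool.Agent.Lib.MP_463376_co Pool.Agent.Lib.MP_463376_co.Hs

private theorem B3_schur_bot : schur ℝ (⊥ : YoungDiagram) = 1 := by
  have h0 : (⊥ : YoungDiagram).colLen 0 = 0 := by
    have := colLen_zero_le_card (⊥ : YoungDiagram)
    rw [card_bot] at this
    omega
  have : IsEmpty (Fin ((⊥ : YoungDiagram).colLen 0)) := by
    rw [h0]
    infer_instance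
  unfold schur
  exact Matrix.det_isEmpty

theorem fd_bot : fd ⊥ = 1 := by
  have h1 := schur_orthonormal' (K := ℝ) (⊥ : YoungDiagram) ⊥
  rw [if_pos rfl] at h1
  unfold fd
  rw [card_bot, pow_zero]
  nth_rewrite 1 [← B3_schur_bot]
  exact h1

/-- `branching` with `f = X 0 ^ (lam.card - 1)` -/
theorem fd_rec {lam : YoungDiagram} (h : 0 < lam.card) :
    fd lam = ∑ c ∈ corn lam, fd (del lam c) := by
  obtain ⟨k, hk⟩ : ∃ k, lam.card = k + 1 := ⟨lam.card - 1, by omega⟩
  have h1 : fd lam = hall (MvPolynomial.X 0 ^ k * MvPolynomial.X 0) (schur ℝ lam) := by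
    unfold fd
    rw [hk, pow_succ]
  rw [h1, branching]
  refine Finset.sum_congr rfl fun c hc => ?_
  have h2 := card_del hc
  have h3 : (del lam c).card = k := by omega
  unfold fd
  rw [h3]

/-- induction on `lam.card`, `corn_nonempty` -/
theorem one_le_fd (lam : YoungDiagram) : 1 ≤ fd lam := by
  obtain ⟨n, hn⟩ : ∃ n, lam.card = n := ⟨_, rfl⟩
  induction n generalizing lam with
  | zero => rw [eq_bot_of_card hn, fd_bot]
  | succ n ih =>
    have h0 : 0 < lam.card := by omega
    obtain ⟨c, hc⟩ := corn_nonempty h0
    have h1 : ∀ c ∈ corn lam, 1 ≤ fd (del lam c) := by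
      intro c hc
      apply ih
      have := card_del hc
      omega
    rw [fd_rec h0]
    calc (1 : ℝ) ≤ fd (del lam c) := h1 c hc
      _ ≤ _ := Finset.single_le_sum (f := fun c => fd (del lam c))
        (fun c hc => by have := h1 c hc; linarith) hc

/-- a single removal does not increase the degree -/
theorem fd_del_le {lam : YoungDiagram} {c : ℕ × ℕ} (h : c ∈ corn lam) : fd (del lam c) ≤ fd lam := by
  have h0 : 0 < lam.card := by
    have := card_del h
    omega
  rw [fd_rec h0]
  exact Finset.single_le_sum (f := fun c => fd (del lam c))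
    (fun c _ => by have := one_le_fd (del lam c); linarith) h

/-- induction on `lam.card - mu.card`, `exists_corn_notMem`, `le_del` -/
theorem fd_mono {mu lam : YoungDiagram} (h : mu ≤ lam) : fd mu ≤ fd lam := by
  obtain ⟨n, hn⟩ : ∃ n, lam.card = n := ⟨_, rfl⟩
  induction n generalizing lam with
  | zero =>
    have h1 : lam = ⊥ := eq_bot_of_card hn
    have h2 : mu = lam := le_antisymm h (by rw [h1]; exact bot_le)
    rw [h2]
  | succ n ih =>
    rcases eq_or_lt_of_le h with h1 | h1
    · rw [h1]
    · obtain ⟨c, hc, hcm⟩ := exists_corn_notMem h1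
      have h2 := card_del hc
      exact (ih (le_del hc h hcm) (by omega)).trans (fd_del_le hc)

/-- induction on `lam.card`, `mem_corn_transpose`, `del_transpose` -/
theorem fd_transpose (lam : YoungDiagram) : fd lam.transpose = fd lam := by
  obtain ⟨n, hn⟩ : ∃ n, lam.card = n := ⟨_, rfl⟩
  induction n generalizing lam with
  | zero =>
    have h1 : lam = ⊥ := eq_bot_of_card hn
    have h2 : lam.transpose = ⊥ := eq_bot_of_card (by rw [card_transpose_eq, hn])
    rw [h1, ← h1, h2]
    rw [h1]
  | succ n ih =>
    have h0 : 0 < lam.card := by omega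
    have h0' : 0 < lam.transpose.card := by rw [card_transpose_eq]; exact h0
    rw [fd_rec h0, fd_rec h0']
    refine Finset.sum_nbij' Prod.swap Prod.swap ?_ ?_ ?_ ?_ ?_
    · intro c hc
      exact mem_corn_transpose.1 hc
    · intro c hc
      rw [mem_corn_transpose, Prod.swap_swap]
      exact hc
    · intro c _
      exact Prod.swap_swap c
    · intro c _
      exact Prod.swap_swap c
    · intro c hc
      rw [del_transpose]
      apply ih
      have := card_del (mem_corn_transpose.1 hc)
      omega

/-- induction on `j`: `branching` and `schur_orthonormal'` -/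
theorem hall_skew_nonneg (nu lam : YoungDiagram) (j : ℕ) :
    0 ≤ hall (schur ℝ nu * MvPolynomial.X 0 ^ j) (schur ℝ lam) := by
  classical
  induction j generalizing lam with
  | zero =>
    rw [pow_zero, mul_one, schur_orthonormal']
    split_ifs
    · exact zero_le_one
    · exact le_refl _
  | succ j ih =>
    rw [pow_succ, ← mul_assoc, branching]
    exact Finset.sum_nonneg fun c _ => ih _

/-- induction on `lam.card - nu.card`; one term of `branching` is at least one, the others are
non negative -/
theorem one_le_hall_skew {nu lam : YoungDiagram} (h : nu ≤ lam) :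
    1 ≤ hall (schur ℝ nu * MvPolynomial.X 0 ^ (lam.card - nu.card)) (schur ℝ lam) := by
  classical
  obtain ⟨n, hn⟩ : ∃ n, lam.card = n := ⟨_, rfl⟩
  induction n generalizing lam with
  | zero =>
    have h1 : lam = ⊥ := eq_bot_of_card hn
    have h2 : nu = lam := le_antisymm h (by rw [h1]; exact bot_le)
    rw [h2, Nat.sub_self, pow_zero, mul_one, schur_orthonormal', if_pos rfl]
  | succ n ih =>
    rcases eq_or_lt_of_le h with h1 | h1
    · rw [h1, Nat.sub_self, pow_zero, mul_one, schur_orthonormal', if_pos rfl]
    · obtain ⟨c, hc, hcm⟩ := exists_corn_notMem h1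
      have h2 := card_del hc
      have h3 : nu ≤ del lam c := le_del hc h hcm
      have h4 : nu.card ≤ (del lam c).card := Finset.card_le_card h3
      have h5 : lam.card - nu.card = ((del lam c).card - nu.card) + 1 := by omega
      rw [h5, pow_succ, ← mul_assoc, branching]
      calc (1 : ℝ) ≤ hall (schur ℝ nu * MvPolynomial.X 0 ^ ((del lam c).card - nu.card))
            (schur ℝ (del lam c)) := ih h3 (by omega)
        _ ≤ _ := Finset.single_le_sum
          (f := fun c' => hall (schur ℝ nu * MvPolynomial.X 0 ^ ((del lam c).card - nu.card))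
            (schur ℝ (del lam c'))) (fun c' _ => hall_skew_nonneg _ _ _) hc

/-- `pcyc K 1 = X 0 ^ card ι`; `hall_map` for the cast -/
theorem ch_one {ι : Type} [Fintype ι] [DecidableEq ι] {lam : YoungDiagram}
    (h : lam.card = Fintype.card ι) : ch ℝ lam (1 : Perm ι) = fd lam := by
  have h1 : pcyc ℝ (1 : Perm ι) = MvPolynomial.X 0 ^ Fintype.card ι := by
    unfold pcyc
    rw [Equiv.Perm.parts_partition, Equiv.Perm.cycleType_one, Equiv.Perm.support_one,
      Finset.card_empty, Nat.sub_zero, zero_add, Multiset.map_replicate, Multiset.prod_replicate]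
  unfold ch fd
  rw [h1, h]

end MPbcd198.C
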