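import Pool.Agent.Lib.MP_bcd198_co.C.B3

/-!
# MP_bcd198_co, C/B4: `f^λ ≥ 2^{t/2}`
-/

set_option autoImplicit false

namespace MPbcd198.C

open Equiv Pool.Agent.Lib.MP_463376_co Pool.Agent.Lib.MP_463376_co.Hs

private theorem B4_exists_corn_ge {lam : YoungDiagram} {x : ℕ × ℕ} (hx : x ∈ lam.cells) :
    ∃ c ∈ corn lam, x ≤ c := by
  let mu : YoungDiagram :=
    { cells := lam.cells.filter fun y => ¬ x ≤ y
      isLowerSet := by
        intro a b hab ha
        rw [Finset.mem_coe, Finset.mem_filter] at ha ⊢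
        exact ⟨lam.isLowerSet hab ha.1, fun h => ha.2 (h.trans hab)⟩ }
  have hle : mu ≤ lam := by
    intro y hy
    exact (Finset.mem_filter.1 hy).1
  have hne : mu ≠ lam := by
    intro h
    have h1 : x ∈ mu.cells := by rw [h]; exact hx
    exact (Finset.mem_filter.1 h1).2 le_rfl
  obtain ⟨c, hc, hcm⟩ := exists_corn_notMem (lt_of_le_of_ne hle hne)
  refine ⟨c, hc, ?_⟩
  by_contra hcon
  apply hcm
  exact Finset.mem_filter.2 ⟨(Finset.mem_filter.1 hc).1, hcon⟩

private theorem B4_corn_sub {lam : YoungDiagram} {c : ℕ × ℕ} (hc : c ∈ corn lam) :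
    c ∈ lam.cells := (Finset.mem_filter.1 hc).1

/-- a diagram with exactly one corner `(a-1, b-1)` is the rectangle `a × b` -/
theorem rect_of_corn {lam : YoungDiagram} {c : ℕ × ℕ} (h : corn lam = {c}) (x : ℕ × ℕ) :
    x ∈ lam.cells ↔ x.1 ≤ c.1 ∧ x.2 ≤ c.2 := by
  constructor
  · intro hx
    obtain ⟨c', hc', hle⟩ := B4_exists_corn_ge hx
    rw [h, Finset.mem_singleton] at hc'
    rw [hc'] at hle
    exact ⟨hle.1, hle.2⟩
  · rintro ⟨h1, h2⟩
    have hc : c ∈ corn lam := by rw [h]; exact Finset.mem_singleton_self c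
    exact lam.isLowerSet (show x ≤ c from ⟨h1, h2⟩) (B4_corn_sub hc)

/-- removing the corner of an `a × b` rectangle with `a, b ≥ 2` gives a diagram with the two corners
`(a-2, b-1)` and `(a-1, b-2)` -/
theorem two_corn_of_rect {lam : YoungDiagram} {c : ℕ × ℕ} (h : corn lam = {c}) (h1 : 1 ≤ c.1)
    (h2 : 1 ≤ c.2) : 2 ≤ (corn (del lam c)).card := by
  have hc : c ∈ corn lam := by rw [h]; exact Finset.mem_singleton_self c
  have hm : ∀ x, x ∈ (del lam c).cells ↔ (x.1 ≤ c.1 ∧ x.2 ≤ c.2) ∧ x ≠ c := by
    intro x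
    rw [mem_del hc, rect_of_corn h]
  have ha : (c.1 - 1, c.2) ∈ corn (del lam c) := by
    rw [corn, Finset.mem_filter, hm, hm, hm]
    refine ⟨⟨⟨by simp, by simp⟩, ?_⟩, ?_, ?_⟩
    · intro h3
      have := congrArg Prod.fst h3
      simp only at this
      omega
    · rintro ⟨_, h3⟩
      apply h3
      ext
      · simp only
        omega
      · rfl
    · rintro ⟨⟨_, h3⟩, _⟩
      simp only at h3
      omega
  have hb : (c.1, c.2 - 1) ∈ corn (del lam c) := by
    rw [corn, Finset.mem_filter, hm, hm, hm]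
    refine ⟨⟨⟨by simp, by simp⟩, ?_⟩, ?_, ?_⟩
    · intro h3
      have := congrArg Prod.snd h3
      simp only at this
      omega
    · rintro ⟨⟨h3, _⟩, _⟩
      simp only at h3
      omega
    · rintro ⟨_, h3⟩
      apply h3
      ext
      · rfl
      · simp only
        omega
  have hne : (c.1 - 1, c.2) ≠ (c.1, c.2 - 1) := by
    intro h3
    have := congrArg Prod.fst h3
    simp only at this
    omega
  exact Finset.one_lt_card.2 ⟨_, ha, _, hb, hne⟩

/-- `t = 0` for a rectangle with one row or one column -/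
theorem tt_rect {lam : YoungDiagram} {c : ℕ × ℕ} (h : corn lam = {c}) (h1 : c.1 = 0 ∨ c.2 = 0) :
    tt lam = 0 := by
  have key : ∀ {mu : YoungDiagram} {d : ℕ × ℕ}, corn mu = {d} → d.1 = 0 → tt mu = 0 := by
    intro mu d hd h0
    have hcol : mu.colLen 0 ≤ 1 := by
      by_contra hcon
      push Not at hcon
      have h3 : ((1, 0) : ℕ × ℕ) ∈ mu := YoungDiagram.mem_iff_lt_colLen.2 hcon
      have h4 := ((rect_of_corn hd (1, 0)).1 h3).1
      simp only at h4
      omega
    have hs := sum_rowLen_eq mu hcol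
    rw [Finset.sum_range_one] at hs
    unfold tt
    rw [← hs]
    have := le_max_left (mu.rowLen 0) (mu.colLen 0)
    omega
  rcases h1 with h1 | h1
  · exact key h h1
  · rw [← tt_transpose]
    have h2 : corn lam.transpose = {c.swap} := by
      ext x
      rw [mem_corn_transpose, h, Finset.mem_singleton, Finset.mem_singleton]
      constructor
      · intro h3
        rw [← h3, Prod.swap_swap]
      · intro h3
        rw [h3, Prod.swap_swap]
    exact key h2 h1

/-- Strong induction on `lam.card`.  If there are at least two corners,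
`f ≥ f₁ + f₂`, `f_i² ≥ 2^{t-1}` (`tt_del`), so `f² ≥ 4 · 2^{t-1} ≥ 2^t` (also for `t = 0`).  If there is
exactly one corner: `t = 0` if a row or a column (`tt_rect`), otherwise `f = f(del)`, and `del` has
two corners, `f(del)² ≥ 4 · 2^{t-2} = 2^t` (for `t ≤ 1` trivial: `f(del) ≥ 2`). -/
theorem two_pow_tt_le (lam : YoungDiagram) : (2 : ℝ) ^ tt lam ≤ fd lam ^ 2 := by
  have hpair : ∀ {mu : YoungDiagram}, 2 ≤ (corn mu).card → ∃ c₁ ∈ corn mu, ∃ c₂ ∈ corn mu,
      fd (del mu c₁) + fd (del mu c₂) ≤ fd mu := by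
    intro mu hmu
    obtain ⟨c₁, h1, c₂, h2, hne⟩ := Finset.one_lt_card.1 hmu
    refine ⟨c₁, h1, c₂, h2, ?_⟩
    have hpos : 0 < mu.card := by
      have := B4_corn_sub h1
      exact Finset.card_pos.2 ⟨_, this⟩
    rw [fd_rec hpos, ← Finset.sum_pair (f := fun c => fd (del mu c)) hne]
    apply Finset.sum_le_sum_of_subset_of_nonneg
    · intro x hx
      rw [Finset.mem_insert, Finset.mem_singleton] at hx
      rcases hx with rfl | rfl
      · exact h1
      · exact h2
    · intro x _ _
      linarith [one_le_fd (del mu x)]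
  have hsq : ∀ {A f g F : ℝ}, 0 ≤ A → 0 ≤ f → 0 ≤ g → A ≤ f ^ 2 → A ≤ g ^ 2 → f + g ≤ F →
      4 * A ≤ F ^ 2 := by
    intro A f g F hA hf hg h1 h2 h3
    have h4 : A ≤ f * g := by
      refine le_of_sq_le_sq ?_ (mul_nonneg hf hg)
      calc A ^ 2 = A * A := by ring
        _ ≤ f ^ 2 * g ^ 2 := mul_le_mul h1 h2 hA (sq_nonneg f)
        _ = (f * g) ^ 2 := by ring
    have h5 : (f + g) ^ 2 ≤ F ^ 2 := pow_le_pow_left₀ (add_nonneg hf hg) h3 2
    nlinarith
  have main : ∀ n : ℕ, ∀ lam : YoungDiagram, lam.card = n → (2 : ℝ) ^ tt lam ≤ fd lam ^ 2 := by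
    intro n
    induction n using Nat.strong_induction_on with
    | _ n ih =>
    intro lam hn
    have hf1 := one_le_fd lam
    by_cases ht : tt lam = 0
    · rw [ht, pow_zero]
      nlinarith
    · have hpos : 0 < lam.card := by
        unfold tt at ht
        omega
      have hcn := corn_nonempty hpos
      have hc1 : 1 ≤ (corn lam).card := Finset.card_pos.2 hcn
      rcases Nat.lt_or_ge (corn lam).card 2 with h2 | h2
      · obtain ⟨c, hc⟩ := Finset.card_eq_one.1 (show (corn lam).card = 1 by omega)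
        have hcm : c ∈ corn lam := by rw [hc]; exact Finset.mem_singleton_self c
        have h3 : 1 ≤ c.1 := by
          by_contra hcon
          exact ht (tt_rect hc (Or.inl (by omega)))
        have h4 : 1 ≤ c.2 := by
          by_contra hcon
          exact ht (tt_rect hc (Or.inr (by omega)))
        obtain ⟨c₁, g1, c₂, g2, g3⟩ := hpair (two_corn_of_rect hc h3 h4)
        have e0 := card_del hcm
        have e1 := card_del g1
        have e2 := card_del g2
        have i1 := ih _ (show (del (del lam c) c₁).card < n by omega) _ rfl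
        have i2 := ih _ (show (del (del lam c) c₂).card < n by omega) _ rfl
        have t0 := tt_del hcm
        have t1 := tt_del g1
        have t2 := tt_del g2
        have p1 : (2 : ℝ) ^ tt lam / 4 ≤ 2 ^ tt (del (del lam c) c₁) := by
          rw [div_le_iff₀ (by norm_num)]
          calc (2 : ℝ) ^ tt lam ≤ 2 ^ (tt (del (del lam c) c₁) + 2) :=
                pow_le_pow_right₀ (by norm_num) (by omega)
            _ = 2 ^ tt (del (del lam c) c₁) * 4 := by rw [pow_add]; norm_num
        have p2 : (2 : ℝ) ^ tt lam / 4 ≤ 2 ^ tt (del (del lam c) c₂) := by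
          rw [div_le_iff₀ (by norm_num)]
          calc (2 : ℝ) ^ tt lam ≤ 2 ^ (tt (del (del lam c) c₂) + 2) :=
                pow_le_pow_right₀ (by norm_num) (by omega)
            _ = 2 ^ tt (del (del lam c) c₂) * 4 := by rw [pow_add]; norm_num
        have h5 := hsq (A := (2 : ℝ) ^ tt lam / 4) (by positivity)
          (by linarith [one_le_fd (del (del lam c) c₁)])
          (by linarith [one_le_fd (del (del lam c) c₂)]) (p1.trans i1) (p2.trans i2)
          (g3.trans (fd_del_le hcm))
        linarith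
      · obtain ⟨c₁, g1, c₂, g2, g3⟩ := hpair h2
        have e1 := card_del g1
        have e2 := card_del g2
        have i1 := ih _ (show (del lam c₁).card < n by omega) _ rfl
        have i2 := ih _ (show (del lam c₂).card < n by omega) _ rfl
        have t1 := tt_del g1
        have t2 := tt_del g2
        have p1 : (2 : ℝ) ^ tt lam / 4 ≤ 2 ^ tt (del lam c₁) := by
          rw [div_le_iff₀ (by norm_num)]
          calc (2 : ℝ) ^ tt lam ≤ 2 ^ (tt (del lam c₁) + 2) :=
                pow_le_pow_right₀ (by norm_num) (by omega)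
            _ = 2 ^ tt (del lam c₁) * 4 := by rw [pow_add]; norm_num
        have p2 : (2 : ℝ) ^ tt lam / 4 ≤ 2 ^ tt (del lam c₂) := by
          rw [div_le_iff₀ (by norm_num)]
          calc (2 : ℝ) ^ tt lam ≤ 2 ^ (tt (del lam c₂) + 2) :=
                pow_le_pow_right₀ (by norm_num) (by omega)
            _ = 2 ^ tt (del lam c₂) * 4 := by rw [pow_add]; norm_num
        have h5 := hsq (A := (2 : ℝ) ^ tt lam / 4) (by positivity)
          (by linarith [one_le_fd (del lam c₁)])
          (by linarith [one_le_fd (del lam c₂)]) (p1.trans i1) (p2.trans i2) g3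
        linarith
  exact main _ lam rfl

end MPbcd198.C
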