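import Pool.Agent.Lib.MP_bcd198_co.C.B3

/-!
# MP_bcd198_co, C/B5: `f^λ ≥ binom(n,j) - binom(n,j-1)`
-/

set_option autoImplicit false

namespace MPbcd198.C

open Equiv Pool.Agent.Lib.MP_463376_co Pool.Agent.Lib.MP_463376_co.Hs

/-- ballot numbers -/
noncomputable def gg (n j : ℕ) : ℝ :=
  if j = 0 then 1 else (n.choose j : ℝ) - (n.choose (j - 1) : ℝ)

/-- Pascal -/
theorem gg_rec (n j : ℕ) (hj : 1 ≤ j) : gg (n + 1) j = gg n j + gg n (j - 1) := by
  obtain ⟨i, rfl⟩ : ∃ i, j = i + 1 := ⟨j - 1, by omega⟩
  rcases Nat.eq_zero_or_pos i with hi | hi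
  · subst hi
    unfold gg
    simp
  · obtain ⟨k, rfl⟩ : ∃ k, i = k + 1 := ⟨i - 1, by omega⟩
    unfold gg
    rw [if_neg (by omega), if_neg (by omega), if_neg (by omega)]
    have e1 : k + 1 + 1 - 1 = k + 1 := by omega
    have e2 : k + 1 - 1 = k := by omega
    rw [e1, e2, Nat.choose_succ_succ n (k + 1), Nat.choose_succ_succ n k]
    push_cast
    ring

/-- `gg (2j-1) j = 0` -/
theorem gg_zero (j : ℕ) (hj : 1 ≤ j) : gg (2 * j - 1) j = 0 := by
  unfold gg
  rw [if_neg (by omega), Nat.choose_symm_of_eq_add (show 2 * j - 1 = j + (j - 1) by omega), sub_self]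

/-- there is a corner in a row `≥ 1` unless there is only one row -/
private theorem B5_corner {lam : YoungDiagram} (h : lam.rowLen 0 < lam.card) :
    ∃ c ∈ corn lam, 1 ≤ c.1 := by
  have h1 : rowD (lam.rowLen 0) ≤ lam := by
    rintro ⟨i, j⟩ hx
    have hx' : (i, j) ∈ ({0} : Finset ℕ) ×ˢ Finset.range (lam.rowLen 0) := hx
    rw [Finset.mem_product, Finset.mem_singleton, Finset.mem_range] at hx'
    obtain ⟨h2, h3⟩ := hx'
    simp only at h2 h3
    subst h2
    exact YoungDiagram.mem_iff_lt_rowLen.2 h3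
  have h2 : rowD (lam.rowLen 0) ≠ lam := by
    intro h3
    have h4 : (rowD (lam.rowLen 0)).card = lam.rowLen 0 := by
      show (({0} : Finset ℕ) ×ˢ Finset.range (lam.rowLen 0)).card = _
      rw [Finset.card_product, Finset.card_singleton, Finset.card_range, one_mul]
    rw [h3] at h4
    omega
  obtain ⟨c, hc, hn⟩ := exists_corn_notMem (lt_of_le_of_ne h1 h2)
  refine ⟨c, hc, ?_⟩
  by_contra h3
  have h4 : c.1 = 0 := by omega
  apply hn
  show c ∈ ({0} : Finset ℕ) ×ˢ Finset.range (lam.rowLen 0)
  have h5 : c ∈ lam.cells := (Finset.mem_filter.1 hc).1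
  have h6 : (c.1, c.2) ∈ lam := h5
  rw [YoungDiagram.mem_iff_lt_rowLen, h4] at h6
  rw [Finset.mem_product, Finset.mem_singleton, Finset.mem_range]
  exact ⟨h4, h6⟩

private theorem B5_two_rows (lam : YoungDiagram) : lam.rowLen 0 + lam.rowLen 1 ≤ lam.card := by
  rw [← sum_rowLen_eq lam (N := lam.colLen 0 + 2) (by omega)]
  calc lam.rowLen 0 + lam.rowLen 1 = ∑ i ∈ Finset.range 2, lam.rowLen i := by
        rw [Finset.sum_range_succ, Finset.sum_range_one]
    _ ≤ _ := Finset.sum_le_sum_of_subset (Finset.range_mono (by omega))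

/-- Induction on `lam.card`, `j = lam.card - lam.rowLen 0 ≤ n/2`.  `j = 0`: `one_le_fd`.  `j ≥ 1`:
row `1` is not empty, so there is a corner in a row `≥ 1`; removing it gives `(n-1, j-1)`.  If
`2j < n` then `rowLen 0 = n - j > j ≥ rowLen 1` so the last cell of row `0` is also a corner;
removing it gives `(n-1, j)`.  So `f ≥ gg (n-1) (j-1) + gg (n-1) j = gg n j`; if `2j = n`, `gg (n-1) j = 0`
(`gg_zero`). -/
theorem gg_le_fd (lam : YoungDiagram) (h : 2 * (lam.card - lam.rowLen 0) ≤ lam.card) :
    gg lam.card (lam.card - lam.rowLen 0) ≤ fd lam := by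
  obtain ⟨n, hn⟩ : ∃ n, lam.card = n := ⟨_, rfl⟩
  induction n generalizing lam with
  | zero =>
    have h1 : lam.card - lam.rowLen 0 = 0 := by omega
    rw [h1]
    unfold gg
    rw [if_pos rfl]
    exact one_le_fd lam
  | succ n ih =>
    obtain ⟨j, hj⟩ : ∃ j, j = lam.card - lam.rowLen 0 := ⟨_, rfl⟩
    rw [← hj] at h ⊢
    rcases Nat.eq_zero_or_pos j with h0 | h0
    · rw [h0]
      unfold gg
      rw [if_pos rfl]
      exact one_le_fd lam
    have hrow := rowLen_zero_le_card lam
    obtain ⟨c, hc, hc1⟩ := B5_corner (lam := lam) (by omega)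
    have hcard := card_del hc
    have hrl : (del lam c).rowLen 0 = lam.rowLen 0 := by
      rw [rowLen_del hc, if_neg (by omega)]
    have h1 : (del lam c).card - (del lam c).rowLen 0 = j - 1 := by rw [hrl]; omega
    have h2 : gg n (j - 1) ≤ fd (del lam c) := by
      have := ih (del lam c) (by rw [h1]; omega) (by omega)
      rw [h1] at this
      have h3 : (del lam c).card = n := by omega
      rwa [h3] at this
    rw [hn, gg_rec n j h0]
    rcases Nat.lt_or_ge n (2 * j) with h3 | h3
    · have h4 : n = 2 * j - 1 := by omega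
      have h5 : gg n j = 0 := by rw [h4]; exact gg_zero j h0
      rw [h5, zero_add]
      exact h2.trans (fd_del_le hc)
    · have htwo := B5_two_rows lam
      have hc0 : (0, lam.rowLen 0 - 1) ∈ corn lam := by
        rw [mem_corn_iff]
        simp only
        constructor
        · omega
        · rw [zero_add]; omega
      have hcard0 := card_del hc0
      have hrl0 : (del lam (0, lam.rowLen 0 - 1)).rowLen 0 = lam.rowLen 0 - 1 := by
        rw [rowLen_del hc0, if_pos rfl]
      have h5 : (del lam (0, lam.rowLen 0 - 1)).card -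
          (del lam (0, lam.rowLen 0 - 1)).rowLen 0 = j := by rw [hrl0]; omega
      have h6 : gg n j ≤ fd (del lam (0, lam.rowLen 0 - 1)) := by
        have := ih (del lam (0, lam.rowLen 0 - 1)) (by rw [h5]; omega) (by omega)
        rw [h5] at this
        have h7 : (del lam (0, lam.rowLen 0 - 1)).card = n := by omega
        rwa [h7] at this
      have hne : c ≠ (0, lam.rowLen 0 - 1) := by
        intro h8
        rw [h8] at hc1
        simp only at hc1
        omega
      rw [fd_rec (by omega)]
      have hsub : ({(0, lam.rowLen 0 - 1), c} : Finset (ℕ × ℕ)) ⊆ corn lam := by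
        intro x hx
        rw [Finset.mem_insert, Finset.mem_singleton] at hx
        rcases hx with rfl | rfl
        · exact hc0
        · exact hc
      calc gg n j + gg n (j - 1) ≤ fd (del lam (0, lam.rowLen 0 - 1)) + fd (del lam c) :=
            add_le_add h6 h2
        _ = ∑ x ∈ ({(0, lam.rowLen 0 - 1), c} : Finset (ℕ × ℕ)), fd (del lam x) := by
            rw [Finset.sum_pair (Ne.symm hne)]
        _ ≤ _ := Finset.sum_le_sum_of_subset_of_nonneg hsub
            (fun x _ _ => by have := one_le_fd (del lam x); linarith)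

end MPbcd198.C
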