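import Pool.Agent.Lib.MP_bcd198_co.C.B4
import Pool.Agent.Lib.MP_bcd198_co.C.B5

/-!
# MP_bcd198_co, C/B6: large degrees
-/

set_option autoImplicit false

namespace MPbcd198.C

open Equiv Pool.Agent.Lib.MP_463376_co Pool.Agent.Lib.MP_463376_co.Hs

private theorem B6_choose_ge : ∀ (j n : ℕ), j + 1 ≤ n + 1 →
    (((n + 1 : ℕ) : ℝ) / ((j + 1 : ℕ) : ℝ)) ^ (j + 1) ≤ ((n + 1).choose (j + 1) : ℝ) := by
  intro j
  induction j with
  | zero =>
    intro n _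
    simp
  | succ j ih =>
    intro n hn
    obtain ⟨n', rfl⟩ : ∃ n', n = n' + 1 := ⟨n - 1, by omega⟩
    have h1 := ih n' (by omega)
    have h2 : ((n' + 1 + 1 : ℕ) : ℝ) * ((n' + 1).choose (j + 1) : ℝ) =
        ((n' + 1 + 1).choose (j + 1 + 1) : ℝ) * ((j + 1 + 1 : ℕ) : ℝ) := by
      exact_mod_cast Nat.add_one_mul_choose_eq (n' + 1) (j + 1)
    have hj0 : (0 : ℝ) < ((j + 1 : ℕ) : ℝ) := by positivity
    have hj1 : (0 : ℝ) < ((j + 1 + 1 : ℕ) : ℝ) := by positivity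
    have h3 : ((n' + 1 + 1).choose (j + 1 + 1) : ℝ) =
        ((n' + 1 + 1 : ℕ) : ℝ) / ((j + 1 + 1 : ℕ) : ℝ) * ((n' + 1).choose (j + 1) : ℝ) := by
      rw [div_mul_eq_mul_div, h2, mul_div_assoc, div_self hj1.ne', mul_one]
    rw [h3, pow_succ']
    apply mul_le_mul_of_nonneg_left _ (by positivity)
    refine le_trans ?_ h1
    apply pow_le_pow_left₀ (by positivity)
    rw [div_le_div_iff₀ hj1 hj0]
    have h4 : ((j : ℕ) : ℝ) ≤ n' := by exact_mod_cast (by omega : j ≤ n')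
    push_cast
    nlinarith

/-- `binom(n,j) ≥ (n/j)^j`, `binom(n,j-1) ≤ binom(n,j)/2` if `3j ≤ n+1` -/
theorem gg_ge {n j : ℕ} (hn : 9 ≤ n) (hj : 1 ≤ j) (h : j ^ 2 ≤ n) :
    ((n : ℝ) / j) ^ j / 2 ≤ gg n j := by
  have h3 : 3 * j ≤ n + 1 := by
    rcases Nat.lt_or_ge j 4 with h4 | h4
    · omega
    · nlinarith
  obtain ⟨i, rfl⟩ : ∃ i, j = i + 1 := ⟨j - 1, by omega⟩
  obtain ⟨m, rfl⟩ : ∃ m, n = m + 1 := ⟨n - 1, by omega⟩
  have h1 := B6_choose_ge i m (by omega)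
  have h2 : 2 * ((m + 1).choose i : ℝ) ≤ ((m + 1).choose (i + 1) : ℝ) := by
    have h5 := Nat.choose_succ_right_eq (m + 1) i
    have h6 : 2 * (i + 1) ≤ m + 1 - i := by omega
    have h7 : 2 * (m + 1).choose i * (i + 1) ≤ (m + 1).choose (i + 1) * (i + 1) := by
      rw [h5]
      calc 2 * (m + 1).choose i * (i + 1) = (m + 1).choose i * (2 * (i + 1)) := by ring
        _ ≤ (m + 1).choose i * (m + 1 - i) := Nat.mul_le_mul_left _ h6
    have h8 : 2 * (m + 1).choose i ≤ (m + 1).choose (i + 1) :=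
      Nat.le_of_mul_le_mul_right h7 (Nat.succ_pos i)
    exact_mod_cast h8
  unfold gg
  rw [if_neg (Nat.succ_ne_zero i), Nat.add_sub_cancel]
  linarith

/-- Let `j = tt lam`.  By `fd_transpose` (and `tt_transpose`) one may assume `lam.rowLen 0 ≥ lam.colLen 0`,
so `j = lam.card - lam.rowLen 0`; `2j ≤ n` as `j² ≤ n`, `n ≥ 9`.  `gg_le_fd`, `gg_ge`:
`4 f² ≥ (n/j)^{2j} ≥ n^j` as `j² ≤ n`.  For `j = 0`: `4 f² ≥ 4 ≥ 1`. -/
theorem fd_ge_of_tt_le {lam : YoungDiagram} (hn : 9 ≤ lam.card) (h : tt lam ^ 2 ≤ lam.card) :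
    (lam.card : ℝ) ^ tt lam ≤ 4 * fd lam ^ 2 := by
  have key : ∀ mu : YoungDiagram, 9 ≤ mu.card → tt mu ^ 2 ≤ mu.card →
      mu.colLen 0 ≤ mu.rowLen 0 → (mu.card : ℝ) ^ tt mu ≤ 4 * fd mu ^ 2 := by
    intro mu hn h hcr
    have htt : tt mu = mu.card - mu.rowLen 0 := by
      unfold tt
      rw [max_eq_left hcr]
    rcases Nat.eq_zero_or_pos (tt mu) with h0 | h0
    · rw [h0, pow_zero]
      have := one_le_fd mu
      nlinarith
    · have h2 : 2 * tt mu ≤ mu.card := by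
        rcases Nat.lt_or_ge (tt mu) 5 with h4 | h4
        · omega
        · nlinarith
      have h3 := gg_le_fd mu (by rw [← htt]; exact h2)
      rw [← htt] at h3
      have h4 := (gg_ge hn h0 h).trans h3
      have hj : (0 : ℝ) < tt mu := by exact_mod_cast h0
      have hnn : (0 : ℝ) < mu.card := by exact_mod_cast (by omega : 0 < mu.card)
      have h5 : (((mu.card : ℝ) / tt mu) ^ tt mu) ^ 2 ≤ 4 * fd mu ^ 2 := by
        have h6 : 0 ≤ ((mu.card : ℝ) / tt mu) ^ tt mu := by positivity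
        nlinarith
      refine le_trans ?_ h5
      rw [← pow_mul, mul_comm (tt mu) 2, pow_mul]
      apply pow_le_pow_left₀ hnn.le
      rw [div_pow, le_div_iff₀ (by positivity)]
      have h7 : ((tt mu : ℝ)) ^ 2 ≤ mu.card := by exact_mod_cast h
      nlinarith
  rcases le_total (lam.colLen 0) (lam.rowLen 0) with h1 | h1
  · exact key lam hn h h1
  · have h2 := key lam.transpose (by rw [card_transpose_eq]; exact hn)
      (by rw [card_transpose_eq, tt_transpose]; exact h)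
      (by rw [YoungDiagram.colLen_transpose, YoungDiagram.rowLen_transpose]; exact h1)
    rwa [card_transpose_eq, tt_transpose, fd_transpose] at h2

/-- `K' = 2K + 1`.  If `t² ≤ n`: `4 f² ≥ n^t ≥ n^{2K+2}`, so `f ≥ n^{K+1}/2 ≥ n^K`.  Otherwise
`f² ≥ 2^t ≥ 2^{√n} ≥ n^{2K}` for `n ≥ n₀`. -/
theorem fd_large (K : ℕ) : ∃ K' n₀ : ℕ, ∀ lam : YoungDiagram, n₀ ≤ lam.card → K' < tt lam →
    (lam.card : ℝ) ^ K ≤ fd lam := by
  have hlim : ∃ t₀ : ℕ, ∀ t : ℕ, t₀ ≤ t → (t : ℝ) ^ (4 * K) ≤ 2 ^ t := by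
    have h1 := tendsto_pow_const_div_const_pow_of_one_lt (4 * K) (one_lt_two : (1 : ℝ) < 2)
    have h2 := h1.eventually (gt_mem_nhds (zero_lt_one : (0 : ℝ) < 1))
    rw [Filter.eventually_atTop] at h2
    obtain ⟨t₀, h3⟩ := h2
    refine ⟨t₀, fun t ht => ?_⟩
    have h4 := h3 t ht
    rw [div_lt_one (by positivity)] at h4
    exact h4.le
  obtain ⟨t₀, ht₀⟩ := hlim
  refine ⟨2 * K + 1, t₀ ^ 2 + 9, fun lam hn ht => ?_⟩
  have hf := one_le_fd lam
  have hn9 : (9 : ℝ) ≤ lam.card := by exact_mod_cast (by omega : 9 ≤ lam.card)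
  refine le_of_sq_le_sq ?_ (by linarith)
  rcases Nat.lt_or_ge lam.card (tt lam ^ 2) with h1 | h1
  · have h2 : t₀ ≤ tt lam := by
      by_contra hcon
      push Not at hcon
      have : tt lam ^ 2 ≤ t₀ ^ 2 := Nat.pow_le_pow_left hcon.le 2
      omega
    calc ((lam.card : ℝ) ^ K) ^ 2 ≤ (((tt lam : ℝ) ^ 2) ^ K) ^ 2 := by
          apply pow_le_pow_left₀ (by positivity)
          apply pow_le_pow_left₀ (by positivity)
          exact_mod_cast h1.le
      _ = (tt lam : ℝ) ^ (4 * K) := by ring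
      _ ≤ 2 ^ tt lam := ht₀ _ h2
      _ ≤ fd lam ^ 2 := two_pow_tt_le lam
  · have h2 := fd_ge_of_tt_le (by omega) h1
    have h3 : (lam.card : ℝ) ^ (2 * K + 2) ≤ (lam.card : ℝ) ^ tt lam :=
      pow_le_pow_right₀ (by linarith) (by omega)
    have h4 : ((lam.card : ℝ) ^ K) ^ 2 * (lam.card : ℝ) ^ 2 ≤ 4 * fd lam ^ 2 := by
      refine le_trans (le_of_eq ?_) (h3.trans h2)
      ring
    have h5 : 0 ≤ ((lam.card : ℝ) ^ K) ^ 2 := by positivity
    have h6 : (4 : ℝ) ≤ (lam.card : ℝ) ^ 2 := by nlinarith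
    have h7 := mul_le_mul_of_nonneg_left h6 h5
    linarith

end MPbcd198.C
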