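import Pool.Agent.Lib.MP_bcd198_co.C.B6

/-!
# MP_bcd198_co, C/B7: degrees and Durfee squares
-/

set_option autoImplicit false

namespace MPbcd198.C

open Equiv Pool.Agent.Lib.MP_463376_co Pool.Agent.Lib.MP_463376_co.Hs

/-- the square `[0, d)²` is contained in `lam`, `d = dur lam` -/
theorem square_le {lam : YoungDiagram} {x : ℕ × ℕ} (h1 : x.1 < dur lam) (h2 : x.2 < dur lam) :
    x ∈ lam.cells := by
  have key : ∀ m : ℕ, m < dur lam → m < lam.rowLen m := by
    intro m hm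
    by_contra hlt
    have hsub : (Finset.range lam.card).filter (fun i => i < lam.rowLen i) ⊆ Finset.range m := by
      intro i hi
      rw [Finset.mem_filter] at hi
      rw [Finset.mem_range]
      by_contra hge
      have h3 : m ≤ i := not_lt.1 hge
      exact hlt (lt_of_le_of_lt h3 (lt_of_lt_of_le hi.2 (lam.rowLen_anti m i h3)))
    have h4 := Finset.card_le_card hsub
    rw [Finset.card_range] at h4
    exact absurd hm (not_lt.2 h4)
  rcases le_total x.1 x.2 with h | h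
  · have h3 := key x.2 h2
    have h4 := lam.rowLen_anti x.1 x.2 h
    rw [YoungDiagram.mem_cells, show x = (x.1, x.2) from rfl, YoungDiagram.mem_iff_lt_rowLen]
    exact lt_of_lt_of_le h3 h4
  · have h3 := key x.1 h1
    rw [YoungDiagram.mem_cells, show x = (x.1, x.2) from rfl, YoungDiagram.mem_iff_lt_rowLen]
    exact lt_of_le_of_lt h h3

private theorem B7_row (lam : YoungDiagram) :
    lam.rowLen 0 + dur lam * (dur lam - 1) ≤ lam.card := by
  set d := dur lam with hd
  have h1 : lam.row 0 ∪ (Finset.Ico 1 d ×ˢ Finset.range d) ⊆ lam.cells := by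
    intro x hx
    rw [Finset.mem_union] at hx
    rcases hx with hx | hx
    · exact (YoungDiagram.mem_row_iff.1 hx).1
    · rw [Finset.mem_product, Finset.mem_Ico, Finset.mem_range] at hx
      exact square_le hx.1.2 hx.2
  have h2 : Disjoint (lam.row 0) (Finset.Ico 1 d ×ˢ Finset.range d) := by
    rw [Finset.disjoint_left]
    intro x hx hx'
    rw [YoungDiagram.mem_row_iff] at hx
    rw [Finset.mem_product, Finset.mem_Ico] at hx'
    omega
  have h3 := Finset.card_le_card h1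
  rw [Finset.card_union_of_disjoint h2, ← YoungDiagram.rowLen_eq_card, Finset.card_product,
    Nat.card_Ico, Finset.card_range] at h3
  calc lam.rowLen 0 + d * (d - 1) = lam.rowLen 0 + (d - 1) * d := by rw [mul_comm]
    _ ≤ lam.card := h3

private theorem B7_col (lam : YoungDiagram) :
    lam.colLen 0 + dur lam * (dur lam - 1) ≤ lam.card := by
  set d := dur lam with hd
  have h1 : lam.col 0 ∪ (Finset.range d ×ˢ Finset.Ico 1 d) ⊆ lam.cells := by
    intro x hx
    rw [Finset.mem_union] at hx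
    rcases hx with hx | hx
    · exact (YoungDiagram.mem_col_iff.1 hx).1
    · rw [Finset.mem_product, Finset.mem_Ico, Finset.mem_range] at hx
      exact square_le hx.1 hx.2.2
  have h2 : Disjoint (lam.col 0) (Finset.range d ×ˢ Finset.Ico 1 d) := by
    rw [Finset.disjoint_left]
    intro x hx hx'
    rw [YoungDiagram.mem_col_iff] at hx
    rw [Finset.mem_product, Finset.mem_Ico] at hx'
    omega
  have h3 := Finset.card_le_card h1
  rw [Finset.card_union_of_disjoint h2, ← YoungDiagram.colLen_eq_card, Finset.card_product,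
    Nat.card_Ico, Finset.card_range] at h3
  exact h3

private theorem B7_le_of_sq {a b : ℝ} (h : a ^ 2 ≤ b ^ 2) (hb : 0 ≤ b) : a ≤ b := by
  by_contra hlt
  push Not at hlt
  nlinarith

/-- rows `1, …, d-1` contain `d (d-1)` cells; the same for columns -/
theorem dur_tt (lam : YoungDiagram) : dur lam * (dur lam - 1) ≤ tt lam := by
  have h1 := B7_row lam
  have h2 := B7_col lam
  unfold tt
  rcases le_total (lam.rowLen 0) (lam.colLen 0) with h | h
  · rw [max_eq_right h]; omega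
  · rw [max_eq_left h]; omega

private theorem B7_dur_le (lam : YoungDiagram) : dur lam ≤ lam.card := by
  unfold dur
  refine (Finset.card_filter_le _ _).trans ?_
  rw [Finset.card_range]

private theorem B7_growth (A : ℝ) : ∃ n₀ : ℕ, ∀ n : ℕ, n₀ ≤ n →
    A * Real.log ((n : ℝ) + 1) ≤ (n : ℝ) ^ (1 / 4 : ℝ) * (Real.log 2 / 4) := by
  have h1 : Real.log =o[Filter.atTop] fun x : ℝ => x ^ (1 / 4 : ℝ) :=
    isLittleO_log_rpow_atTop (by norm_num)
  have h2 : (0 : ℝ) < Real.log 2 / 4 := by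
    have := Real.log_pos (by norm_num : (1 : ℝ) < 2)
    positivity
  have hc : (0 : ℝ) < Real.log 2 / 4 / 2 / (|A| + 1) := by positivity
  have h3 := h1.bound hc
  have h4 := (tendsto_natCast_atTop_atTop (R := ℝ)).eventually h3
  rw [Filter.eventually_atTop] at h4
  obtain ⟨n₀, hn₀⟩ := h4
  refine ⟨max n₀ 1, fun n hn => ?_⟩
  have hn1 : n₀ ≤ n + 1 := le_trans (le_trans (le_max_left _ _) hn) (Nat.le_succ n)
  have hn2 : 1 ≤ n := le_trans (le_max_right _ _) hn
  have h5 := hn₀ (n + 1) hn1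
  have hn3 : (1 : ℝ) ≤ n := by exact_mod_cast hn2
  rw [Real.norm_eq_abs, Real.norm_eq_abs, Nat.cast_add, Nat.cast_one] at h5
  have h6 : 0 ≤ Real.log ((n : ℝ) + 1) := Real.log_nonneg (by linarith)
  rw [abs_of_nonneg h6, abs_of_nonneg (Real.rpow_nonneg (by linarith) _)] at h5
  have h7 : ((n : ℝ) + 1) ^ (1 / 4 : ℝ) ≤ 2 * (n : ℝ) ^ (1 / 4 : ℝ) := by
    calc ((n : ℝ) + 1) ^ (1 / 4 : ℝ) ≤ (2 * (n : ℝ)) ^ (1 / 4 : ℝ) :=
          Real.rpow_le_rpow (by linarith) (by linarith) (by norm_num)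
      _ = (2 : ℝ) ^ (1 / 4 : ℝ) * (n : ℝ) ^ (1 / 4 : ℝ) :=
          Real.mul_rpow (by norm_num) (by linarith)
      _ ≤ 2 * (n : ℝ) ^ (1 / 4 : ℝ) := by
          refine mul_le_mul_of_nonneg_right ?_ (Real.rpow_nonneg (by linarith) _)
          calc (2 : ℝ) ^ (1 / 4 : ℝ) ≤ (2 : ℝ) ^ (1 : ℝ) :=
                Real.rpow_le_rpow_of_exponent_le (by norm_num) (by norm_num)
            _ = 2 := Real.rpow_one 2
  calc A * Real.log ((n : ℝ) + 1) ≤ |A| * Real.log ((n : ℝ) + 1) :=
        mul_le_mul_of_nonneg_right (le_abs_self A) h6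
    _ ≤ |A| * (Real.log 2 / 4 / 2 / (|A| + 1) * ((n : ℝ) + 1) ^ (1 / 4 : ℝ)) :=
        mul_le_mul_of_nonneg_left h5 (abs_nonneg A)
    _ ≤ |A| * (Real.log 2 / 4 / 2 / (|A| + 1) * (2 * (n : ℝ) ^ (1 / 4 : ℝ))) := by
        refine mul_le_mul_of_nonneg_left ?_ (abs_nonneg A)
        exact mul_le_mul_of_nonneg_left h7 hc.le
    _ = (|A| / (|A| + 1)) * ((n : ℝ) ^ (1 / 4 : ℝ) * (Real.log 2 / 4)) := by
        field_simp
    _ ≤ 1 * ((n : ℝ) ^ (1 / 4 : ℝ) * (Real.log 2 / 4)) := by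
        refine mul_le_mul_of_nonneg_right ?_ (by positivity)
        rw [div_le_one (by positivity)]
        linarith
    _ = (n : ℝ) ^ (1 / 4 : ℝ) * (Real.log 2 / 4) := one_mul _

/-- Let `n = lam.card`, `d = dur lam`, `t = tt lam`, `t ≥ d(d-1)`; one may assume `A ≥ 0` and `n ≥ n₀(A)`
(for `n < n₀` all factors are bounded, `d ≤ n`; choose `c` small) and `n + 1 ≤ n²`.
Case `t² ≤ n`: `2 f ≥ n^{t/2} ≥ n^{d(d-1)/2}`, and `d(d-1)/2 ≥ 2(A d - B)` for all `d` if `B` is large.
Case `t² > n`: `f ≥ 2^{t/2}`, `t² ≥ √n · d(d-1)` (product of `t > √n` and `t ≥ d(d-1)`), so for `d ≥ 2`: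
`t ≥ n^{1/4} d / 2`, and `(t/2) log 2 ≥ A d log(n+1)` for `n ≥ n₀`; for `d ≤ 1` use `B ≥ A`. -/
theorem fd_ge_dur (A : ℝ) : ∃ B c : ℝ, 0 < c ∧ ∀ lam : YoungDiagram,
    c * ((lam.card : ℝ) + 1) ^ (A * dur lam - B) ≤ fd lam := by
  obtain ⟨n₁, hn₁⟩ := B7_growth A
  set n₀ : ℕ := max n₁ 9 with hn₀
  set B : ℝ := (1 + 4 * |A|) ^ 2 with hB
  have hA : 0 ≤ |A| := abs_nonneg A
  have hBA : |A| ≤ B := by rw [hB]; nlinarith
  have hB0 : 0 ≤ B := by rw [hB]; positivity
  set c₁ : ℝ := (((n₀ : ℝ) + 1) ^ (|A| * n₀))⁻¹ with hc₁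
  have hc₁pos : 0 < c₁ := by rw [hc₁]; positivity
  refine ⟨B, min c₁ (1 / 2), lt_min hc₁pos (by norm_num), fun lam => ?_⟩
  set n := lam.card with hn
  set d := dur lam with hd
  set t := tt lam with ht
  have hfd : 1 ≤ fd lam := one_le_fd lam
  have hbase : (1 : ℝ) ≤ (n : ℝ) + 1 := by
    have : (0 : ℝ) ≤ n := Nat.cast_nonneg n
    linarith
  have hbase0 : (0 : ℝ) < (n : ℝ) + 1 := by linarith
  have hd0 : (0 : ℝ) ≤ (d : ℝ) := Nat.cast_nonneg d
  have hpow0 : 0 ≤ ((n : ℝ) + 1) ^ (A * d - B) := Real.rpow_nonneg hbase0.le _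
  by_cases hlt : n < n₀
  · -- small `n`
    have hdn : (d : ℝ) ≤ n₀ := by
      have h1 : d ≤ n := B7_dur_le lam
      exact_mod_cast (h1.trans hlt.le)
    have h1 : ((n : ℝ) + 1) ^ (A * d - B) ≤ ((n₀ : ℝ) + 1) ^ (|A| * n₀) := by
      calc ((n : ℝ) + 1) ^ (A * d - B) ≤ ((n : ℝ) + 1) ^ (|A| * n₀) := by
            refine Real.rpow_le_rpow_of_exponent_le hbase ?_
            have h2 : A * d ≤ |A| * d := mul_le_mul_of_nonneg_right (le_abs_self A) hd0
            have h3 : |A| * d ≤ |A| * n₀ := mul_le_mul_of_nonneg_left hdn hA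
            linarith
        _ ≤ ((n₀ : ℝ) + 1) ^ (|A| * n₀) := by
            refine Real.rpow_le_rpow hbase0.le ?_ (by positivity)
            have : (n : ℝ) ≤ n₀ := by exact_mod_cast hlt.le
            linarith
    calc min c₁ (1 / 2) * ((n : ℝ) + 1) ^ (A * d - B)
        ≤ c₁ * ((n₀ : ℝ) + 1) ^ (|A| * n₀) :=
          mul_le_mul (min_le_left _ _) h1 hpow0 hc₁pos.le
      _ = 1 := by
          rw [hc₁]
          exact inv_mul_cancel₀ (by positivity)
      _ ≤ fd lam := hfd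
  · push Not at hlt
    have hn9 : 9 ≤ n := le_trans (le_max_right _ _) hlt
    have hnn₁ : n₁ ≤ n := le_trans (le_max_left _ _) hlt
    have hn9' : (9 : ℝ) ≤ n := by exact_mod_cast hn9
    have htd : d * (d - 1) ≤ t := dur_tt lam
    have htd' : (d : ℝ) * ((d : ℝ) - 1) ≤ t := by
      rcases Nat.eq_zero_or_pos d with h0 | h0
      · rw [h0]; simp
      · have h1 : ((d * (d - 1) : ℕ) : ℝ) ≤ (t : ℝ) := by exact_mod_cast htd
        rw [Nat.cast_mul, Nat.cast_sub h0, Nat.cast_one] at h1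
        exact h1
    have hhalf : min c₁ (1 / 2) * ((n : ℝ) + 1) ^ (A * d - B) ≤
        1 / 2 * ((n : ℝ) + 1) ^ (A * d - B) :=
      mul_le_mul_of_nonneg_right (min_le_right _ _) hpow0
    refine hhalf.trans ?_
    by_cases hcase : t ^ 2 ≤ n
    · -- `t² ≤ n`
      have h1 : (n : ℝ) ^ t ≤ 4 * fd lam ^ 2 := fd_ge_of_tt_le hn9 hcase
      have h2 : (n : ℝ) + 1 ≤ (n : ℝ) ^ 2 := by nlinarith
      -- `X = (n+1)^{t/4}`, `X^4 = (n+1)^t ≤ n^(2t)`
      have h3 : ((n : ℝ) + 1) ^ (A * d - B) ≤ ((n : ℝ) + 1) ^ ((t : ℝ) / 4) := by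
        refine Real.rpow_le_rpow_of_exponent_le hbase ?_
        have h4 : A * d ≤ |A| * d := mul_le_mul_of_nonneg_right (le_abs_self A) hd0
        have h5 : |A| * d - B ≤ (d : ℝ) * ((d : ℝ) - 1) / 4 := by
          rw [hB]
          nlinarith [sq_nonneg ((d : ℝ) - (1 + 4 * |A|) / 2), sq_nonneg (1 + 4 * |A|)]
        linarith
      have h6 : (((n : ℝ) + 1) ^ ((t : ℝ) / 4)) ^ 2 ≤ (n : ℝ) ^ t := by
        have e1 : (((n : ℝ) + 1) ^ ((t : ℝ) / 4)) ^ 2 = ((n : ℝ) + 1) ^ ((t : ℝ) / 2) := by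
          rw [← Real.rpow_natCast, ← Real.rpow_mul hbase0.le]
          congr 1
          push_cast
          ring
        rw [e1]
        calc ((n : ℝ) + 1) ^ ((t : ℝ) / 2) ≤ ((n : ℝ) ^ 2) ^ ((t : ℝ) / 2) :=
              Real.rpow_le_rpow hbase0.le h2 (by positivity)
          _ = (n : ℝ) ^ t := by
              rw [← Real.rpow_natCast (n : ℝ) 2, ← Real.rpow_mul (by linarith),
                ← Real.rpow_natCast]
              congr 1
              push_cast
              ring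
      have h7 : ((n : ℝ) + 1) ^ ((t : ℝ) / 4) ≤ 2 * fd lam := by
        have h8 : (((n : ℝ) + 1) ^ ((t : ℝ) / 4)) ^ 2 ≤ (2 * fd lam) ^ 2 := by
          calc _ ≤ (n : ℝ) ^ t := h6
            _ ≤ 4 * fd lam ^ 2 := h1
            _ = (2 * fd lam) ^ 2 := by ring
        exact B7_le_of_sq h8 (by linarith)
      linarith
    · push Not at hcase
      -- `t² > n`
      have h1 : (2 : ℝ) ^ t ≤ fd lam ^ 2 := two_pow_tt_le lam
      rcases Nat.lt_or_ge d 2 with hd2 | hd2
      · have hd1 : (d : ℝ) ≤ 1 := by exact_mod_cast Nat.lt_succ_iff.1 hd2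
        have h2 : ((n : ℝ) + 1) ^ (A * d - B) ≤ 1 := by
          refine Real.rpow_le_one_of_one_le_of_nonpos hbase ?_
          have h4 : A * d ≤ |A| * d := mul_le_mul_of_nonneg_right (le_abs_self A) hd0
          have h5 : |A| * d ≤ |A| * 1 := mul_le_mul_of_nonneg_left hd1 hA
          linarith
        linarith
      · have hd2' : (2 : ℝ) ≤ d := by exact_mod_cast hd2
        have hsq : (n : ℝ) < (t : ℝ) ^ 2 := by exact_mod_cast hcase
        have ht0 : (0 : ℝ) ≤ t := Nat.cast_nonneg t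
        have hr0 : 0 ≤ (n : ℝ) ^ (1 / 4 : ℝ) := Real.rpow_nonneg (by linarith) _
        -- `q = n^{1/4}`, `q^4 = n`
        have hq : ((n : ℝ) ^ (1 / 4 : ℝ)) ^ 4 = n := by
          rw [← Real.rpow_natCast, ← Real.rpow_mul (by linarith)]
          norm_num
        set q : ℝ := (n : ℝ) ^ (1 / 4 : ℝ) with hqdef
        have hqt : q ^ 2 ≤ t := by
          have : (q ^ 2) ^ 2 ≤ (t : ℝ) ^ 2 := by
            calc (q ^ 2) ^ 2 = q ^ 4 := by ring
              _ = (n : ℝ) := hq
              _ ≤ (t : ℝ) ^ 2 := hsq.le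
          exact B7_le_of_sq this ht0
        have hdt : (d : ℝ) ^ 2 / 2 ≤ t := by nlinarith
        have htq : q * d / 2 ≤ t := by
          have h3 : (q * d / 2) ^ 2 ≤ (t : ℝ) ^ 2 := by
            have h4 : q ^ 2 * ((d : ℝ) ^ 2 / 2) ≤ t * t :=
              mul_le_mul hqt hdt (by positivity) ht0
            nlinarith [sq_nonneg (q * d)]
          exact B7_le_of_sq h3 ht0
        have hl2 : 0 < Real.log 2 := Real.log_pos (by norm_num)
        have h5 : A * Real.log ((n : ℝ) + 1) ≤ q * (Real.log 2 / 4) := hn₁ n hnn₁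
        have hlog0 : 0 ≤ Real.log ((n : ℝ) + 1) := Real.log_nonneg hbase
        have h6 : (A * d - B) * Real.log ((n : ℝ) + 1) ≤ (t : ℝ) * Real.log 2 / 2 := by
          have h7 : A * d * Real.log ((n : ℝ) + 1) ≤ d * (q * (Real.log 2 / 4)) := by
            calc A * d * Real.log ((n : ℝ) + 1) = d * (A * Real.log ((n : ℝ) + 1)) := by ring
              _ ≤ d * (q * (Real.log 2 / 4)) := mul_le_mul_of_nonneg_left h5 hd0
          have h8 : d * (q * (Real.log 2 / 4)) ≤ (t : ℝ) * Real.log 2 / 2 := by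
            calc d * (q * (Real.log 2 / 4)) = (q * d / 2) * (Real.log 2 / 2) := by ring
              _ ≤ t * (Real.log 2 / 2) := mul_le_mul_of_nonneg_right htq (by positivity)
              _ = (t : ℝ) * Real.log 2 / 2 := by ring
          have h9 : 0 ≤ B * Real.log ((n : ℝ) + 1) := mul_nonneg hB0 hlog0
          nlinarith
        have h10 : ((n : ℝ) + 1) ^ (A * d - B) ≤ fd lam := by
          have h11 : (((n : ℝ) + 1) ^ (A * d - B)) ^ 2 ≤ fd lam ^ 2 := by
            refine le_trans ?_ h1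
            rw [← Real.rpow_natCast (((n : ℝ) + 1) ^ (A * d - B)) 2, ← Real.rpow_mul hbase0.le,
              ← Real.rpow_natCast (2 : ℝ) t, Real.rpow_def_of_pos hbase0,
              Real.rpow_def_of_pos (by norm_num : (0 : ℝ) < 2)]
            refine Real.exp_le_exp.2 ?_
            push_cast
            nlinarith
          exact B7_le_of_sq h11 (by linarith)
        linarith

end MPbcd198.C
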