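import Pool.Agent.Lib.MP_bcd198_co.C.B1

/-!
# MP_bcd198_co, C/B8: counting partitions
-/

set_option autoImplicit false

namespace MPbcd198.C

open Equiv Pool.Agent.Lib.MP_463376_co Pool.Agent.Lib.MP_463376_co.Hs

private theorem B8_rowLen_N (lam : YoungDiagram) {N : ℕ} (hN : lam.card ≤ N) :
    lam.rowLen N = 0 :=
  rowLen_eq_zero ((colLen_zero_le_card lam).trans hN)

/-- `card = ∑_i (i+1) (rowLen i - rowLen (i+1))` (Abel summation, `sum_rowLen_eq`) -/
theorem card_eq_sum_diff (lam : YoungDiagram) {N : ℕ} (hN : lam.card ≤ N) :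
    lam.card = ∑ i ∈ Finset.range N, (i + 1) * (lam.rowLen i - lam.rowLen (i + 1)) := by
  have key : ∀ M : ℕ, ∑ i ∈ Finset.range M, (i + 1) * (lam.rowLen i - lam.rowLen (i + 1)) +
      M * lam.rowLen M = ∑ i ∈ Finset.range M, lam.rowLen i := by
    intro M
    induction M with
    | zero => simp
    | succ M ih =>
      rw [Finset.sum_range_succ, Finset.sum_range_succ, ← ih]
      have h1 : lam.rowLen (M + 1) ≤ lam.rowLen M := lam.rowLen_anti _ _ (Nat.le_succ M)
      obtain ⟨k, hk⟩ := Nat.exists_eq_add_of_le h1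
      rw [hk, Nat.add_sub_cancel_left]
      ring
  have h1 := key N
  rw [B8_rowLen_N lam hN, mul_zero, add_zero,
    sum_rowLen_eq lam ((colLen_zero_le_card lam).trans hN)] at h1
  exact h1.symm

/-- the differences `rowLen i - rowLen (i+1)`, `i < N`, determine the diagram if `card ≤ N` -/
theorem ext_diff {lam mu : YoungDiagram} {N : ℕ} (hN : lam.card ≤ N) (hN' : mu.card ≤ N)
    (h : ∀ i < N, lam.rowLen i - lam.rowLen (i + 1) = mu.rowLen i - mu.rowLen (i + 1)) :
    lam = mu := by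
  have key : ∀ k : ℕ, k ≤ N → lam.rowLen (N - k) = mu.rowLen (N - k) := by
    intro k
    induction k with
    | zero =>
      intro _
      rw [Nat.sub_zero, B8_rowLen_N lam hN, B8_rowLen_N mu hN']
    | succ k ih =>
      intro hk
      have h1 := ih (by omega)
      have h2 := h (N - (k + 1)) (by omega)
      have h3 : N - (k + 1) + 1 = N - k := by omega
      rw [h3] at h2
      have h4 : lam.rowLen (N - k) ≤ lam.rowLen (N - (k + 1)) := lam.rowLen_anti _ _ (by omega)
      have h5 : mu.rowLen (N - k) ≤ mu.rowLen (N - (k + 1)) := mu.rowLen_anti _ _ (by omega)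
      omega
  apply ext_rowLen
  intro i
  rcases Nat.lt_or_ge N i with hi | hi
  · have h1 : lam.rowLen i ≤ lam.rowLen N := lam.rowLen_anti _ _ hi.le
    have h2 : mu.rowLen i ≤ mu.rowLen N := mu.rowLen_anti _ _ hi.le
    rw [B8_rowLen_N lam hN] at h1
    rw [B8_rowLen_N mu hN'] at h2
    omega
  · have h1 := key (N - i) (by omega)
    rwa [Nat.sub_sub_self hi] at h1

/-- `1/(1-x) · 1/(1-x²) ⋯` is bounded: `∏_{i<N} (1-x^{i+1})⁻¹ ≤ exp(x/(1-x)²)` -/
theorem prod_inv_le (x : ℝ) (hx0 : 0 < x) (hx1 : x < 1) (N : ℕ) :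
    ∏ i ∈ Finset.range N, (1 - x ^ (i + 1))⁻¹ ≤ Real.exp (x / (1 - x) ^ 2) := by
  have h1x : 0 < 1 - x := by linarith
  have hy : ∀ i : ℕ, x ^ (i + 1) ≤ x := by
    intro i
    calc x ^ (i + 1) ≤ x ^ 1 := pow_le_pow_of_le_one hx0.le hx1.le (by omega)
      _ = x := pow_one x
  have h1 : ∏ i ∈ Finset.range N, (1 - x ^ (i + 1))⁻¹ ≤
      ∏ i ∈ Finset.range N, Real.exp (x ^ (i + 1) / (1 - x)) := by
    apply Finset.prod_le_prod
    · intro i _
      have := hy i
      apply inv_nonneg.2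
      linarith
    · intro i _
      have h2 := hy i
      have h3 : 0 < 1 - x ^ (i + 1) := by linarith
      have h4 : 0 < x ^ (i + 1) := pow_pos hx0 _
      have h5 : (1 - x ^ (i + 1))⁻¹ = x ^ (i + 1) / (1 - x ^ (i + 1)) + 1 := by
        field_simp
        ring
      rw [h5]
      refine (Real.add_one_le_exp _).trans ?_
      apply Real.exp_le_exp.2
      apply div_le_div_of_nonneg_left h4.le h1x
      linarith
  refine h1.trans ?_
  rw [← Real.exp_sum]
  apply Real.exp_le_exp.2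
  rw [← Finset.sum_div, pow_two, ← div_div]
  apply div_le_div_of_nonneg_right _ h1x.le
  rw [le_div_iff₀ h1x]
  have h6 : ∑ i ∈ Finset.range N, x ^ (i + 1) = x * ∑ i ∈ Finset.range N, x ^ i := by
    rw [Finset.mul_sum]
    refine Finset.sum_congr rfl fun i _ => ?_
    ring
  have h7 := mul_neg_geom_sum x N
  rw [h6, mul_assoc, mul_comm (∑ i ∈ Finset.range N, x ^ i), h7]
  have : 0 < x ^ N := pow_pos hx0 N
  nlinarith

/-- For `N ≥` all cards: the map `lam ↦ (rowLen i - rowLen (i+1))_{i<N} ∈ {0..N}^N` is injective on `S`,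
`x^card = ∏ (x^{i+1})^{d_i}`, so the sum is at most `∏_{i<N} ∑_{d ≤ N} x^{(i+1)d} ≤ ∏ (1 - x^{i+1})⁻¹`
(`Finset.prod_univ_sum`). -/
theorem sum_pow_card (x : ℝ) (hx0 : 0 < x) (hx1 : x < 1) : ∃ C : ℝ,
    ∀ S : Finset YoungDiagram, ∑ lam ∈ S, x ^ lam.card ≤ C := by
  refine ⟨Real.exp (x / (1 - x) ^ 2), fun S => ?_⟩
  set N : ℕ := S.sup fun lam => lam.card with hN
  have hcard : ∀ lam ∈ S, lam.card ≤ N := fun lam hl =>
    Finset.le_sup (f := fun lam : YoungDiagram => lam.card) hl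
  set D : YoungDiagram → (Fin N → ℕ) := fun lam i =>
    lam.rowLen i - lam.rowLen (i + 1) with hD
  set t : Fin N → Finset ℕ := fun _ => Finset.range (N + 1) with ht
  set g : (Fin N → ℕ) → ℝ := fun p => ∏ i : Fin N, (x ^ ((i : ℕ) + 1)) ^ (p i) with hg
  have hpow : ∀ lam ∈ S, x ^ lam.card = g (D lam) := by
    intro lam hl
    conv_lhs => rw [card_eq_sum_diff lam (hcard lam hl)]
    rw [← Finset.prod_pow_eq_pow_sum, hg, ← Fin.prod_univ_eq_prod_range
      (fun i => x ^ ((i + 1) * (lam.rowLen i - lam.rowLen (i + 1))))]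
    refine Finset.prod_congr rfl fun i _ => ?_
    rw [hD, pow_mul]
  have hinj : Set.InjOn D (S : Set YoungDiagram) := by
    intro lam hl mu hm h
    apply ext_diff (hcard lam hl) (hcard mu hm)
    intro i hi
    exact congrFun h ⟨i, hi⟩
  rw [Finset.sum_congr rfl hpow, ← Finset.sum_image (f := g) hinj]
  have hsub : S.image D ⊆ Fintype.piFinset t := by
    intro p hp
    rw [Finset.mem_image] at hp
    obtain ⟨lam, hl, rfl⟩ := hp
    rw [Fintype.mem_piFinset]
    intro i
    rw [ht, Finset.mem_range]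
    have h1 : lam.rowLen i ≤ lam.rowLen 0 := lam.rowLen_anti _ _ (Nat.zero_le _)
    have h2 := rowLen_zero_le_card lam
    have h3 := hcard lam hl
    have h4 : D lam i = lam.rowLen i - lam.rowLen (i + 1) := rfl
    omega
  calc ∑ p ∈ S.image D, g p ≤ ∑ p ∈ Fintype.piFinset t, g p := by
        apply Finset.sum_le_sum_of_subset_of_nonneg hsub
        intro p _ _
        rw [hg]
        positivity
    _ = ∏ i : Fin N, ∑ d ∈ t i, (x ^ ((i : ℕ) + 1)) ^ d := by
        rw [Finset.prod_univ_sum]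
    _ ≤ ∏ i : Fin N, (1 - x ^ ((i : ℕ) + 1))⁻¹ := by
        apply Finset.prod_le_prod
        · intro i _
          positivity
        · intro i _
          have h4 : 0 < x ^ ((i : ℕ) + 1) := pow_pos hx0 _
          have h2 : x ^ ((i : ℕ) + 1) ≤ x := by
            calc x ^ ((i : ℕ) + 1) ≤ x ^ 1 := pow_le_pow_of_le_one hx0.le hx1.le (by omega)
              _ = x := pow_one x
          have h3 : 0 < 1 - x ^ ((i : ℕ) + 1) := by linarith
          have h7 := mul_neg_geom_sum (x ^ ((i : ℕ) + 1)) (N + 1)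
          rw [← one_div, le_div_iff₀ h3, mul_comm, ht, h7]
          have : 0 < (x ^ ((i : ℕ) + 1)) ^ (N + 1) := pow_pos h4 _
          linarith
    _ = ∏ i ∈ Finset.range N, (1 - x ^ (i + 1))⁻¹ :=
        Fin.prod_univ_eq_prod_range (fun i => (1 - x ^ (i + 1))⁻¹) N
    _ ≤ _ := prod_inv_le x hx0 hx1 N

end MPbcd198.C
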