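import Pool.Agent.Lib.MP_bcd198_co.C.B4
import Pool.Agent.Lib.MP_bcd198_co.C.B8

/-!
# MP_bcd198_co, C/B9: the sum of negative powers of the degrees
-/

set_option autoImplicit false

namespace MPbcd198.C

open Equiv Pool.Agent.Lib.MP_463376_co Pool.Agent.Lib.MP_463376_co.Hs

/-- the diagram without its first row -/
def tailD (lam : YoungDiagram) : YoungDiagram where
  cells := (lam.cells.filter fun x => 1 ≤ x.1).image fun x => (x.1 - 1, x.2)
  isLowerSet := by
    rintro ⟨i, j⟩ ⟨i', j'⟩ hle hmem
    rw [Finset.mem_coe, Finset.mem_image] at hmem ⊢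
    obtain ⟨⟨a, b⟩, hab, heq⟩ := hmem
    rw [Finset.mem_filter] at hab
    simp only [Prod.mk.injEq] at heq
    have h1 : i' ≤ i := hle.1
    have h2 : j' ≤ j := hle.2
    have h3 : 1 ≤ a := hab.2
    refine ⟨(i' + 1, j'), Finset.mem_filter.2 ⟨?_, by simp⟩, by simp⟩
    exact lam.isLowerSet (show (i' + 1, j') ≤ (a, b) from ⟨by simp only; omega, by simp only; omega⟩)
      hab.1

private theorem B9_mem_tailD (lam : YoungDiagram) (i j : ℕ) :
    (i, j) ∈ tailD lam ↔ (i + 1, j) ∈ lam := by
  rw [← YoungDiagram.mem_cells, ← YoungDiagram.mem_cells]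
  change (i, j) ∈ ((lam.cells.filter fun x => 1 ≤ x.1).image fun x => (x.1 - 1, x.2)) ↔ _
  rw [Finset.mem_image]
  constructor
  · rintro ⟨⟨a, b⟩, hab, heq⟩
    rw [Finset.mem_filter] at hab
    simp only [Prod.mk.injEq] at heq
    have h3 : 1 ≤ a := hab.2
    have h4 : a = i + 1 := by omega
    rw [← h4, ← heq.2]
    exact hab.1
  · intro h
    exact ⟨(i + 1, j), Finset.mem_filter.2 ⟨h, by simp⟩, by simp⟩

theorem rowLen_tailD (lam : YoungDiagram) (i : ℕ) : (tailD lam).rowLen i = lam.rowLen (i + 1) := by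
  have h : ∀ j, j < (tailD lam).rowLen i ↔ j < lam.rowLen (i + 1) := by
    intro j
    rw [← YoungDiagram.mem_iff_lt_rowLen, ← YoungDiagram.mem_iff_lt_rowLen, B9_mem_tailD]
  have h1 := h ((tailD lam).rowLen i)
  have h2 := h (lam.rowLen (i + 1))
  omega

theorem card_tailD (lam : YoungDiagram) : (tailD lam).card + lam.rowLen 0 = lam.card := by
  have h1 : (tailD lam).card = (lam.cells.filter fun x => 1 ≤ x.1).card := by
    change ((lam.cells.filter fun x => 1 ≤ x.1).image fun x => (x.1 - 1, x.2)).card = _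
    apply Finset.card_image_of_injOn
    rintro ⟨a, b⟩ ha ⟨c, d⟩ hc heq
    rw [Finset.mem_coe, Finset.mem_filter] at ha hc
    simp only [Prod.mk.injEq] at heq
    have h3 : 1 ≤ a := ha.2
    have h4 : 1 ≤ c := hc.2
    have h5 : a = c := by omega
    rw [h5, heq.2]
  have h2 : lam.rowLen 0 = (lam.cells.filter fun x => ¬ 1 ≤ x.1).card := by
    rw [YoungDiagram.rowLen_eq_card, YoungDiagram.row]
    congr 1
    apply Finset.filter_congr
    intro x _
    omega
  rw [h1, h2]
  exact Finset.card_filter_add_card_filter_not _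

/-- `tailD` is injective on the diagrams with a given number of cells -/
theorem tailD_inj {lam mu : YoungDiagram} (h : lam.card = mu.card) (h' : tailD lam = tailD mu) :
    lam = mu := by
  apply ext_rowLen
  intro i
  cases i with
  | zero =>
    have h1 := card_tailD lam
    have h2 := card_tailD mu
    rw [h'] at h1
    omega
  | succ i => rw [← rowLen_tailD, ← rowLen_tailD, h']

/-- `fd^{-s} ≤ x^{tt}` with `x = 2^{-s/2}` (`two_pow_tt_le`); split according to
`colLen 0 ≤ rowLen 0` (then `tt lam = (tailD lam).card`) or not (then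
`tt lam = (tailD lam.transpose).card`); `tailD_inj` and `sum_pow_card`. -/
theorem sum_fd (s : ℝ) (hs : 0 < s) : ∃ C : ℝ, ∀ (n : ℕ) (S : Finset YoungDiagram),
    (∀ lam ∈ S, lam.card = n) → ∑ lam ∈ S, fd lam ^ (-s) ≤ C := by
  classical
  set x : ℝ := (2 : ℝ) ^ (-s / 2) with hx
  have hx0 : 0 < x := Real.rpow_pos_of_pos (by norm_num) _
  have hx1 : x < 1 := Real.rpow_lt_one_of_one_lt_of_neg (by norm_num) (by linarith)
  obtain ⟨C, hC⟩ := sum_pow_card x hx0 hx1
  have hle : ∀ lam : YoungDiagram, fd lam ^ (-s) ≤ x ^ tt lam := by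
    intro lam
    have h0 : 0 < fd lam := lt_of_lt_of_le one_pos (one_le_fd lam)
    have h1 := two_pow_tt_le lam
    have h2 : fd lam ^ (-s) = (fd lam ^ 2) ^ (-s / 2) := by
      rw [← Real.rpow_natCast (fd lam) 2, ← Real.rpow_mul h0.le]
      congr 1
      push_cast
      ring
    have h3 : x ^ tt lam = ((2 : ℝ) ^ tt lam) ^ (-s / 2) := by
      rw [hx, ← Real.rpow_natCast, ← Real.rpow_natCast, ← Real.rpow_mul (by norm_num),
        ← Real.rpow_mul (by norm_num)]
      congr 1
      ring
    rw [h2, h3]
    exact Real.rpow_le_rpow_of_nonpos (by positivity) h1 (by linarith)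
  refine ⟨C + C, fun n S hS => ?_⟩
  rw [← Finset.sum_filter_add_sum_filter_not S fun lam => lam.colLen 0 ≤ lam.rowLen 0]
  refine add_le_add ?_ ?_
  · -- long first row
    have h1 : ∑ lam ∈ S.filter (fun lam => lam.colLen 0 ≤ lam.rowLen 0), fd lam ^ (-s) ≤
        ∑ lam ∈ S.filter (fun lam => lam.colLen 0 ≤ lam.rowLen 0), x ^ (tailD lam).card := by
      refine Finset.sum_le_sum fun lam hlam => ?_
      rw [Finset.mem_filter] at hlam
      refine (hle lam).trans_eq ?_
      congr 1
      rw [tt, max_eq_left hlam.2]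
      have := card_tailD lam
      omega
    refine h1.trans ?_
    rw [← Finset.sum_image (f := fun mu : YoungDiagram => x ^ mu.card) (g := tailD) ?_]
    · exact hC _
    · intro a ha b hb hab
      rw [Finset.mem_coe, Finset.mem_filter] at ha hb
      exact tailD_inj ((hS a ha.1).trans (hS b hb.1).symm) hab
  · -- long first column
    have h1 : ∑ lam ∈ S.filter (fun lam => ¬ lam.colLen 0 ≤ lam.rowLen 0), fd lam ^ (-s) ≤
        ∑ lam ∈ S.filter (fun lam => ¬ lam.colLen 0 ≤ lam.rowLen 0),
          x ^ (tailD lam.transpose).card := by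
      refine Finset.sum_le_sum fun lam hlam => ?_
      rw [Finset.mem_filter] at hlam
      refine (hle lam).trans_eq ?_
      congr 1
      rw [tt, max_eq_right (le_of_lt (not_le.1 hlam.2))]
      have h2 := card_tailD lam.transpose
      rw [YoungDiagram.rowLen_transpose, card_transpose_eq] at h2
      omega
    refine h1.trans ?_
    rw [← Finset.sum_image (f := fun mu : YoungDiagram => x ^ mu.card)
      (g := fun lam : YoungDiagram => tailD lam.transpose) ?_]
    · exact hC _
    · intro a ha b hb hab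
      rw [Finset.mem_coe, Finset.mem_filter] at ha hb
      have h3 : a.transpose = b.transpose := by
        refine tailD_inj ?_ hab
        rw [card_transpose_eq, card_transpose_eq]
        exact (hS a ha.1).trans (hS b hb.1).symm
      exact YoungDiagram.transpose_eq_iff.1 h3

end MPbcd198.C
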