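import Pool.Agent.Lib.MP_463376_co.H_Prim
import Pool.Agent.Lib.MP_463376_co.H_Expand

/-!
# MP_bcd198_co, stream C: definitions

Library: `Pool.Agent.Lib.MP_463376_co` (file SymDefs: `Sym`, `hall`, `schur`, `pcyc`, `frob`) and
`Pool.Agent.Lib.MP_463376_co.Hs` (files H_*: `hall_schur` = Frobenius formula, `schur_orthonormal'`,
`schur_expand'`, `parseval`, `hall_frob`, `exists_idempotent'`, ...).
-/

set_option autoImplicit false

namespace MPbcd198.C

open Equiv Pool.Agent.Lib.MP_463376_co Pool.Agent.Lib.MP_463376_co.Hs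

/-- the irreducible character `χ^λ` -/
noncomputable def ch (K : Type) [Field K] {ι : Type} [Fintype ι] [DecidableEq ι]
    (lam : YoungDiagram) (w : Perm ι) : K := hall (pcyc K w) (schur K lam)

/-- the degree `f^λ` -/
noncomputable def fd (lam : YoungDiagram) : ℝ :=
  hall (MvPolynomial.X 0 ^ lam.card) (schur ℝ lam)

/-- removable cells (corners) -/
def corn (lam : YoungDiagram) : Finset (ℕ × ℕ) :=
  lam.cells.filter fun c => (c.1 + 1, c.2) ∉ lam.cells ∧ (c.1, c.2 + 1) ∉ lam.cells

/-- remove a removable cell (otherwise do nothing) -/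
def del (lam : YoungDiagram) (c : ℕ × ℕ) : YoungDiagram :=
  if h : c ∈ corn lam then
    { cells := lam.cells.erase c
      isLowerSet := by
        rintro ⟨i, j⟩ ⟨i', j'⟩ hle hmem
        rw [Finset.mem_coe, Finset.mem_erase] at hmem ⊢
        obtain ⟨hne, hm⟩ := hmem
        refine ⟨?_, lam.isLowerSet hle hm⟩
        rintro rfl
        have h2 := (Finset.mem_filter.1 h).2
        have hi : i' ≤ i := hle.1
        have hj : j' ≤ j := hle.2
        rcases Nat.lt_or_ge i' i with h3 | h3
        · exact h2.1 (lam.isLowerSet (show (i' + 1, j') ≤ (i, j) from ⟨h3, hj⟩) hm)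
        · have h4 : i' = i := le_antisymm hi h3
          subst h4
          rcases Nat.lt_or_ge j' j with h5 | h5
          · exact h2.2 (lam.isLowerSet (show (i', j' + 1) ≤ (i', j) from ⟨le_refl _, h5⟩) hm)
          · exact hne (by rw [le_antisymm h5 hj]) }
  else lam

/-- `t(λ) = min (n - λ₁, n - λ'₁)` -/
def tt (lam : YoungDiagram) : ℕ := lam.card - max (lam.rowLen 0) (lam.colLen 0)

/-- size of the Durfee square -/
def dur (lam : YoungDiagram) : ℕ :=
  ((Finset.range lam.card).filter fun i => i < lam.rowLen i).card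

/-- `β`-set with `N` elements: `{λ_i + N - 1 - i : i < N}` -/
def bset (N : ℕ) (lam : YoungDiagram) : Finset ℕ :=
  Finset.univ.image fun i : Fin N => lam.rowLen i + rho N i

/-- `∏_{x < y} (y - x)` -/
noncomputable def VV (S : Finset ℕ) : ℝ :=
  ∏ x ∈ S, ∏ y ∈ S.filter fun y => x < y, ((y : ℝ) - x)

/-- `F(B) = ∏_{x<y} (y - x) / ∏ x!` -/
noncomputable def FF (B : Finset ℕ) : ℝ := VV B / ∏ x ∈ B, (x.factorial : ℝ)

/-- `1/((a-b)/r)!` if `b ≤ a` and `r ∣ a - b` -/
noncomputable def uu (r a b : ℕ) : ℝ :=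
  if b ≤ a ∧ r ∣ (a - b) then 1 / (((a - b) / r).factorial : ℝ) else 0

/-- residue class `c` mod `r` of `B`, rescaled: `{y : r y + c ∈ B}` -/
def cls (r c : ℕ) (B : Finset ℕ) : Finset ℕ := (B.filter fun x => x % r = c).image fun x => x / r

/-- particles -/
def PP (B : Finset ℕ) : Finset ℕ := B.filter fun x => B.card ≤ x

/-- holes -/
def HH (B : Finset ℕ) : Finset ℕ := (Finset.range B.card).filter fun x => x ∉ B

/-- `1_P - 1_H` -/
noncomputable def sg (P H : Finset ℕ) (x : ℕ) : ℝ :=
  (if x ∈ P then 1 else 0) - (if x ∈ H then 1 else 0)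

/-- logarithmic energy (`Real.log 0 = 0`, so the diagonal does not contribute) -/
noncomputable def En (S : Finset ℕ) (ρ : ℕ → ℝ) : ℝ :=
  -(1 / 2) * ∑ x ∈ S, ∑ y ∈ S, ρ x * ρ y * Real.log |(x : ℝ) - y|

end MPbcd198.C
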