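import Pool.Agent.Lib.MP_bcd198_co.C.Defs
import Pool.Agent.Lib.MP_463376_co.H_Dom

/-!
# MP_bcd198_co, C/E1: character values on rectangular classes as determinants
-/

set_option autoImplicit false

namespace MPbcd198.C

open Equiv Pool.Agent.Lib.MP_463376_co Pool.Agent.Lib.MP_463376_co.Hs

private theorem E1_prod_pow {r : ℕ} (a : Fin r → ℕ) :
    ∏ j : Fin r, (MvPolynomial.X j : MvPolynomial (Fin r) ℝ) ^ a j =
      MvPolynomial.monomial (vec a) 1 := by
  rw [MvPolynomial.monomial_eq, MvPolynomial.C_1, one_mul, Finsupp.prod_fintype]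
  · rfl
  · intro i
    exact pow_zero _

private theorem E1_vec_inj {r : ℕ} {a b : Fin r → ℕ} (h : vec a = vec b) : a = b := by
  funext i
  have := DFunLike.congr_fun h i
  simpa using this

/-- coefficient of `x^γ` in `(∑ x_i^r)^k`: `k! / ∏ (γ_i/r)!` if all `γ_i` are divisible by `r` and
`∑ γ_i = r k` (multinomial theorem `Finset.sum_pow_eq_sum_piAntidiag`, or induction on `k`) -/
theorem coeff_psum_pow {r k N : ℕ} (hr : 1 ≤ r) (γ : Fin N → ℕ) (hγ : ∑ i, γ i = r * k) :
    ((∑ b : Fin N, (MvPolynomial.X b : MvPolynomial (Fin N) ℝ) ^ r) ^ k).coeff (vec γ) =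
      (k.factorial : ℝ) * ∏ i, (if r ∣ γ i then 1 / ((γ i / r).factorial : ℝ) else 0) := by
  classical
  rw [Finset.sum_pow_eq_sum_piAntidiag, MvPolynomial.coeff_sum]
  have h1 : ∀ κ ∈ Finset.piAntidiag (Finset.univ : Finset (Fin N)) k,
      MvPolynomial.coeff (vec γ) ((Nat.multinomial Finset.univ κ : MvPolynomial (Fin N) ℝ) *
        ∏ i, ((MvPolynomial.X i : MvPolynomial (Fin N) ℝ) ^ r) ^ κ i) =
      if (fun i => r * κ i) = γ then (Nat.multinomial Finset.univ κ : ℝ) else 0 := by
    intro κ _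
    have h2 : ∏ i, ((MvPolynomial.X i : MvPolynomial (Fin N) ℝ) ^ r) ^ κ i =
        MvPolynomial.monomial (vec fun i => r * κ i) 1 := by
      rw [← E1_prod_pow]
      refine Finset.prod_congr rfl fun i _ => ?_
      rw [pow_mul]
    have h3 : (Nat.multinomial Finset.univ κ : MvPolynomial (Fin N) ℝ) =
        MvPolynomial.C (Nat.multinomial Finset.univ κ : ℝ) := by simp
    rw [h2, h3, MvPolynomial.coeff_C_mul, MvPolynomial.coeff_monomial]
    by_cases h : (fun i => r * κ i) = γ
    · rw [if_pos h, if_pos (by rw [h]), mul_one]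
    · rw [if_neg h, if_neg (fun h' => h (E1_vec_inj h')), mul_zero]
  rw [Finset.sum_congr rfl h1]
  by_cases hd : ∀ i, r ∣ γ i
  · have hsum : ∑ i, γ i / r = k := by
      have h4 : r * ∑ i, γ i / r = r * k := by
        rw [← hγ, Finset.mul_sum]
        exact Finset.sum_congr rfl fun i _ => Nat.mul_div_cancel' (hd i)
      exact Nat.eq_of_mul_eq_mul_left (by omega) h4
    rw [Finset.sum_eq_single (fun i => γ i / r)]
    · rw [if_pos (funext fun i => Nat.mul_div_cancel' (hd i))]
      have h5 := Nat.multinomial_spec (Finset.univ : Finset (Fin N)) (fun i => γ i / r)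
      rw [hsum] at h5
      have h6 : (k.factorial : ℝ) = (∏ i : Fin N, ((γ i / r).factorial : ℝ)) *
          (Nat.multinomial Finset.univ (fun i => γ i / r) : ℝ) := by
        rw [← h5]
        push_cast
        rfl
      have h7 : ∏ i : Fin N, (if r ∣ γ i then 1 / ((γ i / r).factorial : ℝ) else 0) =
          (∏ i : Fin N, ((γ i / r).factorial : ℝ))⁻¹ := by
        rw [← Finset.prod_inv_distrib]
        refine Finset.prod_congr rfl fun i _ => ?_
        rw [if_pos (hd i), one_div]
      have h8 : (∏ i : Fin N, ((γ i / r).factorial : ℝ)) ≠ 0 :=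
        Finset.prod_ne_zero_iff.2 fun i _ => by positivity
      rw [h7, h6]
      field_simp
    · intro κ _ hκ
      rw [if_neg]
      intro h
      apply hκ
      funext i
      have h9 : r * κ i = γ i := congrFun h i
      rw [← h9, Nat.mul_div_cancel_left _ (by omega)]
    · intro h
      exfalso
      apply h
      rw [Finset.mem_piAntidiag]
      exact ⟨hsum, fun i _ => Finset.mem_univ i⟩
  · push Not at hd
    obtain ⟨i, hi⟩ := hd
    rw [Finset.prod_eq_zero (Finset.mem_univ i) (if_neg hi), mul_zero]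
    refine Finset.sum_eq_zero fun κ _ => ?_
    rw [if_neg]
    intro h
    exact hi ⟨κ i, (congrFun h i).symm⟩

/-- `hall_schur`, `ev (X (r-1)) = ∑ X_b^r`, `alt ρ = ∑_σ sign σ ∏_i X_i^{ρ(σ i)}` (`Matrix.det_apply'`);
the coefficient of `x^β` in `P * ∏_i X_i^{ρ(σ i)}` is that of `x^{β - ρ∘σ}` in `P` (or `0` if some
`ρ(σ i) > β_i`); `coeff_psum_pow`, as `∑ (β_i - ρ(σ i)) = lam.card = r k`. -/
theorem hall_pow_det {r k N : ℕ} (hr : 1 ≤ r) (lam : YoungDiagram) (hc : lam.card = r * k)
    (hN : lam.colLen 0 ≤ N) :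
    hall ((MvPolynomial.X (r - 1) : Sym ℝ) ^ k) (schur ℝ lam) = (k.factorial : ℝ) *
      Matrix.det (Matrix.of fun i j : Fin N => uu r (lam.rowLen i + rho N i) (rho N j)) := by
  classical
  rw [hall_schur _ lam hN]
  have hev : ev ℝ N ((MvPolynomial.X (r - 1) : Sym ℝ) ^ k) =
      (∑ b : Fin N, (MvPolynomial.X b : MvPolynomial (Fin N) ℝ) ^ r) ^ k := by
    rw [map_pow]
    congr 1
    unfold ev
    rw [MvPolynomial.aeval_X, Nat.sub_add_cancel hr]
  rw [hev, ← Matrix.det_transpose, Matrix.det_apply', Finset.mul_sum]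
  unfold alt
  rw [Matrix.det_apply', Finset.mul_sum, MvPolynomial.coeff_sum]
  refine Finset.sum_congr rfl fun σ _ => ?_
  have e0 : ∏ i : Fin N, (Matrix.of fun i j : Fin N =>
      (MvPolynomial.X j : MvPolynomial (Fin N) ℝ) ^ rho N i) (σ i) i =
      MvPolynomial.monomial (vec fun j => rho N (σ j)) 1 := by
    rw [← E1_prod_pow]
    rfl
  have e1 : ((((Equiv.Perm.sign σ : ℤˣ) : ℤ) : MvPolynomial (Fin N) ℝ)) =
      MvPolynomial.C (((Equiv.Perm.sign σ : ℤˣ) : ℤ) : ℝ) := by simp
  rw [e0, e1]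
  have e2 : ∀ P : MvPolynomial (Fin N) ℝ, P * (MvPolynomial.C (((Equiv.Perm.sign σ : ℤˣ) : ℤ) : ℝ) *
      MvPolynomial.monomial (vec fun j => rho N (σ j)) 1) =
      MvPolynomial.C (((Equiv.Perm.sign σ : ℤˣ) : ℤ) : ℝ) *
      (P * MvPolynomial.monomial (vec fun j => rho N (σ j)) 1) := fun P => by ring
  rw [e2, MvPolynomial.coeff_C_mul, MvPolynomial.coeff_mul_monomial', ← mul_assoc,
    mul_comm (k.factorial : ℝ), mul_assoc]
  congr 1
  have e3 : ∏ i : Fin N, (Matrix.of fun i j : Fin N =>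
      uu r (lam.rowLen i + rho N i) (rho N j)).transpose (σ i) i =
      ∏ i : Fin N, uu r (lam.rowLen i + rho N i) (rho N (σ i)) := rfl
  rw [e3]
  by_cases hle : ∀ i : Fin N, rho N (σ i) ≤ lam.rowLen i + rho N i
  · rw [if_pos (by intro i; exact hle i), mul_one]
    have e4 : (vec fun i : Fin N => lam.rowLen i + rho N i) - (vec fun j => rho N (σ j)) =
        vec fun i : Fin N => lam.rowLen i + rho N i - rho N (σ i) := by
      ext i
      rfl
    rw [e4, coeff_psum_pow hr]
    · congr 1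
      refine Finset.prod_congr rfl fun i _ => ?_
      unfold uu
      by_cases h : r ∣ lam.rowLen i + rho N i - rho N (σ i)
      · rw [if_pos h, if_pos ⟨hle i, h⟩]
      · rw [if_neg h, if_neg (fun h' => h h'.2)]
    · have s1 : ∑ i : Fin N, (lam.rowLen i + rho N i - rho N (σ i)) + ∑ i : Fin N, rho N (σ i) =
          ∑ i : Fin N, lam.rowLen i + ∑ i : Fin N, rho N i := by
        rw [← Finset.sum_add_distrib, ← Finset.sum_add_distrib]
        exact Finset.sum_congr rfl fun i _ => Nat.sub_add_cancel (hle i)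
      rw [Equiv.sum_comp σ (fun i => rho N i)] at s1
      have s2 : ∑ i : Fin N, lam.rowLen i = lam.card := by
        rw [Fin.sum_univ_eq_sum_range (fun i => lam.rowLen i) N]
        exact sum_rowLen lam hN
      rw [← hc, ← s2]
      omega
  · rw [if_neg (by
      intro h
      exact hle fun i => h i)]
    push Not at hle
    obtain ⟨i, hi⟩ := hle
    rw [Finset.prod_eq_zero (Finset.mem_univ i) (by
      unfold uu
      rw [if_neg]
      rintro ⟨h, _⟩
      omega), mul_zero]

end MPbcd198.C
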