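import Pool.Agent.Lib.MP_bcd198_co.C.Defs

/-!
# MP_bcd198_co, C/E2: the determinant `det(1/(b_i - j)!)`
-/

set_option autoImplicit false

namespace MPbcd198.C

open Equiv Pool.Agent.Lib.MP_463376_co Pool.Agent.Lib.MP_463376_co.Hs

/-- the two halves of the off diagonal product of a symmetric function agree -/
private theorem E2_half {M : ℕ} (b : Fin M → ℕ) (hb : Function.Injective b)
    (f : Fin M → Fin M → ℝ) (hf : ∀ i j, f i j = f j i) :
    ∏ i : Fin M, ∏ j ∈ Finset.univ.filter (fun j : Fin M => b i < b j), f i j =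
      ∏ i : Fin M, ∏ j ∈ Finset.univ.filter (fun j : Fin M => i < j), f i j := by
  have h1 : ∀ r : Fin M → Fin M → Prop, ∀ _ : (∀ i j, Decidable (r i j)),
      ∏ i : Fin M, ∏ j ∈ Finset.univ.filter (fun j : Fin M => r i j), f i j =
      ∏ q ∈ (Finset.univ : Finset (Fin M × Fin M)).filter (fun q => r q.1 q.2), f q.1 q.2 := by
    intro r _
    rw [Finset.prod_filter, Fintype.prod_prod_type]
    refine Finset.prod_congr rfl fun i _ => ?_
    rw [Finset.prod_filter]
  rw [h1 (fun i j => b i < b j) inferInstance, h1 (fun i j => i < j) inferInstance]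
  refine Finset.prod_bij' (fun q _ => if q.1 < q.2 then q else q.swap)
    (fun q _ => if b q.1 < b q.2 then q else q.swap) ?_ ?_ ?_ ?_ ?_
  · rintro ⟨i, j⟩ h
    rw [Finset.mem_filter] at h ⊢
    refine ⟨Finset.mem_univ _, ?_⟩
    simp only
    split_ifs with h2
    · exact h2
    · have hne : i ≠ j := fun h3 => (lt_irrefl _ (h3 ▸ h.2))
      exact lt_of_le_of_ne (not_lt.1 h2) hne.symm
  · rintro ⟨i, j⟩ h
    rw [Finset.mem_filter] at h ⊢
    refine ⟨Finset.mem_univ _, ?_⟩
    simp only
    split_ifs with h2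
    · exact h2
    · have hne : i ≠ j := fun h3 => (lt_irrefl _ (h3 ▸ h.2))
      exact lt_of_le_of_ne (not_lt.1 h2) fun h3 => hne (hb h3).symm
  · rintro ⟨i, j⟩ h
    rw [Finset.mem_filter] at h
    have h' : b i < b j := h.2
    simp only
    by_cases h2 : i < j
    · rw [if_pos h2]
      exact if_pos h'
    · rw [if_neg h2]
      exact (if_neg (not_lt.2 h'.le)).trans rfl
  · rintro ⟨i, j⟩ h
    rw [Finset.mem_filter] at h
    have h' : i < j := h.2
    simp only
    by_cases h2 : b i < b j
    · rw [if_pos h2]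
      exact if_pos h'
    · rw [if_neg h2]
      exact (if_neg (not_lt.2 h'.le)).trans rfl
  · rintro ⟨i, j⟩ h
    simp only
    split_ifs with h2
    · rfl
    · exact hf _ _

/-- `VV` of the image of an injective function -/
theorem VV_image {M : ℕ} (b : Fin M → ℕ) (hb : Function.Injective b) :
    VV (Finset.univ.image b) =
      |∏ i : Fin M, ∏ j ∈ Finset.univ.filter (fun j : Fin M => i < j), ((b j : ℝ) - b i)| := by
  rw [Finset.abs_prod]
  have h0 : ∀ i : Fin M, |∏ j ∈ Finset.univ.filter (fun j : Fin M => i < j), ((b j : ℝ) - b i)| =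
      ∏ j ∈ Finset.univ.filter (fun j : Fin M => i < j), |(b j : ℝ) - b i| :=
    fun i => Finset.abs_prod _ _
  simp only [h0]
  rw [← E2_half b hb (fun i j => |(b j : ℝ) - b i|) (fun i j => abs_sub_comm _ _)]
  unfold VV
  rw [Finset.prod_image hb.injOn]
  refine Finset.prod_congr rfl fun i _ => ?_
  rw [Finset.filter_image, Finset.prod_image hb.injOn]
  refine Finset.prod_congr rfl fun j hj => ?_
  have h1 : b i < b j := (Finset.mem_filter.1 hj).2
  have h2 : (b i : ℝ) < b j := by exact_mod_cast h1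
  rw [abs_of_pos (sub_pos.2 h2)]

private theorem E2_uu (a j : ℕ) :
    uu 1 a j = 1 / (a.factorial : ℝ) * (descPochhammer ℝ j).eval (a : ℝ) := by
  rw [descPochhammer_eval_eq_descFactorial]
  unfold uu
  by_cases h : j ≤ a
  · rw [if_pos ⟨h, one_dvd _⟩, Nat.div_one]
    have h1 := Nat.factorial_mul_descFactorial h
    have h2 : ((a - j).factorial : ℝ) * (a.descFactorial j : ℝ) = a.factorial := by exact_mod_cast h1
    have h3 : ((a - j).factorial : ℝ) ≠ 0 := by exact_mod_cast (Nat.factorial_pos _).ne'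
    have h4 : (a.factorial : ℝ) ≠ 0 := by exact_mod_cast (Nat.factorial_pos _).ne'
    field_simp
    linarith
  · rw [if_neg fun h' => h h'.1, Nat.descFactorial_eq_zero_iff_lt.2 (not_le.1 h), Nat.cast_zero, mul_zero]

/-- `1/(b-j)! = b(b-1)⋯(b-j+1)/b!` (also `0 = 0` for `j > b`); factor `1/b_i!` out of row `i`; the
remaining matrix `descPochhammer j (b_i)` has the Vandermonde determinant
(`Matrix.det_eval_matrixOfPolynomials_eq_det_vandermonde`, `Matrix.det_vandermonde`); `VV_image`. -/
theorem det_factorial {M : ℕ} (b : Fin M → ℕ) (hb : Function.Injective b) :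
    |Matrix.det (Matrix.of fun i j : Fin M => uu 1 (b i) (j : ℕ))| =
      FF (Finset.univ.image b) := by
  have h1 : (Matrix.of fun i j : Fin M => uu 1 (b i) (j : ℕ)) =
      Matrix.of fun i j : Fin M => (1 / ((b i).factorial : ℝ)) *
        (Matrix.of fun i j : Fin M => (descPochhammer ℝ (j : ℕ)).eval (b i : ℝ)) i j := by
    ext i j
    exact E2_uu _ _
  have h2 := Matrix.det_mul_column (fun i : Fin M => 1 / ((b i).factorial : ℝ))
    (Matrix.of fun i j : Fin M => (descPochhammer ℝ (j : ℕ)).eval (b i : ℝ))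
  have h3 := Matrix.det_eval_matrixOfPolynomials_eq_det_vandermonde (fun i : Fin M => (b i : ℝ))
    (fun j : Fin M => descPochhammer ℝ (j : ℕ)) (fun j => descPochhammer_natDegree _ _)
    (fun j => monic_descPochhammer _ _)
  have h4 := Matrix.det_vandermonde (fun i : Fin M => (b i : ℝ))
  rw [h1, h2, ← h3, h4, abs_mul]
  unfold FF
  rw [VV_image b hb, Finset.prod_image hb.injOn]
  have h5 : ∀ i : Fin M, Finset.Ioi i = Finset.univ.filter (fun j : Fin M => i < j) := by
    intro i
    ext j
    simp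
  simp only [h5]
  rw [mul_comm, div_eq_mul_inv]
  congr 1
  have h6 : 0 < ∏ i : Fin M, 1 / ((b i).factorial : ℝ) :=
    Finset.prod_pos fun i _ => one_div_pos.2 (by exact_mod_cast Nat.factorial_pos _)
  rw [abs_of_pos h6, ← Finset.prod_inv_distrib]
  exact Finset.prod_congr rfl fun i _ => one_div _

/-- the same with the columns in the order of `rho` -/
theorem det_factorial_rho {M : ℕ} (b : Fin M → ℕ) (hb : Function.Injective b) :
    |Matrix.det (Matrix.of fun i j : Fin M => uu 1 (b i) (rho M j))| =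
      FF (Finset.univ.image b) := by
  rw [← det_factorial b hb,
    ← Matrix.abs_det_submatrix_equiv_equiv (Equiv.refl (Fin M)) (Fin.revPerm)
      (Matrix.of fun i j : Fin M => uu 1 (b i) (j : ℕ))]
  congr 2
  ext i j
  show uu 1 (b i) (rho M j) = uu 1 (b i) ((Fin.rev j : Fin M) : ℕ)
  congr 1
  rw [Fin.val_rev]
  unfold rho
  omega

theorem FF_pos (B : Finset ℕ) : 0 < FF B := by
  unfold FF VV
  refine div_pos (Finset.prod_pos fun x _ => Finset.prod_pos fun y hy => ?_)
    (Finset.prod_pos fun x _ => by exact_mod_cast Nat.factorial_pos _)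
  have h1 : x < y := (Finset.mem_filter.1 hy).2
  have h2 : (x : ℝ) < y := by exact_mod_cast h1
  exact sub_pos.2 h2

end MPbcd198.C
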