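import Pool.Agent.Lib.MP_bcd198_co.C.E2

/-!
# MP_bcd198_co, C/E3: splitting the determinant into residue classes
-/

set_option autoImplicit false

namespace MPbcd198.C

open Equiv Pool.Agent.Lib.MP_463376_co Pool.Agent.Lib.MP_463376_co.Hs

/-- `uu r a b = 0` unless `a ≡ b mod r` -/
theorem uu_eq_zero {r a b : ℕ} (h : a % r ≠ b % r) : uu r a b = 0 := by
  unfold uu
  rw [if_neg]
  rintro ⟨h1, h2⟩
  exact h ((Nat.modEq_iff_dvd' h1).2 h2).symm

/-- `uu r a b = uu 1 (a/r) (b/r)` if `a ≡ b mod r` -/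
theorem uu_eq {r a b : ℕ} (hr : 1 ≤ r) (h : a % r = b % r) : uu r a b = uu 1 (a / r) (b / r) := by
  obtain ⟨x, hx⟩ : ∃ x, x = a / r := ⟨_, rfl⟩
  obtain ⟨y, hy⟩ : ∃ y, y = b / r := ⟨_, rfl⟩
  obtain ⟨c, hc⟩ : ∃ c, c = b % r := ⟨_, rfl⟩
  have ha : a = r * x + c := by
    rw [hx, hc, ← h]
    exact (Nat.div_add_mod a r).symm
  have hb : b = r * y + c := by
    rw [hy, hc]
    exact (Nat.div_add_mod b r).symm
  rw [← hx, ← hy]
  unfold uu
  rcases le_or_gt y x with hyx | hyx
  · have h1 : a - b = r * (x - y) := by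
      rw [ha, hb, Nat.add_sub_add_right, Nat.mul_sub]
    have h2 : b ≤ a := by
      rw [ha, hb]
      exact Nat.add_le_add_right (Nat.mul_le_mul_left r hyx) c
    rw [if_pos ⟨h2, by rw [h1]; exact Dvd.intro _ rfl⟩, if_pos ⟨hyx, one_dvd _⟩, h1,
      Nat.mul_div_cancel_left _ hr, Nat.div_one]
  · have h2 : a < b := by
      rw [ha, hb]
      exact Nat.add_lt_add_right (Nat.mul_lt_mul_of_pos_left hyx hr) c
    rw [if_neg (fun h3 => absurd h3.1 (not_le.2 h2)), if_neg (fun h3 => absurd h3.1 (not_le.2 hyx))]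

private lemma E3_cls_card (r c : ℕ) (B : Finset ℕ) :
    (cls r c B).card = (B.filter fun x => x % r = c).card := by
  unfold cls
  apply Finset.card_image_of_injOn
  intro x hx y hy hxy
  have h1 : x % r = c := (Finset.mem_filter.1 hx).2
  have h2 : y % r = c := (Finset.mem_filter.1 hy).2
  have h3 : x / r = y / r := hxy
  rw [← Nat.div_add_mod x r, ← Nat.div_add_mod y r, h1, h2, h3]

theorem card_cls_sum {r : ℕ} (hr : 1 ≤ r) (B : Finset ℕ) :
    ∑ c ∈ Finset.range r, (cls r c B).card = B.card := by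
  rw [Finset.card_eq_sum_card_fiberwise (f := fun x => x % r) (t := Finset.range r)]
  · exact Finset.sum_congr rfl fun c _ => E3_cls_card r c B
  · intro x _
    exact Finset.mem_coe.2 (Finset.mem_range.2 (Nat.mod_lt x hr))

private lemma E3_cls_image {r c N : ℕ} (b : Fin N → ℕ) (hb : Function.Injective b) :
    (cls r c (Finset.univ.image b)).card =
      (Finset.univ.filter fun i : Fin N => b i % r = c).card := by
  rw [E3_cls_card, Finset.filter_image, Finset.card_image_of_injective _ hb]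

private lemma E3_rho_rev {N : ℕ} (j : Fin N) : rho N (Fin.rev j) = j := by
  unfold rho
  rw [Fin.val_rev]
  omega

private lemma E3_card_rho {r N c : ℕ} (hr : 1 ≤ r) (hN : r ∣ N) (hc : c < r) :
    (Finset.univ.filter fun i : Fin N => rho N i % r = c).card = N / r := by
  have h1 : (Finset.univ.filter fun i : Fin N => rho N i % r = c).card =
      (Finset.univ.filter fun i : Fin N => (i : ℕ) % r = c).card := by
    apply Finset.card_bij (fun i _ => Fin.rev i)
    · intro i hi
      rw [Finset.mem_filter] at hi ⊢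
      refine ⟨Finset.mem_univ _, ?_⟩
      rw [← hi.2, ← E3_rho_rev (Fin.rev i), Fin.rev_rev]
    · intro i _ j _ h
      exact Fin.rev_injective h
    · intro j hj
      refine ⟨Fin.rev j, ?_, Fin.rev_rev j⟩
      rw [Finset.mem_filter] at hj ⊢
      refine ⟨Finset.mem_univ _, ?_⟩
      rw [E3_rho_rev]
      exact hj.2
  rw [h1]
  obtain ⟨M, rfl⟩ := hN
  rw [Nat.mul_div_cancel_left _ hr]
  have h2 : (Finset.univ.filter fun i : Fin (r * M) => (i : ℕ) % r = c).card =
      (Finset.univ : Finset (Fin M)).card := by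
    symm
    have hlt : ∀ y : Fin M, r * (y : ℕ) + c < r * M := by
      intro y
      calc r * (y : ℕ) + c < r * (y : ℕ) + r := Nat.add_lt_add_left hc _
        _ = r * ((y : ℕ) + 1) := by ring
        _ ≤ r * M := Nat.mul_le_mul_left r y.2
    apply Finset.card_bij (fun (y : Fin M) _ => (⟨r * (y : ℕ) + c, hlt y⟩ : Fin (r * M)))
    · intro y _
      rw [Finset.mem_filter]
      refine ⟨Finset.mem_univ _, ?_⟩
      show (r * (y : ℕ) + c) % r = c
      rw [Nat.mul_add_mod, Nat.mod_eq_of_lt hc]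
    · intro y _ z _ h
      have h3 : r * (y : ℕ) + c = r * (z : ℕ) + c := congrArg Fin.val h
      apply Fin.ext
      exact Nat.eq_of_mul_eq_mul_left hr (Nat.add_right_cancel h3)
    · intro i hi
      rw [Finset.mem_filter] at hi
      have h3 : (i : ℕ) / r < M := Nat.div_lt_of_lt_mul i.2
      refine ⟨⟨(i : ℕ) / r, h3⟩, Finset.mem_univ _, ?_⟩
      apply Fin.ext
      show r * ((i : ℕ) / r) + c = i
      rw [← hi.2]
      exact Nat.div_add_mod _ _
  rw [h2, Finset.card_univ, Fintype.card_fin]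

/-- if the determinant is not zero some permutation `σ` has `b_i ≡ rho (σ i)` for all `i`, and the
numbers `rho N j`, `j < N`, are `0, …, N-1` with `N/r` in each class -/
theorem det_eq_zero {r N : ℕ} (hr : 1 ≤ r) (hN : r ∣ N) (b : Fin N → ℕ)
    (hb : Function.Injective b)
    (h : ∃ c < r, (cls r c (Finset.univ.image b)).card ≠ N / r) :
    Matrix.det (Matrix.of fun i j : Fin N => uu r (b i) (rho N j)) = 0 := by
  obtain ⟨c, hc, hne⟩ := h
  rw [Matrix.det_apply]
  apply Finset.sum_eq_zero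
  intro σ _
  by_cases hex : ∃ i, b (σ i) % r ≠ rho N i % r
  · obtain ⟨i, hi⟩ := hex
    have h1 : ∏ i : Fin N, (Matrix.of fun i j : Fin N => uu r (b i) (rho N j)) (σ i) i = 0 :=
      Finset.prod_eq_zero (Finset.mem_univ i) (uu_eq_zero hi)
    rw [h1, smul_zero]
  · exfalso
    push Not at hex
    apply hne
    rw [E3_cls_image b hb, ← E3_card_rho hr hN hc]
    symm
    apply Finset.card_bij (fun i _ => σ i)
    · intro i hi
      rw [Finset.mem_filter] at hi ⊢
      exact ⟨Finset.mem_univ _, by rw [hex i]; exact hi.2⟩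
    · intro i _ j _ hij
      exact σ.injective hij
    · intro j hj
      rw [Finset.mem_filter] at hj
      refine ⟨σ.symm j, ?_, σ.apply_symm_apply j⟩
      rw [Finset.mem_filter]
      refine ⟨Finset.mem_univ _, ?_⟩
      rw [← hex, σ.apply_symm_apply]
      exact hj.2

private lemma E3_equiv {M r N : ℕ} (f : Fin N → Fin r)
    (h : ∀ c, (Finset.univ.filter fun i => f i = c).card = M) :
    ∃ e : Fin M × Fin r ≃ Fin N, ∀ p, f (e p) = p.2 := by
  have h1 : ∀ c : Fin r, Nonempty (Fin M ≃ {i : Fin N // f i = c}) := by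
    intro c
    refine ⟨(Fintype.equivFinOfCardEq ?_).symm⟩
    rw [Fintype.card_subtype]
    exact h c
  have e0 : ∀ c : Fin r, Fin M ≃ {i : Fin N // f i = c} := fun c => (h1 c).some
  refine ⟨(Equiv.prodComm _ _).trans ((Equiv.sigmaEquivProd (Fin r) (Fin M)).symm.trans
    ((Equiv.sigmaCongrRight e0).trans (Equiv.sigmaFiberEquiv f))), ?_⟩
  rintro ⟨m, c⟩
  exact (e0 c m).2

private lemma E3_equiv_rho {r M N : ℕ} (hN : N = M * r) :
    ∃ e : Fin M × Fin r ≃ Fin N, ∀ p, rho N (e p) = p.2 + r * p.1 := by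
  refine ⟨finProdFinEquiv.trans ((finCongr hN.symm).trans Fin.revPerm), ?_⟩
  rintro ⟨m, c⟩
  show rho N (Fin.rev (finCongr hN.symm (finProdFinEquiv (m, c)))) = _
  rw [E3_rho_rev]
  rfl

/-- choose bijections `Fin (N/r) × Fin r ≃ Fin N` of the rows and of the columns such that the
second coordinate is the residue (`b i % r`, `rho N j % r`) and for the columns the first coordinate
is `rho N j / r`; `Matrix.abs_det_submatrix_equiv_equiv`, `Matrix.det_blockDiagonal`,
`uu_eq_zero`, `uu_eq`, `det_factorial`. -/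
theorem det_classes {r N : ℕ} (hr : 1 ≤ r) (hN : r ∣ N) (b : Fin N → ℕ)
    (hb : Function.Injective b)
    (h : ∀ c < r, (cls r c (Finset.univ.image b)).card = N / r) :
    |Matrix.det (Matrix.of fun i j : Fin N => uu r (b i) (rho N j))| =
      ∏ c ∈ Finset.range r, FF (cls r c (Finset.univ.image b)) := by
  have hNM : N = N / r * r := (Nat.div_mul_cancel hN).symm
  obtain ⟨eC, heC⟩ := E3_equiv_rho hNM
  obtain ⟨eR, heR⟩ := E3_equiv (M := N / r) (fun i : Fin N => (⟨b i % r, Nat.mod_lt _ hr⟩ : Fin r))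
    (by
      intro c
      rw [← h c c.2, E3_cls_image b hb]
      congr 1
      ext i
      simp only [Finset.mem_filter, Finset.mem_univ, true_and, Fin.ext_iff])
  have heR' : ∀ p, b (eR p) % r = p.2 := fun p => congrArg Fin.val (heR p)
  rw [← Matrix.abs_det_submatrix_equiv_equiv eR eC]
  have hblock : (Matrix.of fun i j : Fin N => uu r (b i) (rho N j)).submatrix eR eC =
      Matrix.blockDiagonal (fun c : Fin r => Matrix.of fun m m' : Fin (N / r) =>
        uu 1 (b (eR (m, c)) / r) (m' : ℕ)) := by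
    ext ⟨m, c⟩ ⟨m', c'⟩
    rw [Matrix.submatrix_apply, Matrix.of_apply, Matrix.blockDiagonal_apply, heC]
    by_cases hcc : c = c'
    · subst hcc
      rw [if_pos rfl, Matrix.of_apply]
      have h1 : ((c : ℕ) + r * (m' : ℕ)) % r = c := by
        rw [Nat.add_mul_mod_self_left, Nat.mod_eq_of_lt c.2]
      rw [uu_eq hr (by rw [heR', h1])]
      congr 1
      rw [Nat.add_mul_div_left _ _ hr, Nat.div_eq_of_lt c.2, zero_add]
    · rw [if_neg hcc]
      apply uu_eq_zero
      rw [heR', Nat.add_mul_mod_self_left, Nat.mod_eq_of_lt c'.2]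
      exact fun h1 => hcc (Fin.ext h1)
  rw [hblock, Matrix.det_blockDiagonal, Finset.abs_prod, Finset.prod_range]
  refine Finset.prod_congr rfl fun c _ => ?_
  have hinj : Function.Injective fun m : Fin (N / r) => b (eR (m, c)) / r := by
    intro m m' hm
    have h1 : b (eR (m, c)) = b (eR (m', c)) := by
      have h2 : b (eR (m, c)) / r = b (eR (m', c)) / r := hm
      rw [← Nat.div_add_mod (b (eR (m, c))) r, ← Nat.div_add_mod (b (eR (m', c))) r, h2, heR',
        heR']
    exact congrArg Prod.fst (eR.injective (hb h1))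
  rw [det_factorial (fun m : Fin (N / r) => b (eR (m, c)) / r) hinj]
  congr 1
  ext y
  unfold cls
  simp only [Finset.mem_image, Finset.mem_filter, Finset.mem_univ, true_and]
  constructor
  · rintro ⟨m, rfl⟩
    exact ⟨b (eR (m, c)), ⟨⟨_, rfl⟩, heR' _⟩, rfl⟩
  · rintro ⟨x, ⟨⟨i, rfl⟩, hx⟩, rfl⟩
    have h1 : eR ((eR.symm i).1, c) = i := by
      have h2 := heR' (eR.symm i)
      rw [eR.apply_symm_apply, hx] at h2
      have h3 : (eR.symm i) = ((eR.symm i).1, c) := Prod.ext rfl (Fin.ext h2.symm)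
      rw [← h3, eR.apply_symm_apply]
    exact ⟨(eR.symm i).1, by rw [h1]⟩

end MPbcd198.C
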