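import Pool.Agent.Lib.MP_bcd198_co.C.E1
import Pool.Agent.Lib.MP_bcd198_co.C.E3
import Pool.Agent.Lib.MP_bcd198_co.C.B1

/-!
# MP_bcd198_co, C/E4: degree and character values
-/

set_option autoImplicit false

namespace MPbcd198.C

open Equiv Pool.Agent.Lib.MP_463376_co Pool.Agent.Lib.MP_463376_co.Hs

private theorem E4_mem_cycleType {ι : Type} [Fintype ι] [DecidableEq ι] {r : ℕ} (w : Perm ι)
    (h : ∀ x, Function.minimalPeriod (⇑w) x = r) {m : ℕ} (hm : m ∈ w.cycleType) : m = r := by
  rw [Perm.mem_cycleType_iff] at hm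
  obtain ⟨c, τ, hw, hdis, hcyc, hcard⟩ := hm
  obtain ⟨x, hx, -⟩ := id hcyc
  have hτx : τ x = x := (hdis x).resolve_left hx
  have hτn : ∀ n : ℕ, (τ ^ n) x = x := fun n => Perm.pow_apply_eq_self_of_apply_eq_self hτx n
  have hwn : ∀ n : ℕ, (w ^ n) x = (c ^ n) x := by
    intro n
    rw [hw, hdis.commute.mul_pow, Perm.mul_apply, hτn]
  have hiff : ∀ n : ℕ, r ∣ n ↔ m ∣ n := by
    intro n
    have h1 : r ∣ n ↔ (w ^ n) x = x := by
      rw [← h x, ← Function.isPeriodicPt_iff_minimalPeriod_dvd, Function.IsPeriodicPt,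
        Function.IsFixedPt, Perm.iterate_eq_pow]
    have h2 : m ∣ n ↔ (c ^ n) x = x := by
      rw [← hcard, ← hcyc.orderOf, orderOf_dvd_iff_pow_eq_one, hcyc.pow_eq_one_iff' hx]
    rw [h1, h2, hwn]
  exact Nat.dvd_antisymm ((hiff r).1 dvd_rfl) ((hiff m).2 dvd_rfl)

/-- all cycles of `w` have length `r`: `w.partition.parts = replicate k r` -/
theorem pcyc_rect (K : Type) [Field K] {ι : Type} [Fintype ι] [DecidableEq ι] {r k : ℕ}
    (hr : 1 ≤ r) (w : Perm ι) (h : ∀ x, Function.minimalPeriod (⇑w) x = r)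
    (hc : Fintype.card ι = r * k) : pcyc K w = MvPolynomial.X (r - 1) ^ k := by
  have hall : ∀ m ∈ w.partition.parts, m = r := by
    intro m hm
    rw [Perm.parts_partition, Multiset.mem_add] at hm
    rcases hm with hm | hm
    · exact E4_mem_cycleType w h hm
    · obtain ⟨h0, h1⟩ := Multiset.mem_replicate.1 hm
      have h2 : w.support.card < Fintype.card ι := by omega
      obtain ⟨x, hx⟩ : ∃ x, x ∉ w.support := by
        by_contra hne
        push Not at hne
        have h3 : w.support = Finset.univ := Finset.eq_univ_iff_forall.2 hne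
        rw [h3, Finset.card_univ] at h2
        exact lt_irrefl _ h2
      rw [Perm.notMem_support] at hx
      have h4 : Function.minimalPeriod (⇑w) x = 1 :=
        Function.minimalPeriod_eq_one_iff_isFixedPt.2 hx
      rw [h1, ← h x, h4]
  have hrep : w.partition.parts = Multiset.replicate (Multiset.card w.partition.parts) r :=
    Multiset.eq_replicate_card.2 hall
  have hsum := w.partition.parts_sum
  rw [hrep, Multiset.sum_replicate, smul_eq_mul] at hsum
  have hk : Multiset.card w.partition.parts = k :=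
    Nat.eq_of_mul_eq_mul_left hr ((mul_comm _ _).trans (hsum.trans hc))
  unfold pcyc
  rw [hrep, hk, Multiset.map_replicate, Multiset.prod_replicate]

private theorem E4_anti (N : ℕ) (lam : YoungDiagram) :
    StrictAnti fun i : Fin N => lam.rowLen i + rho N i := by
  intro i j hij
  have h1 : (i : ℕ) < j := hij
  have h2 := lam.rowLen_anti i j h1.le
  have h3 := j.2
  show lam.rowLen j + rho N j < lam.rowLen i + rho N i
  unfold rho
  omega

/-- `i ↦ rowLen i + rho N i` is injective (strictly decreasing) -/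
theorem bset_inj (N : ℕ) (lam : YoungDiagram) :
    Function.Injective fun i : Fin N => lam.rowLen i + rho N i :=
  (E4_anti N lam).injective

theorem card_bset (N : ℕ) (lam : YoungDiagram) : (bset N lam).card = N := by
  unfold bset
  rw [Finset.card_image_of_injective _ (bset_inj N lam), Finset.card_univ, Fintype.card_fin]

/-- `hall_pow_det` with `r = 1`, `det_factorial_rho`; the sign: `fd lam > 0` is not needed, both sides
are compared up to sign and `fd` is non negative (`0 ≤ fd lam` is a hypothesis) -/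
theorem fd_eq {N : ℕ} (lam : YoungDiagram) (hN : lam.colLen 0 ≤ N) (h0 : 0 ≤ fd lam) :
    fd lam = (lam.card.factorial : ℝ) * FF (bset N lam) := by
  have h1 := hall_pow_det (r := 1) (k := lam.card) (N := N) le_rfl lam (by rw [one_mul]) hN
  have h2 : fd lam = (lam.card.factorial : ℝ) *
      Matrix.det (Matrix.of fun i j : Fin N => uu 1 (lam.rowLen i + rho N i) (rho N j)) := h1
  have h3 := det_factorial_rho (fun i : Fin N => lam.rowLen i + rho N i) (bset_inj N lam)
  calc fd lam = |fd lam| := (abs_of_nonneg h0).symm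
    _ = |(lam.card.factorial : ℝ)| *
        |Matrix.det (Matrix.of fun i j : Fin N => uu 1 (lam.rowLen i + rho N i) (rho N j))| := by
        rw [h2, abs_mul]
    _ = (lam.card.factorial : ℝ) * FF (bset N lam) := by
        rw [h3, abs_of_nonneg (Nat.cast_nonneg _)]
        rfl

private theorem E4_ch {ι : Type} [Fintype ι] [DecidableEq ι] {r k N : ℕ} (hr : 1 ≤ r)
    (w : Perm ι) (h : ∀ x, Function.minimalPeriod (⇑w) x = r) (hc : Fintype.card ι = r * k)
    (lam : YoungDiagram) (hl : lam.card = Fintype.card ι) (hN : lam.colLen 0 ≤ N) :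
    ch ℝ lam w = (k.factorial : ℝ) *
      Matrix.det (Matrix.of fun i j : Fin N => uu r (lam.rowLen i + rho N i) (rho N j)) := by
  unfold ch
  rw [pcyc_rect ℝ hr w h hc, hall_pow_det hr lam (hl.trans hc) hN]

theorem abs_ch_rect {ι : Type} [Fintype ι] [DecidableEq ι] {r k N : ℕ} (hr : 1 ≤ r)
    (w : Perm ι) (h : ∀ x, Function.minimalPeriod (⇑w) x = r) (hc : Fintype.card ι = r * k)
    (lam : YoungDiagram) (hl : lam.card = Fintype.card ι) (hN : lam.colLen 0 ≤ N) (hrN : r ∣ N)
    (hcl : ∀ c < r, (cls r c (bset N lam)).card = N / r) :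
    |ch ℝ lam w| = (k.factorial : ℝ) * ∏ c ∈ Finset.range r, FF (cls r c (bset N lam)) := by
  have h1 := E4_ch hr w h hc lam hl hN
  have h2 := det_classes hr hrN (fun i : Fin N => lam.rowLen i + rho N i) (bset_inj N lam) hcl
  rw [h1, abs_mul, h2, abs_of_nonneg (Nat.cast_nonneg _)]
  rfl

theorem ch_rect_zero {ι : Type} [Fintype ι] [DecidableEq ι] {r k N : ℕ} (hr : 1 ≤ r)
    (w : Perm ι) (h : ∀ x, Function.minimalPeriod (⇑w) x = r) (hc : Fintype.card ι = r * k)
    (lam : YoungDiagram) (hl : lam.card = Fintype.card ι) (hN : lam.colLen 0 ≤ N) (hrN : r ∣ N)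
    (hcl : ∃ c < r, (cls r c (bset N lam)).card ≠ N / r) : ch ℝ lam w = 0 := by
  have h1 := E4_ch hr w h hc lam hl hN
  have h2 := det_eq_zero hr hrN (fun i : Fin N => lam.rowLen i + rho N i) (bset_inj N lam) hcl
  rw [h1, h2, mul_zero]

end MPbcd198.C
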