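import Pool.Agent.Lib.MP_bcd198_co.C.Defs

/-!
# MP_bcd198_co, C/E5: the Cauchy determinant inequality
-/

set_option autoImplicit false

namespace MPbcd198.C

open Equiv

private theorem E5_sub_ne {a b : ℕ} (h : a ≠ b) : ((a : ℝ) - b) ≠ 0 := by
  intro h0
  exact h (by exact_mod_cast (sub_eq_zero.1 h0))

private theorem E5_disj_ne {P H : Finset ℕ} (hd : Disjoint P H) {a b : ℕ} (ha : a ∈ P)
    (hb : b ∈ H) : a ≠ b := by
  rintro rfl
  exact (Finset.disjoint_left.1 hd ha) hb

/-- Lagrange interpolation of `∏_{p' ∈ P \ p} (X - p')` (degree `|P| - 1 < |H|`) at the nodes `H`,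
evaluated at `p` (Mathlib `Lagrange.eq_interpolate`, `Lagrange.interpolate_apply`,
`Lagrange.basis`) -/
theorem lagrange_sum {P H : Finset ℕ} (hd : Disjoint P H) (hc : P.card = H.card) {p : ℕ}
    (hp : p ∈ P) :
    ∑ h ∈ H, (∏ p' ∈ P.erase p, ((h : ℝ) - p') / ((p : ℝ) - p')) *
      ∏ h' ∈ H.erase h, ((p : ℝ) - h') / ((h : ℝ) - h') = 1 := by
  classical
  set f : Polynomial ℝ := ∏ p' ∈ P.erase p, (Polynomial.X - Polynomial.C ((p' : ℕ) : ℝ)) with hf
  have hinj : Set.InjOn (fun x : ℕ => (x : ℝ)) (H : Set ℕ) := by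
    intro a _ b _ hab
    exact Nat.cast_injective hab
  have hdeg : f.degree < (H.card : WithBot ℕ) := by
    have h1 : f.degree = ((P.erase p).card : WithBot ℕ) := by
      rw [hf, Polynomial.degree_prod,
        Finset.sum_congr rfl fun x _ => Polynomial.degree_X_sub_C ((x : ℕ) : ℝ)]
      simp
    rw [h1, Finset.card_erase_of_mem hp, ← hc]
    have : 0 < P.card := Finset.card_pos.2 ⟨p, hp⟩
    exact_mod_cast Nat.sub_lt this Nat.one_pos
  have hint := Lagrange.eq_interpolate (s := H) (v := fun x : ℕ => (x : ℝ)) hinj hdeg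
  have hev := congrArg (Polynomial.eval ((p : ℕ) : ℝ)) hint
  rw [Lagrange.interpolate_apply, Polynomial.eval_finsetSum] at hev
  have hfe : ∀ x : ℝ, Polynomial.eval x f = ∏ p' ∈ P.erase p, (x - ((p' : ℕ) : ℝ)) := by
    intro x
    rw [hf, Polynomial.eval_prod]
    simp
  have hfp : Polynomial.eval ((p : ℕ) : ℝ) f ≠ 0 := by
    rw [hfe, Finset.prod_ne_zero_iff]
    intro a ha
    exact E5_sub_ne (Finset.ne_of_mem_erase ha).symm
  have hterm : ∀ h ∈ H, (∏ p' ∈ P.erase p, ((h : ℝ) - p') / ((p : ℝ) - p')) *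
      ∏ h' ∈ H.erase h, ((p : ℝ) - h') / ((h : ℝ) - h') =
      Polynomial.eval ((p : ℕ) : ℝ) (Polynomial.C (Polynomial.eval ((h : ℕ) : ℝ) f) *
        Lagrange.basis H (fun x : ℕ => (x : ℝ)) h) / Polynomial.eval ((p : ℕ) : ℝ) f := by
    intro h hh
    rw [Finset.prod_div_distrib, ← hfe, ← hfe, Polynomial.eval_mul, Polynomial.eval_C,
      Lagrange.basis, Polynomial.eval_prod (H.erase h)]
    have hb : ∀ h' ∈ H.erase h, Polynomial.eval ((p : ℕ) : ℝ)
        (Lagrange.basisDivisor ((h : ℕ) : ℝ) ((h' : ℕ) : ℝ)) =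
        ((p : ℝ) - h') / ((h : ℝ) - h') := by
      intro h' _
      rw [Lagrange.basisDivisor]
      simp [div_eq_mul_inv, mul_comm]
    rw [Finset.prod_congr rfl hb]
    ring
  rw [Finset.sum_congr rfl hterm, ← Finset.sum_div]
  rw [div_eq_one_iff_eq hfp]
  exact hev.symm

/-- the energy does not change if `S` is enlarged by points where `ρ = 0` -/
theorem En_congr {S T : Finset ℕ} (ρ : ℕ → ℝ) (hST : S ⊆ T) (h : ∀ x ∈ T, x ∉ S → ρ x = 0) :
    En T ρ = En S ρ := by
  classical
  unfold En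
  congr 1
  have h1 : ∀ x, ∑ y ∈ T, ρ x * ρ y * Real.log |(x : ℝ) - y| =
      ∑ y ∈ S, ρ x * ρ y * Real.log |(x : ℝ) - y| := by
    intro x
    refine (Finset.sum_subset hST ?_).symm
    intro y hy hyS
    rw [h y hy hyS]
    ring
  rw [Finset.sum_congr rfl (fun x _ => h1 x)]
  refine (Finset.sum_subset hST ?_).symm
  intro x hx hxS
  refine Finset.sum_eq_zero ?_
  intro y _
  rw [h x hx hxS]
  ring

private theorem E5_sum_sg {P H S : Finset ℕ} (hP : P ⊆ S) (hH : H ⊆ S) (g : ℕ → ℝ) :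
    ∑ y ∈ S, sg P H y * g y = ∑ y ∈ P, g y - ∑ y ∈ H, g y := by
  classical
  unfold sg
  simp only [sub_mul, ite_mul, one_mul, zero_mul]
  rw [Finset.sum_sub_distrib, Finset.sum_ite_mem, Finset.sum_ite_mem,
    Finset.inter_eq_right.2 hP, Finset.inter_eq_right.2 hH]

/-- the effect of removing a particle and a hole -/
theorem En_erase {P H : Finset ℕ} (hd : Disjoint P H) {p h : ℕ} (hp : p ∈ P) (hh : h ∈ H) :
    En (P ∪ H) (sg P H) = En (P.erase p ∪ H.erase h) (sg (P.erase p) (H.erase h)) +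
      Real.log |(p : ℝ) - h| +
      (∑ h' ∈ H.erase h, Real.log |(p : ℝ) - h'| + ∑ p' ∈ P.erase p, Real.log |(h : ℝ) - p'| -
        ∑ p' ∈ P.erase p, Real.log |(p : ℝ) - p'| - ∑ h' ∈ H.erase h, Real.log |(h : ℝ) - h'|) := by
  classical
  have hsub : P.erase p ∪ H.erase h ⊆ P ∪ H :=
    Finset.union_subset_union (Finset.erase_subset _ _) (Finset.erase_subset _ _)
  have hPS : P.erase p ⊆ P ∪ H := (Finset.erase_subset _ _).trans Finset.subset_union_left
  have hHS : H.erase h ⊆ P ∪ H := (Finset.erase_subset _ _).trans Finset.subset_union_right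
  have hps : p ∈ P ∪ H := Finset.mem_union_left _ hp
  have hhs : h ∈ P ∪ H := Finset.mem_union_right _ hh
  rw [← En_congr (sg (P.erase p) (H.erase h)) hsub ?_]
  swap
  · intro x _ hx
    rw [Finset.mem_union, not_or] at hx
    simp [sg, hx.1, hx.2]
  set S := P ∪ H with hS
  set r := sg (P.erase p) (H.erase h) with hr
  set L : ℕ → ℕ → ℝ := fun x y => Real.log |(x : ℝ) - y| with hL
  have hLs : ∀ x y, L x y = L y x := by
    intro x y
    simp only [hL]
    rw [abs_sub_comm]
  have hLd : ∀ x, L x x = 0 := by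
    intro x
    simp [hL]
  have hne : p ≠ h := E5_disj_ne hd hp hh
  -- decomposition of the charge
  have hdec : ∀ x, sg P H x = r x + ((if x = p then 1 else 0) - (if x = h then 1 else 0)) := by
    intro x
    simp only [hr, sg, Finset.mem_erase]
    by_cases h1 : x = p
    · subst h1
      have h2 : x ∉ H := fun h2 => (E5_disj_ne hd hp h2) rfl
      simp [hp, h2, hne]
    · by_cases h2 : x = h
      · subst h2
        have h3 : x ∉ P := fun h3 => (E5_disj_ne hd h3 hh) rfl
        simp [hh, h3, h1]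
      · simp [h1, h2]
  -- inner sums
  have hin : ∀ x, ∑ y ∈ S, sg P H x * sg P H y * L x y =
      sg P H x * (∑ y ∈ S, r y * L x y + L x p - L x h) := by
    intro x
    have h1 : ∑ y ∈ S, sg P H x * sg P H y * L x y = sg P H x * ∑ y ∈ S, sg P H y * L x y := by
      rw [Finset.mul_sum]
      exact Finset.sum_congr rfl fun y _ => by ring
    rw [h1]
    congr 1
    have h2 : ∀ y ∈ S, sg P H y * L x y = r y * L x y + ((if y = p then L x y else 0) -
        (if y = h then L x y else 0)) := by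
      intro y _
      rw [hdec y, add_mul, sub_mul, ite_mul, ite_mul, one_mul, zero_mul]
    rw [Finset.sum_congr rfl h2, Finset.sum_add_distrib, Finset.sum_sub_distrib,
      Finset.sum_ite_eq', Finset.sum_ite_eq', if_pos hps, if_pos hhs]
    ring
  have hout : ∀ g : ℕ → ℝ, ∑ x ∈ S, sg P H x * g x = ∑ x ∈ S, r x * g x + g p - g h := by
    intro g
    have h2 : ∀ y ∈ S, sg P H y * g y = r y * g y + ((if y = p then g y else 0) -
        (if y = h then g y else 0)) := by
      intro y _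
      rw [hdec y, add_mul, sub_mul, ite_mul, ite_mul, one_mul, zero_mul]
    rw [Finset.sum_congr rfl h2, Finset.sum_add_distrib, Finset.sum_sub_distrib,
      Finset.sum_ite_eq', Finset.sum_ite_eq', if_pos hps, if_pos hhs]
    ring
  have hBr : ∀ z, ∑ y ∈ S, r y * L z y = ∑ y ∈ P.erase p, L z y - ∑ y ∈ H.erase h, L z y :=
    fun z => E5_sum_sg hPS hHS (fun y => L z y)
  have hBr' : ∀ z, ∑ y ∈ S, r y * L y z = ∑ y ∈ P.erase p, L z y - ∑ y ∈ H.erase h, L z y := by
    intro z
    rw [← hBr z]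
    exact Finset.sum_congr rfl fun y _ => by rw [hLs]
  have hmain : ∑ x ∈ S, ∑ y ∈ S, sg P H x * sg P H y * L x y =
      ∑ x ∈ S, ∑ y ∈ S, r x * r y * L x y +
        2 * (∑ y ∈ P.erase p, L p y - ∑ y ∈ H.erase h, L p y) -
        2 * (∑ y ∈ P.erase p, L h y - ∑ y ∈ H.erase h, L h y) - 2 * L p h := by
    rw [Finset.sum_congr rfl fun x _ => hin x, hout (fun x => ∑ y ∈ S, r y * L x y + L x p - L x h)]
    have h3 : ∑ x ∈ S, r x * (∑ y ∈ S, r y * L x y + L x p - L x h) =
        ∑ x ∈ S, ∑ y ∈ S, r x * r y * L x y + ∑ x ∈ S, r x * L x p - ∑ x ∈ S, r x * L x h := by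
      rw [← Finset.sum_add_distrib, ← Finset.sum_sub_distrib]
      refine Finset.sum_congr rfl fun x _ => ?_
      have : ∑ y ∈ S, r x * r y * L x y = r x * ∑ y ∈ S, r y * L x y := by
        rw [Finset.mul_sum]
        exact Finset.sum_congr rfl fun y _ => by ring
      rw [this]
      ring
    rw [h3, hBr' p, hBr' h]
    simp only [hBr]
    rw [hLd p, hLd h, hLs h p]
    ring
  unfold En
  change -(1 / 2) * ∑ x ∈ S, ∑ y ∈ S, sg P H x * sg P H y * L x y =
    -(1 / 2) * ∑ x ∈ S, ∑ y ∈ S, r x * r y * L x y + L p h +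
      (∑ h' ∈ H.erase h, L p h' + ∑ p' ∈ P.erase p, L h p' -
        ∑ p' ∈ P.erase p, L p p' - ∑ h' ∈ H.erase h, L h h')
  rw [hmain]
  ring

private theorem E5_aux (n : ℕ) : ∀ {P H : Finset ℕ}, Disjoint P H → P.card = n → H.card = n →
    -Real.log (n.factorial : ℝ) ≤ En (P ∪ H) (sg P H) := by
  classical
  induction n with
  | zero =>
    intro P H _ h1 h2
    rw [Finset.card_eq_zero] at h1 h2
    subst h1
    subst h2
    simp [En]
  | succ n ih =>
    intro P H hd h1 h2
    obtain ⟨p, hp⟩ : P.Nonempty := by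
      rw [← Finset.card_pos]
      omega
    have hsum := lagrange_sum hd (h1.trans h2.symm) hp
    set T : ℕ → ℝ := fun h => (∏ p' ∈ P.erase p, ((h : ℝ) - p') / ((p : ℝ) - p')) *
      ∏ h' ∈ H.erase h, ((p : ℝ) - h') / ((h : ℝ) - h') with hT
    have habs : (1 : ℝ) ≤ ∑ h ∈ H, |T h| := by
      have h3 := Finset.abs_sum_le_sum_abs T H
      rw [show ∑ h ∈ H, T h = 1 from hsum, abs_one] at h3
      exact h3
    obtain ⟨h, hh, hge⟩ : ∃ h ∈ H, 1 / ((n : ℝ) + 1) ≤ |T h| := by
      by_contra hcon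
      push Not at hcon
      have hne : H.Nonempty := by
        rw [← Finset.card_pos]
        omega
      have h4 : ∑ h ∈ H, |T h| < ∑ h ∈ H, 1 / ((n : ℝ) + 1) :=
        Finset.sum_lt_sum_of_nonempty hne hcon
      rw [Finset.sum_const, h2, nsmul_eq_mul] at h4
      have h5 : ((n + 1 : ℕ) : ℝ) * (1 / ((n : ℝ) + 1)) = 1 := by
        push_cast
        field_simp
      rw [h5] at h4
      linarith
    have hne : p ≠ h := E5_disj_ne hd hp hh
    have hlog : -Real.log ((n : ℝ) + 1) ≤ Real.log |T h| := by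
      have h6 : (0 : ℝ) < 1 / ((n : ℝ) + 1) := by positivity
      have h7 := Real.log_le_log h6 hge
      rwa [one_div, Real.log_inv] at h7
    have hTl : Real.log |T h| = ∑ h' ∈ H.erase h, Real.log |(p : ℝ) - h'| +
        ∑ p' ∈ P.erase p, Real.log |(h : ℝ) - p'| -
        ∑ p' ∈ P.erase p, Real.log |(p : ℝ) - p'| - ∑ h' ∈ H.erase h, Real.log |(h : ℝ) - h'| := by
      have a1 : ∀ x ∈ P.erase p, |(h : ℝ) - x| ≠ 0 := fun x hx =>
        abs_ne_zero.2 (E5_sub_ne (E5_disj_ne hd (Finset.mem_of_mem_erase hx) hh).symm)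
      have a2 : ∀ x ∈ P.erase p, |(p : ℝ) - x| ≠ 0 := fun x hx =>
        abs_ne_zero.2 (E5_sub_ne (Finset.ne_of_mem_erase hx).symm)
      have a3 : ∀ x ∈ H.erase h, |(p : ℝ) - x| ≠ 0 := fun x hx =>
        abs_ne_zero.2 (E5_sub_ne (E5_disj_ne hd hp (Finset.mem_of_mem_erase hx)))
      have a4 : ∀ x ∈ H.erase h, |(h : ℝ) - x| ≠ 0 := fun x hx =>
        abs_ne_zero.2 (E5_sub_ne (Finset.ne_of_mem_erase hx).symm)
      simp only [hT]
      rw [abs_mul, Finset.abs_prod, Finset.abs_prod]
      simp only [abs_div]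
      rw [Real.log_mul (Finset.prod_ne_zero_iff.2 fun x hx => div_ne_zero (a1 x hx) (a2 x hx))
        (Finset.prod_ne_zero_iff.2 fun x hx => div_ne_zero (a3 x hx) (a4 x hx)),
        Real.log_prod fun x hx => div_ne_zero (a1 x hx) (a2 x hx),
        Real.log_prod fun x hx => div_ne_zero (a3 x hx) (a4 x hx),
        Finset.sum_congr rfl fun x hx => Real.log_div (a1 x hx) (a2 x hx),
        Finset.sum_congr rfl fun x hx => Real.log_div (a3 x hx) (a4 x hx),
        Finset.sum_sub_distrib, Finset.sum_sub_distrib]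
      ring
    have hpos : 0 ≤ Real.log |(p : ℝ) - h| := by
      apply Real.log_nonneg
      have h8 : (1 : ℤ) ≤ |(p : ℤ) - h| := by
        apply Int.one_le_abs
        intro h0
        apply hne
        omega
      exact_mod_cast h8
    have hrec := @ih (P.erase p) (H.erase h)
      (Finset.disjoint_of_subset_left (Finset.erase_subset _ _)
        (Finset.disjoint_of_subset_right (Finset.erase_subset _ _) hd))
      (by rw [Finset.card_erase_of_mem hp, h1]; rfl) (by rw [Finset.card_erase_of_mem hh, h2]; rfl)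
    rw [En_erase hd hp hh, ← hTl]
    have hfac : Real.log ((n + 1).factorial : ℝ) = Real.log ((n : ℝ) + 1) +
        Real.log (n.factorial : ℝ) := by
      rw [Nat.factorial_succ]
      push_cast
      rw [Real.log_mul (by positivity) (by positivity)]
    rw [hfac]
    linarith

/-- **Cauchy determinant inequality.**  Induction on `|P|`: by `lagrange_sum` there is `h ∈ H` for which
the absolute value of the term is at least `1/|P|`; take logarithms; `En_erase`, `|p - h| ≥ 1`. -/
theorem energy_ge {P H : Finset ℕ} (hd : Disjoint P H) (hc : P.card = H.card) :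
    -Real.log (P.card.factorial : ℝ) ≤ En (P ∪ H) (sg P H) :=
  E5_aux P.card hd rfl hc.symm

end MPbcd198.C
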