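import Pool.Agent.Lib.MP_bcd198_co.C.E2
import Pool.Agent.Lib.MP_bcd198_co.C.B1

/-!
# MP_bcd198_co, C/E6: particles and holes
-/

set_option autoImplicit false

namespace MPbcd198.C

open Equiv Pool.Agent.Lib.MP_463376_co Pool.Agent.Lib.MP_463376_co.Hs

theorem PP_HH_disjoint (B : Finset ℕ) : Disjoint (PP B) (HH B) := by
  rw [Finset.disjoint_left]
  intro x hx hx'
  unfold PP at hx
  unfold HH at hx'
  rw [Finset.mem_filter] at hx hx'
  exact hx'.2 hx.1

private theorem E6_B_filter_lt (B : Finset ℕ) :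
    (B.filter fun x => ¬ B.card ≤ x) = (Finset.range B.card).filter fun x => x ∈ B := by
  ext x
  simp only [Finset.mem_filter, Finset.mem_range, not_le]
  tauto

theorem card_PP_eq (B : Finset ℕ) : (PP B).card = (HH B).card := by
  have h1 := Finset.card_filter_add_card_filter_not (s := B) (fun x => B.card ≤ x)
  have h2 := Finset.card_filter_add_card_filter_not (s := Finset.range B.card) (fun x => x ∈ B)
  rw [Finset.card_range] at h2
  rw [E6_B_filter_lt] at h1
  unfold PP HH
  omega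

/-- sums over `B` as sums over `range B.card` corrected by particles and holes -/
private theorem E6_split (B : Finset ℕ) (f : ℕ → ℝ) :
    ∑ x ∈ B, f x = ∑ x ∈ Finset.range B.card, f x + (∑ x ∈ PP B, f x - ∑ x ∈ HH B, f x) := by
  have h1 := Finset.sum_filter_add_sum_filter_not B (fun x => B.card ≤ x) f
  have h2 := Finset.sum_filter_add_sum_filter_not (Finset.range B.card) (fun x => x ∈ B) f
  rw [E6_B_filter_lt] at h1
  unfold PP HH
  linarith

private theorem E6_sg (B : Finset ℕ) (f : ℕ → ℝ) :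
    ∑ x ∈ PP B ∪ HH B, sg (PP B) (HH B) x * f x = ∑ x ∈ PP B, f x - ∑ x ∈ HH B, f x := by
  have hd := PP_HH_disjoint B
  rw [Finset.sum_union hd]
  have h1 : ∑ x ∈ PP B, sg (PP B) (HH B) x * f x = ∑ x ∈ PP B, f x := by
    refine Finset.sum_congr rfl fun x hx => ?_
    have hx' : x ∉ HH B := Finset.disjoint_left.1 hd hx
    simp [sg, hx, hx']
  have h2 : ∑ x ∈ HH B, sg (PP B) (HH B) x * f x = -∑ x ∈ HH B, f x := by
    rw [← Finset.sum_neg_distrib]
    refine Finset.sum_congr rfl fun x hx => ?_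
    have hx' : x ∉ PP B := fun h => Finset.disjoint_left.1 hd h hx
    simp [sg, hx, hx']
  rw [h1, h2]
  ring

private theorem E6_logVV (S : Finset ℕ) :
    Real.log (VV S) = (1 / 2) * ∑ x ∈ S, ∑ y ∈ S, Real.log |(x : ℝ) - y| := by
  unfold VV
  have hpos : ∀ x ∈ S, (∏ y ∈ S.filter fun y => x < y, ((y : ℝ) - x)) ≠ 0 := by
    intro x _
    refine Finset.prod_ne_zero_iff.2 fun y hy => ?_
    have h := (Finset.mem_filter.1 hy).2
    have : (x : ℝ) < y := by exact_mod_cast h
    exact ne_of_gt (sub_pos.2 this)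
  rw [Real.log_prod hpos]
  have h1 : ∀ x ∈ S, Real.log (∏ y ∈ S.filter fun y => x < y, ((y : ℝ) - x)) =
      ∑ y ∈ S, if x < y then Real.log |(x : ℝ) - y| else 0 := by
    intro x _
    rw [Real.log_prod, Finset.sum_filter]
    · refine Finset.sum_congr rfl fun y _ => ?_
      split_ifs with h
      · rw [abs_sub_comm, Real.log_abs]
      · rfl
    · intro y hy
      have h := (Finset.mem_filter.1 hy).2
      have : (x : ℝ) < y := by exact_mod_cast h
      exact ne_of_gt (sub_pos.2 this)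
  rw [Finset.sum_congr rfl h1]
  have h2 : ∀ x ∈ S, ∑ y ∈ S, Real.log |(x : ℝ) - y| =
      (∑ y ∈ S, if x < y then Real.log |(x : ℝ) - y| else 0) +
        ∑ y ∈ S, if y < x then Real.log |(y : ℝ) - x| else 0 := by
    intro x _
    rw [← Finset.sum_add_distrib]
    refine Finset.sum_congr rfl fun y _ => ?_
    rcases lt_trichotomy x y with h | h | h
    · rw [if_pos h, if_neg (not_lt.2 h.le), add_zero]
    · subst h; simp
    · rw [if_neg (not_lt.2 h.le), if_pos h, zero_add, abs_sub_comm]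
  rw [Finset.sum_congr rfl h2, Finset.sum_add_distrib]
  have h3 : ∑ x ∈ S, ∑ y ∈ S, (if y < x then Real.log |(y : ℝ) - x| else 0) =
      ∑ x ∈ S, ∑ y ∈ S, (if x < y then Real.log |(x : ℝ) - y| else 0) := Finset.sum_comm
  rw [h3]
  ring

private theorem E6_low (p N : ℕ) (h : N ≤ p) :
    ∑ x ∈ Finset.range N, Real.log |(p : ℝ) - x| =
      Real.log (p.factorial : ℝ) - Real.log ((p - N).factorial : ℝ) := by
  induction N with
  | zero => simp
  | succ N ih =>
    rw [Finset.sum_range_succ, ih (by omega)]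
    obtain ⟨k, hk⟩ : ∃ k, p = N + 1 + k := ⟨p - (N + 1), by omega⟩
    have h1 : p - N = k + 1 := by omega
    have h2 : p - (N + 1) = k := by omega
    rw [h1, h2, Nat.factorial_succ]
    push_cast
    rw [Real.log_mul (by positivity) (by positivity)]
    have h3 : |(p : ℝ) - N| = (k : ℝ) + 1 := by
      rw [hk]; push_cast
      rw [show ((N : ℝ) + 1 + k - N) = k + 1 by ring, abs_of_nonneg (by positivity)]
    rw [h3]
    ring

private theorem E6_in (h N : ℕ) (hh : h < N) :
    ∑ x ∈ Finset.range N, Real.log |(h : ℝ) - x| =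
      Real.log (h.factorial : ℝ) + Real.log ((N - 1 - h).factorial : ℝ) := by
  obtain ⟨k, rfl⟩ : ∃ k, N = h + 1 + k := ⟨N - (h + 1), by omega⟩
  clear hh
  induction k with
  | zero =>
    rw [add_zero, Finset.sum_range_succ, E6_low h h le_rfl]
    have h1 : h + 1 - 1 - h = 0 := by omega
    rw [h1]
    simp
  | succ k ih =>
    rw [← add_assoc, Finset.sum_range_succ, ih]
    have h1 : h + 1 + k - 1 - h = k := by omega
    have h2 : h + 1 + k + 1 - 1 - h = k + 1 := by omega
    rw [h1, h2, Nat.factorial_succ]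
    push_cast
    rw [Real.log_mul (by positivity) (by positivity)]
    have h3 : |(h : ℝ) - (h + 1 + k)| = (k : ℝ) + 1 := by
      rw [show ((h : ℝ) - (h + 1 + k)) = -(k + 1) by ring, abs_neg, abs_of_nonneg (by positivity)]
    rw [h3]
    ring

theorem log_FF (B : Finset ℕ) : -Real.log (FF B) = En (PP B ∪ HH B) (sg (PP B) (HH B)) +
    ∑ p ∈ PP B, Real.log ((p - B.card).factorial : ℝ) +
    ∑ h ∈ HH B, Real.log ((B.card - 1 - h).factorial : ℝ) := by
  set N := B.card with hN
  have hVpos : VV B ≠ 0 := by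
    unfold VV
    refine Finset.prod_ne_zero_iff.2 fun x _ => Finset.prod_ne_zero_iff.2 fun y hy => ?_
    have h := (Finset.mem_filter.1 hy).2
    have : (x : ℝ) < y := by exact_mod_cast h
    exact ne_of_gt (sub_pos.2 this)
  have hfpos : (∏ x ∈ B, (x.factorial : ℝ)) ≠ 0 :=
    Finset.prod_ne_zero_iff.2 fun x _ => by positivity
  have hlog : Real.log (FF B) = Real.log (VV B) - ∑ x ∈ B, Real.log (x.factorial : ℝ) := by
    unfold FF
    rw [Real.log_div hVpos hfpos, Real.log_prod fun x _ => by positivity]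
  have hPle : ∀ p ∈ PP B, N ≤ p := fun p hp => (Finset.mem_filter.1 hp).2
  have hHlt : ∀ h ∈ HH B, h < N := fun h hh => Finset.mem_range.1 (Finset.mem_filter.1 hh).1
  -- inner sums
  have hinner : ∀ x : ℕ, ∑ y ∈ B, Real.log |(x : ℝ) - y| =
      ∑ y ∈ Finset.range N, Real.log |(x : ℝ) - y| +
        ∑ y ∈ PP B ∪ HH B, sg (PP B) (HH B) y * Real.log |(x : ℝ) - y| := by
    intro x
    rw [E6_split B, E6_sg]
  have hA : ∑ x ∈ Finset.range N, ∑ y ∈ Finset.range N, Real.log |(x : ℝ) - y| =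
      2 * ∑ x ∈ Finset.range N, Real.log (x.factorial : ℝ) := by
    have h1 : ∀ x ∈ Finset.range N, ∑ y ∈ Finset.range N, Real.log |(x : ℝ) - y| =
        Real.log (x.factorial : ℝ) + Real.log ((N - 1 - x).factorial : ℝ) :=
      fun x hx => E6_in x N (Finset.mem_range.1 hx)
    rw [Finset.sum_congr rfl h1, Finset.sum_add_distrib,
      Finset.sum_range_reflect (fun x => Real.log ((x).factorial : ℝ)) N]
    ring
  have hC : ∑ x ∈ PP B ∪ HH B, sg (PP B) (HH B) x *
      ∑ y ∈ Finset.range N, Real.log |(x : ℝ) - y| =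
      (∑ p ∈ PP B, Real.log (p.factorial : ℝ) - ∑ p ∈ PP B, Real.log ((p - N).factorial : ℝ)) -
      (∑ h ∈ HH B, Real.log (h.factorial : ℝ) +
        ∑ h ∈ HH B, Real.log ((N - 1 - h).factorial : ℝ)) := by
    rw [E6_sg, Finset.sum_congr rfl fun p hp => E6_low p N (hPle p hp),
      Finset.sum_congr rfl fun h hh => E6_in h N (hHlt h hh), Finset.sum_sub_distrib,
      Finset.sum_add_distrib]
  have hD : ∑ x ∈ Finset.range N, ∑ y ∈ PP B ∪ HH B, sg (PP B) (HH B) y *
      Real.log |(x : ℝ) - y| = ∑ x ∈ PP B ∪ HH B, sg (PP B) (HH B) x *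
      ∑ y ∈ Finset.range N, Real.log |(x : ℝ) - y| := by
    rw [Finset.sum_comm]
    refine Finset.sum_congr rfl fun y _ => ?_
    rw [Finset.mul_sum]
    refine Finset.sum_congr rfl fun x _ => ?_
    rw [abs_sub_comm]
  have hE : ∑ x ∈ PP B ∪ HH B, sg (PP B) (HH B) x *
      ∑ y ∈ PP B ∪ HH B, sg (PP B) (HH B) y * Real.log |(x : ℝ) - y| =
      -2 * En (PP B ∪ HH B) (sg (PP B) (HH B)) := by
    unfold En
    have : ∀ x ∈ PP B ∪ HH B, sg (PP B) (HH B) x *
        ∑ y ∈ PP B ∪ HH B, sg (PP B) (HH B) y * Real.log |(x : ℝ) - y| =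
        ∑ y ∈ PP B ∪ HH B, sg (PP B) (HH B) x * sg (PP B) (HH B) y * Real.log |(x : ℝ) - y| := by
      intro x _
      rw [Finset.mul_sum]
      refine Finset.sum_congr rfl fun y _ => ?_
      ring
    rw [Finset.sum_congr rfl this]
    ring
  have hVV := E6_logVV B
  have hsum : ∑ x ∈ B, ∑ y ∈ B, Real.log |(x : ℝ) - y| =
      2 * ∑ x ∈ Finset.range N, Real.log (x.factorial : ℝ) +
      2 * ((∑ p ∈ PP B, Real.log (p.factorial : ℝ) -
          ∑ p ∈ PP B, Real.log ((p - N).factorial : ℝ)) -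
        (∑ h ∈ HH B, Real.log (h.factorial : ℝ) +
          ∑ h ∈ HH B, Real.log ((N - 1 - h).factorial : ℝ))) -
      2 * En (PP B ∪ HH B) (sg (PP B) (HH B)) := by
    rw [Finset.sum_congr rfl fun x _ => hinner x, E6_split B, ← E6_sg B, ← hN,
      Finset.sum_add_distrib, hA, hD, hC]
    have : ∀ x ∈ PP B ∪ HH B, sg (PP B) (HH B) x * (∑ y ∈ Finset.range N,
        Real.log |(x : ℝ) - y| + ∑ y ∈ PP B ∪ HH B, sg (PP B) (HH B) y *
          Real.log |(x : ℝ) - y|) = sg (PP B) (HH B) x * (∑ y ∈ Finset.range N,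
        Real.log |(x : ℝ) - y|) + sg (PP B) (HH B) x * ∑ y ∈ PP B ∪ HH B, sg (PP B) (HH B) y *
          Real.log |(x : ℝ) - y| := fun x _ => by ring
    rw [Finset.sum_congr rfl this, Finset.sum_add_distrib, hC, hE]
    ring
  have hF := E6_split B fun x => Real.log (x.factorial : ℝ)
  rw [← hN] at hF
  rw [hlog, hVV, hsum, hF]
  ring

private theorem E6_inj {N : ℕ} (lam : YoungDiagram) :
    Function.Injective fun i : Fin N => lam.rowLen i + rho N i := by
  intro i j h
  have hi := i.2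
  have hj := j.2
  simp only [rho] at h
  apply Fin.ext
  rcases lt_trichotomy (i : ℕ) j with h1 | h1 | h1
  · have h2 := lam.rowLen_anti _ _ h1.le
    omega
  · exact h1
  · have h2 := lam.rowLen_anti _ _ h1.le
    omega

private theorem E6_card_bset (N : ℕ) (lam : YoungDiagram) : (bset N lam).card = N := by
  unfold bset
  rw [Finset.card_image_of_injective _ (E6_inj lam), Finset.card_univ, Fintype.card_fin]

theorem card_PP_bset {N : ℕ} (lam : YoungDiagram) (hN : lam.colLen 0 ≤ N) :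
    (PP (bset N lam)).card = dur lam := by
  have h1 : PP (bset N lam) = (Finset.univ.filter fun i : Fin N => (i : ℕ) < lam.rowLen i).image
      fun i : Fin N => lam.rowLen i + rho N i := by
    unfold PP
    rw [E6_card_bset]
    ext x
    simp only [bset, Finset.mem_filter, Finset.mem_image, Finset.mem_univ, true_and]
    constructor
    · rintro ⟨⟨i, rfl⟩, hx⟩
      refine ⟨i, ?_, rfl⟩
      have := i.2
      simp only [rho] at hx
      omega
    · rintro ⟨i, hi, rfl⟩
      refine ⟨⟨i, rfl⟩, ?_⟩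
      have := i.2
      simp only [rho]
      omega
  rw [h1, Finset.card_image_of_injective _ (E6_inj lam)]
  unfold dur
  refine Finset.card_bij (fun i _ => (i : ℕ)) ?_ ?_ ?_
  · intro i hi
    have hi' := (Finset.mem_filter.1 hi).2
    rw [Finset.mem_filter, Finset.mem_range]
    refine ⟨?_, hi'⟩
    have h2 : ((i : ℕ), 0) ∈ lam := YoungDiagram.mem_iff_lt_rowLen.2 (by omega)
    have h3 : (i : ℕ) < lam.colLen 0 := YoungDiagram.mem_iff_lt_colLen.1 h2
    exact lt_of_lt_of_le h3 (colLen_zero_le_card lam)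
  · intro i _ j _ h
    exact Fin.ext h
  · intro k hk
    have hk' := Finset.mem_filter.1 hk
    have h2 : (k, 0) ∈ lam := YoungDiagram.mem_iff_lt_rowLen.2 (by omega)
    have h3 : k < lam.colLen 0 := YoungDiagram.mem_iff_lt_colLen.1 h2
    exact ⟨⟨k, by omega⟩, Finset.mem_filter.2 ⟨Finset.mem_univ _, hk'.2⟩, rfl⟩

private theorem E6_splitZ (B : Finset ℕ) (f : ℕ → ℤ) :
    ∑ x ∈ B, f x = ∑ x ∈ Finset.range B.card, f x + (∑ x ∈ PP B, f x - ∑ x ∈ HH B, f x) := by
  have h1 := Finset.sum_filter_add_sum_filter_not B (fun x => B.card ≤ x) f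
  have h2 := Finset.sum_filter_add_sum_filter_not (Finset.range B.card) (fun x => x ∈ B) f
  rw [E6_B_filter_lt] at h1
  unfold PP HH
  linarith

theorem sum_frob {N : ℕ} (lam : YoungDiagram) (hN : lam.colLen 0 ≤ N) :
    ∑ p ∈ PP (bset N lam), (p - (bset N lam).card) +
      ∑ h ∈ HH (bset N lam), ((bset N lam).card - 1 - h) + (PP (bset N lam)).card = lam.card := by
  have hc := E6_card_bset N lam
  have hsp := E6_splitZ (bset N lam) fun x => (x : ℤ)
  have hcard := card_PP_eq (bset N lam)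
  have hP : ∀ p ∈ PP (bset N lam), (((p - (bset N lam).card : ℕ)) : ℤ) = (p : ℤ) - N := by
    intro p hp
    have h := (Finset.mem_filter.1 hp).2
    rw [hc] at h ⊢
    push_cast [Nat.cast_sub h]
    ring
  have hH : ∀ h ∈ HH (bset N lam), ((((bset N lam).card - 1 - h : ℕ)) : ℤ) = (N : ℤ) - 1 - h := by
    intro h hh
    have h1 := Finset.mem_range.1 (Finset.mem_filter.1 hh).1
    rw [hc] at h1 ⊢
    rw [Nat.cast_sub (by omega), Nat.cast_sub (by omega)]
    push_cast
    ring
  have hB : ∑ x ∈ bset N lam, (x : ℤ) = (lam.card : ℤ) + ∑ x ∈ Finset.range N, (x : ℤ) := by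
    unfold bset
    rw [Finset.sum_image (fun i _ j _ h => E6_inj lam h)]
    simp only [rho]
    rw [Fin.sum_univ_eq_sum_range (fun i => (((lam.rowLen i + (N - 1 - i) : ℕ)) : ℤ)) N]
    push_cast
    rw [Finset.sum_add_distrib]
    congr 1
    · exact_mod_cast sum_rowLen_eq lam hN
    · rw [← Finset.sum_range_reflect (fun x => (x : ℤ)) N]
  have hgoal : ((∑ p ∈ PP (bset N lam), (p - (bset N lam).card) +
      ∑ h ∈ HH (bset N lam), ((bset N lam).card - 1 - h) + (PP (bset N lam)).card : ℕ) : ℤ) =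
      (lam.card : ℤ) := by
    rw [Nat.cast_add, Nat.cast_add, Nat.cast_sum, Nat.cast_sum, Finset.sum_congr rfl hP,
      Finset.sum_congr rfl hH]
    rw [Finset.sum_sub_distrib, Finset.sum_sub_distrib, Finset.sum_const, Finset.sum_const]
    rw [hc, hB] at hsp
    simp only [nsmul_eq_mul]
    rw [← hcard]
    linarith
  exact_mod_cast hgoal

end MPbcd198.C
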