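import Pool.Agent.Lib.MP_bcd198_co.C.E5

/-!
# MP_bcd198_co, C/E7: the energy and residue classes
-/

set_option autoImplicit false

namespace MPbcd198.C

open Equiv

/-- the part of `ρ` on the class `c` -/
noncomputable def rc (r c : ℕ) (ρ : ℕ → ℝ) (x : ℕ) : ℝ := if x % r = c then ρ x else 0

/-- parallelogram identity for the quadratic form `En S` -/
theorem En_parallel (S : Finset ℕ) (r : ℕ) (f : ℕ → ℕ → ℝ) :
    ∑ c ∈ Finset.range r, ∑ c' ∈ Finset.range r, En S (fun x => f c x - f c' x) =
      2 * (r : ℝ) * ∑ c ∈ Finset.range r, En S (f c) -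
        2 * En S (fun x => ∑ c ∈ Finset.range r, f c x) := by
  set R := Finset.range r with hR
  have hRc : (R.card : ℝ) = r := by simp [hR]
  have key : ∀ u v : ℕ → ℝ, ∑ c ∈ R, ∑ c' ∈ R, (u c - u c') * (v c - v c') =
      2 * (r : ℝ) * (∑ c ∈ R, u c * v c) - 2 * ((∑ c ∈ R, u c) * ∑ c ∈ R, v c) := by
    intro u v
    have h1 : ∀ c ∈ R, ∑ c' ∈ R, (u c - u c') * (v c - v c') =
        r * (u c * v c) - u c * (∑ c' ∈ R, v c') - v c * (∑ c' ∈ R, u c') +
          ∑ c' ∈ R, u c' * v c' := by
      intro c _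
      have h2 : ∀ c' ∈ R, (u c - u c') * (v c - v c') =
          u c * v c - u c * v c' - v c * u c' + u c' * v c' := fun c' _ => by ring
      rw [Finset.sum_congr rfl h2, Finset.sum_add_distrib, Finset.sum_sub_distrib,
        Finset.sum_sub_distrib, Finset.sum_const, ← Finset.mul_sum, ← Finset.mul_sum,
        nsmul_eq_mul, hRc]
    rw [Finset.sum_congr rfl h1, Finset.sum_add_distrib, Finset.sum_sub_distrib,
      Finset.sum_sub_distrib, Finset.sum_const, ← Finset.mul_sum, ← Finset.sum_mul,
      ← Finset.sum_mul, nsmul_eq_mul, hRc]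
    ring
  have hcomm : ∀ F : ℕ → ℕ → ℕ → ℕ → ℝ,
      ∑ c ∈ R, ∑ c' ∈ R, ∑ x ∈ S, ∑ y ∈ S, F c c' x y =
        ∑ x ∈ S, ∑ y ∈ S, ∑ c ∈ R, ∑ c' ∈ R, F c c' x y := by
    intro F
    calc ∑ c ∈ R, ∑ c' ∈ R, ∑ x ∈ S, ∑ y ∈ S, F c c' x y
        = ∑ c ∈ R, ∑ x ∈ S, ∑ y ∈ S, ∑ c' ∈ R, F c c' x y := by
          refine Finset.sum_congr rfl fun c _ => ?_
          rw [Finset.sum_comm]
          refine Finset.sum_congr rfl fun x _ => ?_
          rw [Finset.sum_comm]
      _ = ∑ x ∈ S, ∑ y ∈ S, ∑ c ∈ R, ∑ c' ∈ R, F c c' x y := by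
          rw [Finset.sum_comm]
          refine Finset.sum_congr rfl fun x _ => ?_
          rw [Finset.sum_comm]
  have hcomm2 : ∀ F : ℕ → ℕ → ℕ → ℝ, ∑ c ∈ R, ∑ x ∈ S, ∑ y ∈ S, F c x y =
      ∑ x ∈ S, ∑ y ∈ S, ∑ c ∈ R, F c x y := by
    intro F
    rw [Finset.sum_comm]
    refine Finset.sum_congr rfl fun x _ => ?_
    rw [Finset.sum_comm]
  unfold En
  simp_rw [← Finset.mul_sum]
  rw [hcomm, hcomm2]
  have h3 : ∀ x y : ℕ, ∑ c ∈ R, ∑ c' ∈ R, (f c x - f c' x) * (f c y - f c' y) *
      Real.log |(x : ℝ) - y| = 2 * (r : ℝ) * (∑ c ∈ R, f c x * f c y * Real.log |(x : ℝ) - y|) -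
        2 * ((∑ c ∈ R, f c x) * (∑ c ∈ R, f c y) * Real.log |(x : ℝ) - y|) := by
    intro x y
    simp_rw [← Finset.sum_mul]
    rw [key (fun c => f c x) (fun c => f c y)]
    ring
  simp_rw [h3, Finset.sum_sub_distrib, ← Finset.mul_sum]
  ring

/-- `En (1_{P_c} - 1_{H_c} - 1_{P_c'} + 1_{H_c'}) ≥ -log |P|!` by `energy_ge` for
`P_c ∪ H_c'`, `H_c ∪ P_c'` (`En_congr`); then `En_parallel`. -/
theorem En_split {r : ℕ} (hr : 1 ≤ r) {P H : Finset ℕ} (hd : Disjoint P H)
    (hc : ∀ c < r, (P.filter fun x => x % r = c).card = (H.filter fun x => x % r = c).card) :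
    En (P ∪ H) (sg P H) ≤ (r : ℝ) * ∑ c ∈ Finset.range r, En (P ∪ H) (rc r c (sg P H)) +
      (r : ℝ) ^ 2 / 2 * Real.log (P.card.factorial : ℝ) := by
  have hpar := En_parallel (P ∪ H) r (fun c => rc r c (sg P H))
  have hsum : (fun x => ∑ c ∈ Finset.range r, rc r c (sg P H) x) = sg P H := by
    funext x
    unfold rc
    rw [Finset.sum_ite_eq]
    rw [if_pos (Finset.mem_range.2 (Nat.mod_lt x hr))]
  have hlog0 : 0 ≤ Real.log (P.card.factorial : ℝ) := by
    apply Real.log_nonneg
    have := Nat.factorial_pos P.card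
    exact_mod_cast this
  have hterm : ∀ c ∈ Finset.range r, ∀ c' ∈ Finset.range r,
      -Real.log (P.card.factorial : ℝ) ≤
        En (P ∪ H) (fun x => rc r c (sg P H) x - rc r c' (sg P H) x) := by
    intro c hcr c' hcr'
    rw [Finset.mem_range] at hcr hcr'
    by_cases hcc : c = c'
    · subst hcc
      have : En (P ∪ H) (fun x => rc r c (sg P H) x - rc r c (sg P H) x) = 0 := by
        simp [En]
      rw [this]
      linarith
    · set P₁ : Finset ℕ := (P.filter fun x => x % r = c) ∪ (H.filter fun x => x % r = c') with hP₁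
      set H₁ : Finset ℕ := (H.filter fun x => x % r = c) ∪ (P.filter fun x => x % r = c') with hH₁
      have hnot : ∀ x, x ∈ P → x ∉ H := fun x h1 h2 =>
        (Finset.disjoint_left.1 hd h1) h2
      have hfun : (fun x => rc r c (sg P H) x - rc r c' (sg P H) x) = sg P₁ H₁ := by
        funext x
        unfold rc sg
        simp only [hP₁, hH₁, Finset.mem_union, Finset.mem_filter]
        by_cases h1 : x % r = c
        · have h2 : x % r ≠ c' := fun h => hcc (h1.symm.trans h)
          simp [h1, hcc]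
        · by_cases h2 : x % r = c'
          · simp only [h2, if_true, and_true]
            rw [if_neg (fun h => hcc h.symm)]
            have h3 : c' ≠ c := fun h => hcc h.symm
            simp [h3]
          · simp [h1, h2]
      have hdis : Disjoint P₁ H₁ := by
        rw [Finset.disjoint_left]
        intro x hx hx'
        simp only [hP₁, hH₁, Finset.mem_union, Finset.mem_filter] at hx hx'
        rcases hx with ⟨h1, h2⟩ | ⟨h1, h2⟩ <;> rcases hx' with ⟨h3, h4⟩ | ⟨h3, h4⟩
        · exact hnot x h1 h3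
        · exact hcc (h2.symm.trans h4)
        · exact hcc (h4.symm.trans h2)
        · exact hnot x h3 h1
      have hcP : P₁.card = (P.filter fun x => x % r = c).card +
          (H.filter fun x => x % r = c').card := by
        apply Finset.card_union_of_disjoint
        rw [Finset.disjoint_left]
        intro x hx hx'
        rw [Finset.mem_filter] at hx hx'
        exact hcc (hx.2.symm.trans hx'.2)
      have hcH : H₁.card = (H.filter fun x => x % r = c).card +
          (P.filter fun x => x % r = c').card := by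
        apply Finset.card_union_of_disjoint
        rw [Finset.disjoint_left]
        intro x hx hx'
        rw [Finset.mem_filter] at hx hx'
        exact hcc (hx.2.symm.trans hx'.2)
      have hcard : P₁.card = H₁.card := by
        rw [hcP, hcH, hc c hcr, hc c' hcr']
      have hle : P₁.card ≤ P.card := by
        rw [hcP, ← hc c' hcr', ← Finset.card_union_of_disjoint]
        · apply Finset.card_le_card
          apply Finset.union_subset <;> exact Finset.filter_subset _ _
        · rw [Finset.disjoint_left]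
          intro x hx hx'
          rw [Finset.mem_filter] at hx hx'
          exact hcc (hx.2.symm.trans hx'.2)
      have hen := energy_ge hdis hcard
      have hsub : P₁ ∪ H₁ ⊆ P ∪ H := by
        intro x hx
        simp only [hP₁, hH₁, Finset.mem_union, Finset.mem_filter] at hx ⊢
        tauto
      have hcg := En_congr (sg P₁ H₁) hsub (by
        intro x _ hx
        rw [Finset.mem_union, not_or] at hx
        simp [sg, hx.1, hx.2])
      rw [hfun, hcg]
      refine le_trans ?_ hen
      apply neg_le_neg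
      apply Real.log_le_log
      · have := Nat.factorial_pos P₁.card
        exact_mod_cast this
      · have := Nat.factorial_le hle
        exact_mod_cast this
  have hbig : ∑ c ∈ Finset.range r, ∑ c' ∈ Finset.range r, (-Real.log (P.card.factorial : ℝ)) ≤
      ∑ c ∈ Finset.range r, ∑ c' ∈ Finset.range r,
        En (P ∪ H) (fun x => rc r c (sg P H) x - rc r c' (sg P H) x) :=
    Finset.sum_le_sum fun c hc1 => Finset.sum_le_sum fun c' hc2 => hterm c hc1 c' hc2
  rw [hpar, hsum] at hbig
  simp only [Finset.sum_const, Finset.card_range, nsmul_eq_mul] at hbig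
  nlinarith [hbig]

/-- rescaling of a class: for `x ≠ y` in the class `log |x-y| = log r + log |x/r - y/r|`, and
`∑_{x ≠ y} ρ(x)ρ(y) = (∑ρ)² - ∑ρ² = -2 d` (`d` particles and `d` holes in the class) -/
theorem En_scale {r c : ℕ} (hr : 1 ≤ r) (hcr : c < r) {P H : Finset ℕ} (hd : Disjoint P H)
    (hc : (P.filter fun x => x % r = c).card = (H.filter fun x => x % r = c).card) :
    En (P ∪ H) (rc r c (sg P H)) =
      En (cls r c P ∪ cls r c H) (sg (cls r c P) (cls r c H)) +
        ((cls r c P).card : ℝ) * Real.log r := by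
  set S : Finset ℕ := (P ∪ H).filter fun x => x % r = c with hS
  have hr0 : (0 : ℝ) < r := by exact_mod_cast hr
  have hnot : ∀ x, x ∈ P → x ∉ H := fun x h1 h2 => (Finset.disjoint_left.1 hd h1) h2
  have hmod : ∀ x ∈ S, x % r = c := fun x hx => (Finset.mem_filter.1 hx).2
  have hxr : ∀ x ∈ S, (x : ℝ) = r * ((x / r : ℕ) : ℝ) + c := by
    intro x hx
    have h1 := Nat.div_add_mod x r
    rw [hmod x hx] at h1
    exact_mod_cast h1.symm
  have hinj : Set.InjOn (fun x => x / r) (S : Set ℕ) := by
    intro x hx y hy hxy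
    have h1 := Nat.div_add_mod x r
    have h2 := Nat.div_add_mod y r
    rw [hmod x hx] at h1
    rw [hmod y hy] at h2
    simp only at hxy
    rw [← h1, ← h2, hxy]
  have himg : cls r c P ∪ cls r c H = S.image fun x => x / r := by
    rw [hS, Finset.filter_union, Finset.image_union]
    rfl
  have hcls : ∀ (B : Finset ℕ) (x : ℕ), x % r = c → (x / r ∈ cls r c B ↔ x ∈ B) := by
    intro B x hx
    unfold cls
    rw [Finset.mem_image]
    constructor
    · rintro ⟨y, hy, hyx⟩
      rw [Finset.mem_filter] at hy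
      have h1 := Nat.div_add_mod x r
      have h2 := Nat.div_add_mod y r
      rw [hx] at h1
      rw [hy.2] at h2
      rw [← h1, ← hyx, h2]
      exact hy.1
    · intro h
      exact ⟨x, Finset.mem_filter.2 ⟨h, hx⟩, rfl⟩
  have hsg : ∀ x ∈ S, sg (cls r c P) (cls r c H) (x / r) = sg P H x := by
    intro x hx
    unfold sg
    simp only [hcls _ x (hmod x hx)]
  have hEn1 : En (P ∪ H) (rc r c (sg P H)) = En S (sg P H) := by
    rw [En_congr (S := S) (T := P ∪ H) (rc r c (sg P H)) (Finset.filter_subset _ _) (by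
      intro x hx hxS
      unfold rc
      rw [if_neg]
      intro h
      exact hxS (Finset.mem_filter.2 ⟨hx, h⟩))]
    unfold En
    congr 1
    refine Finset.sum_congr rfl fun x hx => Finset.sum_congr rfl fun y hy => ?_
    unfold rc
    rw [if_pos (hmod x hx), if_pos (hmod y hy)]
  have hEn2 : En (cls r c P ∪ cls r c H) (sg (cls r c P) (cls r c H)) =
      -(1 / 2) * ∑ x ∈ S, ∑ y ∈ S, sg P H x * sg P H y *
        Real.log |((x / r : ℕ) : ℝ) - ((y / r : ℕ) : ℝ)| := by
    unfold En
    rw [himg, Finset.sum_image hinj]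
    congr 1
    refine Finset.sum_congr rfl fun x hx => ?_
    rw [Finset.sum_image hinj]
    refine Finset.sum_congr rfl fun y hy => ?_
    rw [hsg x hx, hsg y hy]
  have hlog : ∀ x ∈ S, ∀ y ∈ S, Real.log |(x : ℝ) - y| =
      Real.log |((x / r : ℕ) : ℝ) - ((y / r : ℕ) : ℝ)| +
        Real.log r * (1 - if x = y then 1 else 0) := by
    intro x hx y hy
    by_cases hxy : x = y
    · subst hxy
      simp
    · rw [if_neg hxy, hxr x hx, hxr y hy]
      have h1 : (r : ℝ) * ((x / r : ℕ) : ℝ) + c - (r * ((y / r : ℕ) : ℝ) + c) =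
          r * (((x / r : ℕ) : ℝ) - ((y / r : ℕ) : ℝ)) := by ring
      rw [h1, abs_mul, abs_of_pos hr0, Real.log_mul hr0.ne']
      · ring
      · rw [abs_ne_zero, sub_ne_zero]
        intro h2
        exact hxy (hinj hx hy (by exact_mod_cast h2))
  have hPc : (S.filter fun x => x ∈ P).card = (P.filter fun x => x % r = c).card := by
    congr 1
    ext x
    simp only [hS, Finset.mem_filter, Finset.mem_union]
    tauto
  have hHc : (S.filter fun x => x ∈ H).card = (H.filter fun x => x % r = c).card := by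
    congr 1
    ext x
    simp only [hS, Finset.mem_filter, Finset.mem_union]
    tauto
  have hclsP : (cls r c P).card = (P.filter fun x => x % r = c).card := by
    unfold cls
    apply Finset.card_image_of_injOn
    intro x hx y hy hxy
    apply hinj _ _ hxy
    · have hx' := Finset.mem_filter.1 (Finset.mem_coe.1 hx)
      exact Finset.mem_coe.2 (Finset.mem_filter.2 ⟨Finset.mem_union_left _ hx'.1, hx'.2⟩)
    · have hy' := Finset.mem_filter.1 (Finset.mem_coe.1 hy)
      exact Finset.mem_coe.2 (Finset.mem_filter.2 ⟨Finset.mem_union_left _ hy'.1, hy'.2⟩)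
  have hs1 : ∑ x ∈ S, sg P H x = 0 := by
    unfold sg
    rw [Finset.sum_sub_distrib, Finset.sum_boole, Finset.sum_boole, hPc, hHc, hc, sub_self]
  have hs2 : ∑ x ∈ S, sg P H x * sg P H x = 2 * ((cls r c P).card : ℝ) := by
    have h1 : ∀ x ∈ S, sg P H x * sg P H x = (if x ∈ P then 1 else 0) +
        (if x ∈ H then 1 else 0) := by
      intro x _
      unfold sg
      by_cases h2 : x ∈ P
      · simp [h2, hnot x h2]
      · by_cases h3 : x ∈ H <;> simp [h2, h3]
    rw [Finset.sum_congr rfl h1, Finset.sum_add_distrib, Finset.sum_boole, Finset.sum_boole,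
      hPc, hHc, ← hc, hclsP]
    ring
  rw [hEn1, hEn2]
  unfold En
  have h4 : ∑ x ∈ S, ∑ y ∈ S, sg P H x * sg P H y * Real.log |(x : ℝ) - y| =
      ∑ x ∈ S, ∑ y ∈ S, sg P H x * sg P H y *
        Real.log |((x / r : ℕ) : ℝ) - ((y / r : ℕ) : ℝ)| +
      Real.log r * ((∑ x ∈ S, sg P H x) * (∑ y ∈ S, sg P H y) -
        ∑ x ∈ S, sg P H x * sg P H x) := by
    have h5 : ∀ x ∈ S, ∑ y ∈ S, sg P H x * sg P H y * Real.log |(x : ℝ) - y| =
        ∑ y ∈ S, sg P H x * sg P H y * Real.log |((x / r : ℕ) : ℝ) - ((y / r : ℕ) : ℝ)| +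
        Real.log r * (sg P H x * (∑ y ∈ S, sg P H y) - sg P H x * sg P H x) := by
      intro x hx
      have h6 : ∀ y ∈ S, sg P H x * sg P H y * Real.log |(x : ℝ) - y| =
          sg P H x * sg P H y * Real.log |((x / r : ℕ) : ℝ) - ((y / r : ℕ) : ℝ)| +
          (Real.log r * sg P H x * sg P H y -
            (if x = y then Real.log r * sg P H x * sg P H y else 0)) := by
        intro y hy
        rw [hlog x hx y hy]
        split_ifs <;> ring
      rw [Finset.sum_congr rfl h6, Finset.sum_add_distrib, Finset.sum_sub_distrib,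
        Finset.sum_ite_eq, if_pos hx, ← Finset.mul_sum]
      ring
    rw [Finset.sum_congr rfl h5, Finset.sum_add_distrib, ← Finset.mul_sum,
      Finset.sum_sub_distrib, ← Finset.sum_mul]
  rw [h4, hs1, hs2]
  ring

end MPbcd198.C
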