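import Pool.Agent.Lib.MP_bcd198_co.C.Defs

/-!
# MP_bcd198_co, C/E8a: factorials; particles and holes of residue classes
-/

set_option autoImplicit false

namespace MPbcd198.C

open Equiv

private theorem E8a_mul (r k : ℕ) : r ^ (r * k) * k.factorial ^ r ≤ (r * k).factorial * (r * k + 1) ^ r := by
  induction k with
  | zero => simp
  | succ k ih =>
    have h1 : (r * k).factorial * (r * k + 1) ^ r ≤ (r * k + r).factorial :=
      Nat.factorial_mul_pow_le_factorial
    calc r ^ (r * (k + 1)) * (k + 1).factorial ^ r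
        = (r ^ (r * k) * k.factorial ^ r) * (r * k + r) ^ r := by
          rw [Nat.factorial_succ, mul_pow, mul_add, mul_one, pow_add, show r * k + r = r * (k + 1) by ring, mul_pow]
          ring
      _ ≤ ((r * k).factorial * (r * k + 1) ^ r) * (r * k + r) ^ r := Nat.mul_le_mul_right _ ih
      _ ≤ (r * k + r).factorial * (r * k + r) ^ r := Nat.mul_le_mul_right _ h1
      _ ≤ (r * k + r).factorial * (r * k + r + 1) ^ r :=
          Nat.mul_le_mul_left _ (Nat.pow_le_pow_left (Nat.le_succ _) _)
      _ = (r * (k + 1)).factorial * (r * (k + 1) + 1) ^ r := by rw [mul_add, mul_one]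

private theorem E8a_add (n m : ℕ) : (n + m).factorial ≤ n.factorial * (n + m) ^ m := by
  induction m with
  | zero => simp
  | succ m ih =>
    calc (n + (m + 1)).factorial = (n + m + 1) * (n + m).factorial := by
          rw [← add_assoc, Nat.factorial_succ]
      _ ≤ (n + m + 1) * (n.factorial * (n + m) ^ m) := Nat.mul_le_mul_left _ ih
      _ ≤ (n + m + 1) * (n.factorial * (n + m + 1) ^ m) :=
          Nat.mul_le_mul_left _ (Nat.mul_le_mul_left _ (Nat.pow_le_pow_left (Nat.le_succ _) _))
      _ = n.factorial * (n + (m + 1)) ^ (m + 1) := by rw [← add_assoc, pow_succ]; ring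

private theorem E8a_q (r q : ℕ) : (r * q).factorial ≤ r ^ (r * q) * q.factorial ^ r := by
  induction q with
  | zero => simp
  | succ q ih =>
    calc (r * (q + 1)).factorial = (r * q + r).factorial := by rw [mul_add, mul_one]
      _ ≤ (r * q).factorial * (r * q + r) ^ r := E8a_add _ _
      _ ≤ (r ^ (r * q) * q.factorial ^ r) * (r * q + r) ^ r := Nat.mul_le_mul_right _ ih
      _ = r ^ (r * (q + 1)) * (q + 1).factorial ^ r := by
          rw [Nat.factorial_succ, mul_pow, mul_add, mul_one, pow_add, show r * q + r = r * (q + 1) by ring, mul_pow]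
          ring

private theorem E8a_div (r a : ℕ) (hr : 1 ≤ r) : a.factorial ≤ r ^ a * (a / r).factorial ^ r * (a + 1) ^ r := by
  have ha : r * (a / r) + a % r = a := Nat.div_add_mod a r
  have hs : a % r < r := Nat.mod_lt _ hr
  calc a.factorial = (r * (a / r) + a % r).factorial := by rw [ha]
    _ ≤ (r * (a / r)).factorial * (r * (a / r) + a % r) ^ (a % r) := E8a_add _ _
    _ = (r * (a / r)).factorial * a ^ (a % r) := by rw [ha]
    _ ≤ (r ^ (r * (a / r)) * (a / r).factorial ^ r) * (a + 1) ^ r := by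
        refine Nat.mul_le_mul (E8a_q _ _) ?_
        exact (Nat.pow_le_pow_left (Nat.le_succ a) _).trans (Nat.pow_le_pow_right (Nat.succ_pos a) hs.le)
    _ ≤ (r ^ a * (a / r).factorial ^ r) * (a + 1) ^ r := by
        refine Nat.mul_le_mul_right _ (Nat.mul_le_mul_right _ (Nat.pow_le_pow_right hr ?_))
        omega

/-- `r^{rk} (k!)^r ≤ (rk)! (rk+1)^r` by induction on `k`: the quotient of the steps is
`∏_{i=1}^r (rk+i) (rk+r+1)^r / ((rk+1)^r (rk+r)^r) ≥ 1` since every factor `rk+i ≥ rk+1` -/
theorem log_factorial_mul_le (r k : ℕ) (hr : 1 ≤ r) :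
    (r : ℝ) * Real.log (k.factorial : ℝ) ≤ Real.log ((r * k).factorial : ℝ) -
      (r * k : ℝ) * Real.log r + r * Real.log ((r * k : ℝ) + 1) := by
  have h1 : ((r : ℝ) ^ (r * k) * (k.factorial : ℝ) ^ r) ≤ ((r * k).factorial : ℝ) * ((r * k : ℝ) + 1) ^ r := by
    exact_mod_cast E8a_mul r k
  have hr0 : (0 : ℝ) < r := by exact_mod_cast hr
  have hk0 : (0 : ℝ) < k.factorial := by exact_mod_cast Nat.factorial_pos k
  have hrk0 : (0 : ℝ) < (r * k).factorial := by exact_mod_cast Nat.factorial_pos (r * k)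
  have h10 : (0 : ℝ) < (r * k : ℝ) + 1 := by positivity
  have h2 := Real.log_le_log (by positivity) h1
  rw [Real.log_mul (by positivity) (by positivity), Real.log_mul (by positivity) (by positivity),
    Real.log_pow, Real.log_pow, Real.log_pow] at h2
  push_cast at h2
  linarith

/-- `a! ≤ r^a ((a/r)!)^r (a+1)^r`: write `a = r q + s`, `s < r`; `(rq)! ≤ r^{rq} (q!)^r` by induction on `q`
(`∏_{i=1}^r (rq+i) ≤ (r(q+1))^r`), the remaining `s` factors are `≤ a` -/
theorem log_factorial_div_le (r a : ℕ) (hr : 1 ≤ r) :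
    Real.log (a.factorial : ℝ) ≤ (a : ℝ) * Real.log r +
      r * Real.log ((a / r).factorial : ℝ) + r * Real.log ((a : ℝ) + 1) := by
  have h1 : (a.factorial : ℝ) ≤ (r : ℝ) ^ a * ((a / r).factorial : ℝ) ^ r * ((a : ℝ) + 1) ^ r := by
    exact_mod_cast E8a_div r a hr
  have hr0 : (0 : ℝ) < r := by exact_mod_cast hr
  have ha0 : (0 : ℝ) < a.factorial := by exact_mod_cast Nat.factorial_pos a
  have hq0 : (0 : ℝ) < (a / r).factorial := by exact_mod_cast Nat.factorial_pos (a / r)
  have h2 := Real.log_le_log ha0 h1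
  rw [Real.log_mul (by positivity) (by positivity), Real.log_mul (by positivity) (by positivity),
    Real.log_pow, Real.log_pow, Real.log_pow] at h2
  linarith

private theorem E8a_mem {r c : ℕ} (hc : c < r) (B : Finset ℕ) (y : ℕ) : y ∈ cls r c B ↔ r * y + c ∈ B := by
  unfold cls
  rw [Finset.mem_image]
  constructor
  · rintro ⟨x, hx, rfl⟩
    rw [Finset.mem_filter] at hx
    rw [← hx.2, Nat.div_add_mod]
    exact hx.1
  · intro h
    refine ⟨r * y + c, Finset.mem_filter.2 ⟨h, ?_⟩, ?_⟩
    · rw [Nat.mul_add_mod, Nat.mod_eq_of_lt hc]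
    · rw [Nat.mul_add_div (by omega), Nat.div_eq_of_lt hc, add_zero]

private theorem E8a_lt {r c M y : ℕ} (hc : c < r) : r * y + c < r * M ↔ y < M := by
  constructor
  · intro h
    by_contra h2
    have h3 : r * M ≤ r * y := Nat.mul_le_mul_left _ (not_lt.1 h2)
    omega
  · intro h
    have h3 : r * (y + 1) ≤ r * M := Nat.mul_le_mul_left _ h
    rw [mul_add, mul_one] at h3
    omega

/-- if `B.card = r * M` and the class has `M` elements then the particles of the class are the
class of the particles: `x ≥ r M ↔ x / r ≥ M` -/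
theorem PP_cls {r c M : ℕ} (hr : 1 ≤ r) (hc : c < r) (B : Finset ℕ) (hB : B.card = r * M)
    (h : (cls r c B).card = M) : PP (cls r c B) = cls r c (PP B) := by
  ext y
  rw [E8a_mem hc]
  unfold PP
  rw [Finset.mem_filter, Finset.mem_filter, E8a_mem hc, h, hB, ← not_lt, ← not_lt, E8a_lt hc]

theorem HH_cls {r c M : ℕ} (hr : 1 ≤ r) (hc : c < r) (B : Finset ℕ) (hB : B.card = r * M)
    (h : (cls r c B).card = M) : HH (cls r c B) = cls r c (HH B) := by
  ext y
  rw [E8a_mem hc]
  unfold HH
  rw [Finset.mem_filter, Finset.mem_filter, E8a_mem hc, h, hB, Finset.mem_range, Finset.mem_range, E8a_lt hc]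

private theorem E8a_inj (r c : ℕ) (S : Finset ℕ) :
    Set.InjOn (fun x => x / r) (S.filter fun x => x % r = c : Finset ℕ) := by
  intro x hx y hy hxy
  rw [Finset.mem_coe, Finset.mem_filter] at hx hy
  have hxy' : x / r = y / r := hxy
  rw [← Nat.div_add_mod x r, ← Nat.div_add_mod y r, hx.2, hy.2, hxy']

/-- sums over the classes -/
theorem sum_cls {r : ℕ} (hr : 1 ≤ r) (S : Finset ℕ) (g : ℕ → ℝ) :
    ∑ c ∈ Finset.range r, ∑ y ∈ cls r c S, g y = ∑ x ∈ S, g (x / r) := by
  rw [← Finset.sum_fiberwise_of_maps_to (s := S) (t := Finset.range r) (g := fun x => x % r)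
    (fun x _ => Finset.mem_range.2 (Nat.mod_lt x hr)) (fun x => g (x / r))]
  refine Finset.sum_congr rfl fun c _ => ?_
  unfold cls
  rw [Finset.sum_image (E8a_inj r c S)]

theorem card_cls_filter {r c : ℕ} (hr : 1 ≤ r) (S : Finset ℕ) :
    (cls r c S).card = (S.filter fun x => x % r = c).card := by
  unfold cls
  exact Finset.card_image_of_injOn (E8a_inj r c S)

end MPbcd198.C
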