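import Pool.Agent.Lib.MP_bcd198_co.C.E4
import Pool.Agent.Lib.MP_bcd198_co.C.E6
import Pool.Agent.Lib.MP_bcd198_co.C.E7
import Pool.Agent.Lib.MP_bcd198_co.C.E8a
import Pool.Agent.Lib.MP_bcd198_co.C.B3

/-!
# MP_bcd198_co, C/E8: the character bound with the Durfee size
-/

set_option autoImplicit false

namespace MPbcd198.C

open Equiv Pool.Agent.Lib.MP_463376_co Pool.Agent.Lib.MP_463376_co.Hs

/-- energy of the whole `β`-set and of the classes (`En_split`, `En_scale`, `PP_cls`, `HH_cls`,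
`card_PP_eq`), `D = (PP B).card`:
`En(B) ≤ r ∑_c En(cls c B) + r D log r + (r²/2) log D!` -/
theorem En_bset_le {r M : ℕ} (hr : 1 ≤ r) (B : Finset ℕ) (hB : B.card = r * M)
    (h : ∀ c < r, (cls r c B).card = M) :
    En (PP B ∪ HH B) (sg (PP B) (HH B)) ≤
      (r : ℝ) * ∑ c ∈ Finset.range r,
        En (PP (cls r c B) ∪ HH (cls r c B)) (sg (PP (cls r c B)) (HH (cls r c B))) +
      r * (PP B).card * Real.log r + (r : ℝ) ^ 2 / 2 * Real.log ((PP B).card.factorial : ℝ) := by
  have hPc : ∀ c < r, PP (cls r c B) = cls r c (PP B) := fun c hc => PP_cls hr hc B hB (h c hc)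
  have hHc : ∀ c < r, HH (cls r c B) = cls r c (HH B) := fun c hc => HH_cls hr hc B hB (h c hc)
  have hcard : ∀ c < r, ((PP B).filter fun x => x % r = c).card =
      ((HH B).filter fun x => x % r = c).card := by
    intro c hc
    rw [← card_cls_filter hr, ← card_cls_filter hr, ← hPc c hc, ← hHc c hc]
    exact card_PP_eq _
  have h1 := En_split hr (PP_HH_disjoint B) hcard
  have h2 : ∑ c ∈ Finset.range r, En (PP B ∪ HH B) (rc r c (sg (PP B) (HH B))) =
      ∑ c ∈ Finset.range r,
        En (PP (cls r c B) ∪ HH (cls r c B)) (sg (PP (cls r c B)) (HH (cls r c B))) +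
      (PP B).card * Real.log r := by
    have h3 : ∀ c ∈ Finset.range r, En (PP B ∪ HH B) (rc r c (sg (PP B) (HH B))) =
        En (PP (cls r c B) ∪ HH (cls r c B)) (sg (PP (cls r c B)) (HH (cls r c B))) +
          ((cls r c (PP B)).card : ℝ) * Real.log r := by
      intro c hc
      have hc' := Finset.mem_range.1 hc
      rw [En_scale hr hc' (PP_HH_disjoint B) (hcard c hc'), hPc c hc', hHc c hc']
    rw [Finset.sum_congr rfl h3, Finset.sum_add_distrib, ← Finset.sum_mul, ← Nat.cast_sum,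
      card_cls_sum hr]
  rw [h2] at h1
  linarith

private theorem E8_div {r M x : ℕ} (hr : 1 ≤ r) (hx : x < r * M) :
    (r * M - 1 - x) / r = M - 1 - x / r := by
  have h1 : x = r * (x / r) + x % r := (Nat.div_add_mod x r).symm
  have h2 : x % r < r := Nat.mod_lt _ hr
  have h3 : x / r < M := Nat.div_lt_of_lt_mul hx
  obtain ⟨q, hq⟩ : ∃ q, q = x / r := ⟨_, rfl⟩
  obtain ⟨s, hs⟩ : ∃ s, s = x % r := ⟨_, rfl⟩
  rw [← hq, ← hs] at h1
  rw [← hs] at h2
  rw [← hq] at h3 ⊢
  obtain ⟨t, ht⟩ : ∃ t, M = q + 1 + t := ⟨M - (q + 1), by omega⟩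
  have h4 : r * M = r * q + r + r * t := by rw [ht]; ring
  have h5 : M - 1 - q = t := by omega
  rw [h5]
  apply Nat.div_eq_of_lt_le
  · rw [mul_comm t r]; omega
  · rw [Nat.succ_mul, mul_comm t r]; omega

/-- the factorials: with `N = r M`, `((p - N)/r) = p/r - M` and `(N-1-h)/r = M - 1 - h/r`
(`log_factorial_div_le`, `sum_cls`) -/
theorem factorials_le {r M : ℕ} (hr : 1 ≤ r) (B : Finset ℕ) (hB : B.card = r * M)
    (h : ∀ c < r, (cls r c B).card = M) (n : ℕ)
    (hn : ∑ p ∈ PP B, (p - B.card) + ∑ x ∈ HH B, (B.card - 1 - x) + (PP B).card = n) :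
    ∑ p ∈ PP B, Real.log ((p - B.card).factorial : ℝ) +
      ∑ x ∈ HH B, Real.log ((B.card - 1 - x).factorial : ℝ) ≤
    (r : ℝ) * ∑ c ∈ Finset.range r,
      (∑ p ∈ PP (cls r c B), Real.log ((p - (cls r c B).card).factorial : ℝ) +
        ∑ x ∈ HH (cls r c B), Real.log (((cls r c B).card - 1 - x).factorial : ℝ)) +
      ((n : ℝ) - (PP B).card) * Real.log r + 2 * r * (PP B).card * Real.log ((n : ℝ) + 1) := by
  have hPc : ∀ c < r, PP (cls r c B) = cls r c (PP B) := fun c hc => PP_cls hr hc B hB (h c hc)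
  have hHc : ∀ c < r, HH (cls r c B) = cls r c (HH B) := fun c hc => HH_cls hr hc B hB (h c hc)
  have hr0 : (0 : ℝ) ≤ r := Nat.cast_nonneg r
  have hP : ∀ p ∈ PP B, Real.log ((p - B.card).factorial : ℝ) ≤
      ((p - B.card : ℕ) : ℝ) * Real.log r + r * Real.log ((p / r - M).factorial : ℝ) +
        r * Real.log ((n : ℝ) + 1) := by
    intro p hp
    have h1 := log_factorial_div_le r (p - B.card) hr
    have h2 : (p - B.card) / r = p / r - M := by rw [hB, Nat.sub_mul_div]
    rw [h2] at h1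
    have h3 : p - B.card ≤ n := by
      have := Finset.single_le_sum (f := fun p => p - B.card) (fun _ _ => Nat.zero_le _) hp
      omega
    have h4 : Real.log (((p - B.card : ℕ) : ℝ) + 1) ≤ Real.log ((n : ℝ) + 1) := by
      apply Real.log_le_log (by positivity)
      have : ((p - B.card : ℕ) : ℝ) ≤ n := by exact_mod_cast h3
      linarith
    have h5 := mul_le_mul_of_nonneg_left h4 hr0
    linarith
  have hH : ∀ x ∈ HH B, Real.log ((B.card - 1 - x).factorial : ℝ) ≤
      ((B.card - 1 - x : ℕ) : ℝ) * Real.log r + r * Real.log ((M - 1 - x / r).factorial : ℝ) +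
        r * Real.log ((n : ℝ) + 1) := by
    intro x hx
    have hxN : x < r * M := by
      have := (Finset.mem_filter.1 hx).1
      rw [Finset.mem_range, hB] at this
      exact this
    have h1 := log_factorial_div_le r (B.card - 1 - x) hr
    have h2 : (B.card - 1 - x) / r = M - 1 - x / r := by rw [hB]; exact E8_div hr hxN
    rw [h2] at h1
    have h3 : B.card - 1 - x ≤ n := by
      have := Finset.single_le_sum (f := fun x => B.card - 1 - x) (fun _ _ => Nat.zero_le _) hx
      omega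
    have h4 : Real.log (((B.card - 1 - x : ℕ) : ℝ) + 1) ≤ Real.log ((n : ℝ) + 1) := by
      apply Real.log_le_log (by positivity)
      have : ((B.card - 1 - x : ℕ) : ℝ) ≤ n := by exact_mod_cast h3
      linarith
    have h5 := mul_le_mul_of_nonneg_left h4 hr0
    linarith
  have hsP := Finset.sum_le_sum hP
  have hsH := Finset.sum_le_sum hH
  rw [Finset.sum_add_distrib, Finset.sum_add_distrib, ← Finset.sum_mul, ← Finset.mul_sum,
    Finset.sum_const, nsmul_eq_mul] at hsP hsH
  have e1 : ∑ c ∈ Finset.range r,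
      (∑ p ∈ PP (cls r c B), Real.log ((p - (cls r c B).card).factorial : ℝ) +
        ∑ x ∈ HH (cls r c B), Real.log (((cls r c B).card - 1 - x).factorial : ℝ)) =
      ∑ p ∈ PP B, Real.log ((p / r - M).factorial : ℝ) +
        ∑ x ∈ HH B, Real.log ((M - 1 - x / r).factorial : ℝ) := by
    rw [← sum_cls hr (PP B) (fun y => Real.log ((y - M).factorial : ℝ)),
      ← sum_cls hr (HH B) (fun y => Real.log ((M - 1 - y).factorial : ℝ)),
      ← Finset.sum_add_distrib]
    refine Finset.sum_congr rfl fun c hc => ?_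
    have hc' := Finset.mem_range.1 hc
    rw [hPc c hc', hHc c hc', h c hc']
  rw [e1]
  have e2 : (((∑ p ∈ PP B, (p - B.card) : ℕ) : ℝ)) + ((∑ x ∈ HH B, (B.card - 1 - x) : ℕ) : ℝ) =
      (n : ℝ) - (PP B).card := by
    rw [← hn]
    push_cast
    ring
  have e3 : ((HH B).card : ℝ) = (PP B).card := by rw [card_PP_eq]
  rw [e3] at hsH
  rw [← Nat.cast_sum] at hsP hsH
  have e4 : (((n : ℝ) - (PP B).card)) * Real.log r =
      ((∑ p ∈ PP B, (p - B.card) : ℕ) : ℝ) * Real.log r +
        ((∑ x ∈ HH B, (B.card - 1 - x) : ℕ) : ℝ) * Real.log r := by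
    rw [← e2]
    ring
  rw [e4]
  linarith

/-- Let `B = bset N lam` with `N` a multiple of `r`, `N ≥ lam.colLen 0`.  If `ch ≠ 0` all classes have
`N/r` elements (`ch_rect_zero`), and with `abs_ch_rect`, `fd_eq`, `log_FF` (for `B` and for the classes),
`En_bset_le`, `factorials_le` (`sum_frob`), `log_factorial_mul_le`:
`r log|ch| - log fd ≤ -n log r + r log(n+1) + r D log r + (r²/2) D log D + (n-D) log r + 2rD log(n+1)`
`≤ 10 r² (D+1) log(n+1)`; `D = dur lam ≤ n` (`card_PP_bset`), `log r ≤ log (n+1)` if `k ≥ 1`; for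
`k = 0` (`lam = ⊥`, `ch = fd = 1`) trivial. -/
theorem ch_pow_le {ι : Type} [Fintype ι] [DecidableEq ι] {r k : ℕ} (hr : 1 ≤ r)
    (w : Perm ι) (h : ∀ x, Function.minimalPeriod (⇑w) x = r) (hc : Fintype.card ι = r * k)
    (lam : YoungDiagram) (hl : lam.card = Fintype.card ι) :
    |ch ℝ lam w| ^ r ≤ ((lam.card : ℝ) + 1) ^ (10 * r ^ 2 * (dur lam + 1)) * fd lam := by
  have hfd : 1 ≤ fd lam := one_le_fd lam
  rcases Nat.eq_zero_or_pos k with hk | hk
  · have h0 : Fintype.card ι = 0 := by rw [hc, hk, mul_zero]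
    have hw : w = 1 := by
      have := Fintype.card_eq_zero_iff.1 h0
      exact Subsingleton.elim _ _
    have h1 : fd lam = 1 := by
      rw [eq_bot_of_card (hl.trans h0), fd_bot]
    rw [hw, ch_one hl, h1, hl, h0]
    simp
  obtain ⟨n, hn⟩ : ∃ n, n = lam.card := ⟨_, rfl⟩
  have hnk : n = r * k := by rw [hn, hl, hc]
  have hrn : r ≤ n := by rw [hnk]; exact Nat.le_mul_of_pos_right r hk
  have hcol : lam.colLen 0 ≤ r * n := by
    have := colLen_zero_le_card lam
    rw [← hn] at this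
    nlinarith
  have hNr : r * n / r = n := Nat.mul_div_cancel_left n hr
  have hBc : (bset (r * n) lam).card = r * n := card_bset _ _
  by_cases hcl : ∀ c < r, (cls r c (bset (r * n) lam)).card = r * n / r
  swap
  · push Not at hcl
    obtain ⟨c, hc1, hc2⟩ := hcl
    rw [ch_rect_zero hr w h hc lam hl hcol (Dvd.intro _ rfl) ⟨c, hc1, hc2⟩, abs_zero,
      zero_pow (by omega)]
    positivity
  have habs := abs_ch_rect hr w h hc lam hl hcol (Dvd.intro _ rfl) hcl
  rw [hNr] at hcl
  have hfdeq := fd_eq lam hcol (by linarith)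
  have hFF := log_FF (bset (r * n) lam)
  have hEn := En_bset_le hr (bset (r * n) lam) hBc hcl
  have hfr := sum_frob lam hcol
  rw [← hn] at hfr
  have hfac := factorials_le hr (bset (r * n) lam) hBc hcl n hfr
  have hkf := log_factorial_mul_le r k hr
  obtain ⟨D, hD⟩ : ∃ D, D = (PP (bset (r * n) lam)).card := ⟨_, rfl⟩
  have hDd : D = dur lam := by rw [hD, card_PP_bset lam hcol]
  have hDn : D ≤ n := by rw [← hD] at hfr; omega
  rw [← hD] at hEn hfac
  -- logarithms
  have hlogch : Real.log |ch ℝ lam w| = Real.log (k.factorial : ℝ) +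
      ∑ c ∈ Finset.range r, Real.log (FF (cls r c (bset (r * n) lam))) := by
    rw [habs, Real.log_mul (by positivity) (Finset.prod_ne_zero_iff.2 fun c _ => (FF_pos _).ne'),
      Real.log_prod fun c _ => (FF_pos _).ne']
  have hlogfd : Real.log (fd lam) = Real.log (n.factorial : ℝ) +
      Real.log (FF (bset (r * n) lam)) := by
    rw [hfdeq, Real.log_mul (by positivity) (FF_pos _).ne', hn]
  have hsum : ∑ c ∈ Finset.range r, Real.log (FF (cls r c (bset (r * n) lam))) =
      -(∑ c ∈ Finset.range r,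
        En (PP (cls r c (bset (r * n) lam)) ∪ HH (cls r c (bset (r * n) lam)))
          (sg (PP (cls r c (bset (r * n) lam))) (HH (cls r c (bset (r * n) lam))))) -
      ∑ c ∈ Finset.range r,
      (∑ p ∈ PP (cls r c (bset (r * n) lam)),
          Real.log ((p - (cls r c (bset (r * n) lam)).card).factorial : ℝ) +
        ∑ x ∈ HH (cls r c (bset (r * n) lam)),
          Real.log (((cls r c (bset (r * n) lam)).card - 1 - x).factorial : ℝ)) := by
    rw [← Finset.sum_neg_distrib, ← Finset.sum_sub_distrib]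
    refine Finset.sum_congr rfl fun c _ => ?_
    have := log_FF (cls r c (bset (r * n) lam))
    linarith
  have hL : 0 ≤ Real.log ((n : ℝ) + 1) := Real.log_nonneg (by
    have : (0 : ℝ) ≤ n := Nat.cast_nonneg n
    linarith)
  have hlogr0 : 0 ≤ Real.log (r : ℝ) := Real.log_nonneg (by exact_mod_cast hr)
  have hlogr : Real.log (r : ℝ) ≤ Real.log ((n : ℝ) + 1) := by
    apply Real.log_le_log (by exact_mod_cast hr)
    have : (r : ℝ) ≤ n := by exact_mod_cast hrn
    linarith
  have hlogD : Real.log (D.factorial : ℝ) ≤ D * Real.log ((n : ℝ) + 1) := by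
    have h1 : (D.factorial : ℝ) ≤ ((n : ℝ) + 1) ^ D := by
      calc (D.factorial : ℝ) ≤ (D : ℝ) ^ D := by exact_mod_cast Nat.factorial_le_pow D
        _ ≤ ((n : ℝ) + 1) ^ D := by
            apply pow_le_pow_left₀ (Nat.cast_nonneg D)
            have : (D : ℝ) ≤ n := by exact_mod_cast hDn
            linarith
    calc Real.log (D.factorial : ℝ) ≤ Real.log (((n : ℝ) + 1) ^ D) :=
          Real.log_le_log (by positivity) h1
      _ = D * Real.log ((n : ℝ) + 1) := by rw [Real.log_pow]
  have hr1 : (1 : ℝ) ≤ r := by exact_mod_cast hr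
  have hD0 : (0 : ℝ) ≤ D := Nat.cast_nonneg D
  rw [← hnk] at hkf
  have hnk' : (r : ℝ) * k = n := by rw [hnk]; push_cast; ring
  rw [hnk'] at hkf
  have hmain : (r : ℝ) * Real.log |ch ℝ lam w| ≤
      ((10 * r ^ 2 * (D + 1) : ℕ) : ℝ) * Real.log ((n : ℝ) + 1) + Real.log (fd lam) := by
    rw [hlogch, hlogfd, hsum]
    have a1 : (r : ℝ) ^ 2 / 2 * Real.log (D.factorial : ℝ) ≤
        (r : ℝ) ^ 2 / 2 * (D * Real.log ((n : ℝ) + 1)) :=
      mul_le_mul_of_nonneg_left hlogD (by positivity)
    have a2 : (r : ℝ) * D * Real.log r ≤ (r : ℝ) * D * Real.log ((n : ℝ) + 1) :=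
      mul_le_mul_of_nonneg_left hlogr (by positivity)
    have a3 : (0 : ℝ) ≤ D * Real.log r := by positivity
    have a4 : ((10 * r ^ 2 * (D + 1) : ℕ) : ℝ) = 10 * (r : ℝ) ^ 2 * (D + 1) := by push_cast; ring
    rw [a4]
    have a5 : ((r : ℝ) + r * D + r ^ 2 / 2 * D + 2 * r * D) ≤ 10 * (r : ℝ) ^ 2 * (D + 1) := by
      have b1 : (r : ℝ) ≤ r ^ 2 := by nlinarith
      have b2 : (r : ℝ) * D ≤ r ^ 2 * D := mul_le_mul_of_nonneg_right b1 hD0
      nlinarith
    have a6 := mul_le_mul_of_nonneg_right a5 hL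
    nlinarith
  -- conclusion
  have hchpos : 0 < |ch ℝ lam w| := by
    rw [habs]
    exact mul_pos (by positivity) (Finset.prod_pos fun c _ => FF_pos _)
  have hfdpos : 0 < fd lam := by linarith
  rw [← hn, ← hDd, ← Real.log_le_log_iff (pow_pos hchpos r)
    (mul_pos (by positivity) hfdpos), Real.log_mul (by positivity) hfdpos.ne', Real.log_pow,
    Real.log_pow]
  exact hmain

end MPbcd198.C
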