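import Pool.Agent.Lib.MP_bcd198_co.C.E8
import Pool.Agent.Lib.MP_bcd198_co.C.B7

/-!
# MP_bcd198_co, C/E9: the weak Fomin-Lulov bound
-/

set_option autoImplicit false

namespace MPbcd198.C

open Equiv Pool.Agent.Lib.MP_463376_co Pool.Agent.Lib.MP_463376_co.Hs

/-- `ch_pow_le`: `|ch| ≤ (n+1)^{10 r (d+1)} f^{1/r}`; `fd_ge_dur` with `A = 10 r/η`:
`(n+1)^{10 r d} ≤ (c⁻¹ (n+1)^B f)^η`. -/
theorem ch_bound (r : ℕ) (hr : 1 ≤ r) (η : ℝ) (hη : 0 < η) : ∃ C : ℝ, 0 ≤ C ∧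
    ∀ (ι : Type) [Fintype ι] [DecidableEq ι] (w : Perm ι),
      (∀ x, Function.minimalPeriod (⇑w) x = r) → r ∣ Fintype.card ι →
      ∀ lam : YoungDiagram, lam.card = Fintype.card ι →
        |ch ℝ lam w| ≤ C * ((Fintype.card ι : ℝ) + 1) ^ C * fd lam ^ (1 / (r : ℝ) + η) := by
  obtain ⟨B, c, hc, hB⟩ := fd_ge_dur (10 * r / η)
  refine ⟨c ^ (-η) + |10 * r + B * η|, by positivity, ?_⟩
  intro ι _ _ w hw hdvd lam hl
  obtain ⟨k, hk⟩ := hdvd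
  have h1 := ch_pow_le hr w hw hk lam hl
  have h2 := hB lam
  rw [← hl]
  set n1 : ℝ := (lam.card : ℝ) + 1 with hn1
  have hn1' : 1 ≤ n1 := by
    have : (0 : ℝ) ≤ (lam.card : ℝ) := Nat.cast_nonneg _
    linarith
  have hn0 : 0 < n1 := by linarith
  have hr0 : (0 : ℝ) < r := by exact_mod_cast hr
  set f := fd lam with hf
  set d := dur lam with hd
  have hf0 : 0 < f := lt_of_lt_of_le (by positivity) h2
  have h3 : |ch ℝ lam w| ≤ n1 ^ (10 * (r : ℝ) * ((d : ℝ) + 1)) * f ^ (1 / (r : ℝ)) := by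
    have h4 : |ch ℝ lam w| = (|ch ℝ lam w| ^ r) ^ (1 / (r : ℝ)) := by
      rw [← Real.rpow_natCast, ← Real.rpow_mul (abs_nonneg _), mul_one_div_cancel hr0.ne',
        Real.rpow_one]
    rw [h4]
    refine (Real.rpow_le_rpow (pow_nonneg (abs_nonneg _) _) h1
      (one_div_nonneg.2 hr0.le)).trans (le_of_eq ?_)
    rw [Real.mul_rpow (pow_nonneg hn0.le _) hf0.le, ← Real.rpow_natCast n1, ← Real.rpow_mul hn0.le]
    congr 2
    push_cast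
    have hr1 : (r : ℝ) ≠ 0 := hr0.ne'
    rw [mul_one_div, div_eq_iff hr1]
    ring
  have h5 : n1 ^ (10 * (r : ℝ) * (d : ℝ)) ≤ c ^ (-η) * n1 ^ (B * η) * f ^ η := by
    have h6 : n1 ^ (10 * (r : ℝ) / η * (d : ℝ) - B) ≤ c⁻¹ * f := by
      rw [inv_mul_eq_div, le_div_iff₀ hc, mul_comm]
      exact h2
    have h7 := Real.rpow_le_rpow (by positivity) h6 hη.le
    rw [Real.mul_rpow (by positivity) hf0.le, Real.inv_rpow hc.le, ← Real.rpow_neg hc.le,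
      ← Real.rpow_mul hn0.le] at h7
    have h8 : n1 ^ (10 * (r : ℝ) * (d : ℝ)) =
        n1 ^ ((10 * (r : ℝ) / η * (d : ℝ) - B) * η) * n1 ^ (B * η) := by
      rw [← Real.rpow_add hn0]
      congr 1
      field_simp
      ring
    rw [h8]
    calc n1 ^ ((10 * (r : ℝ) / η * (d : ℝ) - B) * η) * n1 ^ (B * η)
        ≤ (c ^ (-η) * f ^ η) * n1 ^ (B * η) :=
          mul_le_mul_of_nonneg_right h7 (by positivity)
      _ = c ^ (-η) * n1 ^ (B * η) * f ^ η := by ring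
  have h9 : n1 ^ (10 * (r : ℝ) * ((d : ℝ) + 1)) = n1 ^ (10 * (r : ℝ)) * n1 ^ (10 * (r : ℝ) * (d : ℝ)) := by
    rw [← Real.rpow_add hn0]
    congr 1
    ring
  have hC1 : c ^ (-η) ≤ c ^ (-η) + |10 * (r : ℝ) + B * η| := by
    linarith [abs_nonneg (10 * (r : ℝ) + B * η)]
  have hC2 : 10 * (r : ℝ) + B * η ≤ c ^ (-η) + |10 * (r : ℝ) + B * η| := by
    have := le_abs_self (10 * (r : ℝ) + B * η)
    have : (0 : ℝ) ≤ c ^ (-η) := by positivity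
    linarith
  calc |ch ℝ lam w| ≤ n1 ^ (10 * (r : ℝ) * ((d : ℝ) + 1)) * f ^ (1 / (r : ℝ)) := h3
    _ = n1 ^ (10 * (r : ℝ)) * n1 ^ (10 * (r : ℝ) * (d : ℝ)) * f ^ (1 / (r : ℝ)) := by rw [h9]
    _ ≤ n1 ^ (10 * (r : ℝ)) * (c ^ (-η) * n1 ^ (B * η) * f ^ η) * f ^ (1 / (r : ℝ)) := by
        gcongr
    _ = c ^ (-η) * n1 ^ (10 * (r : ℝ) + B * η) * f ^ (1 / (r : ℝ) + η) := by
        rw [Real.rpow_add hn0, Real.rpow_add hf0]
        ring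
    _ ≤ (c ^ (-η) + |10 * (r : ℝ) + B * η|) * n1 ^ (c ^ (-η) + |10 * (r : ℝ) + B * η|) *
        f ^ (1 / (r : ℝ) + η) := by
        gcongr

end MPbcd198.C
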