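import Pool.Agent.Lib.MP_bcd198_co.C.Defs

/-!
# MP_bcd198_co, C/G1: expansion of class functions
-/

set_option autoImplicit false

namespace MPbcd198.C

open Equiv Pool.Agent.Lib.MP_463376_co Pool.Agent.Lib.MP_463376_co.Hs

section

variable (K : Type) [Field K] [CharZero K] {ι : Type} [Fintype ι] [DecidableEq ι]

/-- `hall_map`, `pcyc_map`, `schur_map` -/
theorem ch_map {K' : Type} [Field K'] [CharZero K'] (φ : K →+* K') (lam : YoungDiagram)
    (w : Perm ι) : ch K' lam w = φ (ch K lam w) := by
  unfold ch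
  rw [← hall_map φ, pcyc_map φ, schur_map φ]

theorem ch_conj (lam : YoungDiagram) (w w' : Perm ι) : ch K lam (w * w' * w⁻¹) = ch K lam w' := by
  unfold ch
  rw [pcyc_conj]

theorem ch_inv (lam : YoungDiagram) (w : Perm ι) : ch K lam w⁻¹ = ch K lam w := by
  unfold ch
  rw [pcyc_inv]

omit [CharZero K] in
private theorem G1_isConj {w w' : Perm ι} (h : cyc w' = cyc w) : ∃ c : Perm ι, c * w * c⁻¹ = w' := by
  rw [← isConj_iff]
  rw [Equiv.Perm.partition_eq_of_isConj]
  ext1
  refine Multiset.ext.2 fun k => ?_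
  rcases Nat.eq_zero_or_pos k with hk | hk
  · subst hk
    rw [Multiset.count_eq_zero_of_notMem, Multiset.count_eq_zero_of_notMem]
    · intro h0
      exact absurd (w'.partition.parts_pos h0) (lt_irrefl _)
    · intro h0
      exact absurd (w.partition.parts_pos h0) (lt_irrefl _)
  · obtain ⟨i, rfl⟩ : ∃ i, k = i + 1 := ⟨k - 1, by omega⟩
    have h1 := DFunLike.congr_fun h i
    rw [hPars_cyc_apply, hPars_cyc_apply] at h1
    exact h1.symm

/-- a class function with `frob f = 0` is zero: the coefficient of `frob f` at `cyc w` is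
`(1/n!) #{w' : cyc w' = cyc w} f w` (`pcyc_eq`; permutations with the same `cyc` are conjugate:
`Equiv.Perm.partition_eq_of_isConj`) -/
theorem eq_zero_of_frob {f : Perm ι → K} (hf : ∀ w w', f (w * w' * w⁻¹) = f w')
    (h : frob f = 0) : ∀ w, f w = 0 := by
  classical
  intro w
  have h1 : (frob f).coeff (cyc w) = 0 := by rw [h, MvPolynomial.coeff_zero]
  rw [frob, MvPolynomial.coeff_C_mul, MvPolynomial.coeff_sum] at h1
  have h2 : ∀ w' : Perm ι, MvPolynomial.coeff (cyc w) (MvPolynomial.C (f w') * pcyc K w') =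
      if cyc w' = cyc w then f w else 0 := by
    intro w'
    rw [MvPolynomial.coeff_C_mul, pcyc_eq, MvPolynomial.coeff_monomial]
    by_cases hc : cyc w' = cyc w
    · obtain ⟨c, hc'⟩ := G1_isConj hc
      rw [if_pos hc, if_pos hc, mul_one, ← hc', hf]
    · rw [if_neg hc, if_neg hc, mul_zero]
  rw [Finset.sum_congr rfl fun w' _ => h2 w', ← Finset.sum_filter, Finset.sum_const,
    nsmul_eq_mul] at h1
  have h3 : (((Fintype.card ι).factorial : ℕ) : K)⁻¹ ≠ 0 := by
    refine inv_ne_zero ?_
    exact_mod_cast Nat.factorial_ne_zero _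
  have h4 : ((Finset.univ.filter fun w' : Perm ι => cyc w' = cyc w).card : K) ≠ 0 := by
    have : (Finset.univ.filter fun w' : Perm ι => cyc w' = cyc w).Nonempty :=
      ⟨w, by simp⟩
    exact_mod_cast this.card_pos.ne'
  rcases mul_eq_zero.1 h1 with h5 | h5
  · exact absurd h5 h3
  · rcases mul_eq_zero.1 h5 with h6 | h6
    · exact absurd h6 h4
    · exact h6

private theorem G1_frob_ch (lam : YoungDiagram) (hl : lam.card = Fintype.card ι) :
    frob (fun w : Perm ι => ch K lam w) = schur K lam := by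
  have h1 : WH (schur K lam) (Fintype.card ι) := by
    rw [← hl]
    exact schur_wh lam
  exact parseval (ι := ι) _ h1

/-- completeness: `schur_expand'` for `frob f` (`WH (frob f) (card ι)` by `pcyc_wh`), `parseval` for
`f - ∑ a_λ χ^λ`, `eq_zero_of_frob` -/
theorem class_expand (f : Perm ι → K) (hf : ∀ w w', f (w * w' * w⁻¹) = f w')
    (s : Finset YoungDiagram) (hs : ∀ lam, lam ∈ s ↔ lam.card = Fintype.card ι) (w : Perm ι) :
    f w = ∑ lam ∈ s, hall (frob f) (schur K lam) * ch K lam w := by
  classical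
  have hwh : WH (frob f) (Fintype.card ι) := by
    have h1 : WH (∑ w : Perm ι, MvPolynomial.C (f w) * pcyc K w) (Fintype.card ι) := by
      refine MvPolynomial.IsWeightedHomogeneous.sum _ _ _ fun w' _ => ?_
      have h2 := (MvPolynomial.isWeightedHomogeneous_C (R := K) (fun i : ℕ => i + 1) (f w')).mul
        (pcyc_wh (K := K) w')
      rw [zero_add] at h2
      exact h2
    have h3 := (MvPolynomial.isWeightedHomogeneous_C (R := K) (fun i : ℕ => i + 1)
      ((((Fintype.card ι).factorial : ℕ) : K)⁻¹)).mul h1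
    rw [zero_add] at h3
    exact h3
  have hex := schur_expand' (frob f) (Fintype.card ι) hwh s hs
  set g : Perm ι → K := fun w' => f w' - ∑ lam ∈ s, hall (frob f) (schur K lam) * ch K lam w'
    with hg
  have hgc : ∀ w w', g (w * w' * w⁻¹) = g w' := by
    intro w1 w2
    simp only [hg, hf, ch_conj]
  have hg0 : frob g = 0 := by
    have h1 : frob g = frob f - ∑ lam ∈ s, MvPolynomial.C (hall (frob f) (schur K lam)) *
        frob (fun w : Perm ι => ch K lam w) := by
      simp only [frob, hg, MvPolynomial.C_sub, map_sum, MvPolynomial.C_mul, sub_mul,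
        Finset.sum_sub_distrib, mul_sub]
      rw [sub_right_inj]
      simp only [Finset.sum_mul, Finset.mul_sum]
      rw [Finset.sum_comm]
      refine Finset.sum_congr rfl fun lam _ => Finset.sum_congr rfl fun w' _ => ?_
      ring
    rw [h1, sub_eq_zero]
    refine hex.trans ?_
    refine Finset.sum_congr rfl fun lam hlam => ?_
    rw [G1_frob_ch K lam ((hs lam).1 hlam)]
  have h1 := eq_zero_of_frob K hgc hg0 w
  exact sub_eq_zero.1 h1

/-- orthonormality: `hall_frob` and `parseval` for `g = schur K mu`, `schur_orthonormal'` -/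
theorem ch_ortho (lam mu : YoungDiagram) (hl : lam.card = Fintype.card ι)
    (hm : mu.card = Fintype.card ι) [Decidable (lam = mu)] :
    (((Fintype.card ι).factorial : ℕ) : K)⁻¹ * ∑ w : Perm ι, ch K lam w * ch K mu w =
      if lam = mu then 1 else 0 := by
  have h1 := hall_frob (K := K) (fun w : Perm ι => ch K lam w) (schur K mu)
  rw [G1_frob_ch K lam hl, schur_orthonormal'] at h1
  have h2 : (((Fintype.card ι).factorial : ℕ) : K)⁻¹ * ∑ w : Perm ι, ch K lam w * ch K mu w =
      (((Fintype.card ι).factorial : ℕ) : K)⁻¹ *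
        ∑ w : Perm ι, ch K lam w * hall (pcyc K w) (schur K mu) := rfl
  rw [h2, ← h1]
  by_cases h : lam = mu
  · rw [if_pos h, if_pos h]
  · rw [if_neg h, if_neg h]

end

end MPbcd198.C
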