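import Mathlib

/-!
# MP_bcd198_co, C/G2: positive definite class functions and idempotents
-/

set_option autoImplicit false

namespace MPbcd198.C

open Matrix in
/-- `T` positive semidefinite, `R` idempotent, `TR = RT` (`R` need not be symmetric): `tr(TR) ≥ 0`.
Let `Q` be the matrix of the orthogonal projection onto the range of `R`: `RQ = Q`, `QR = R`,
`Q = Qᵀ = Q²`.  `tr(TR) = tr(TQR) = tr(RTQ) = tr(TRQ) = tr(TQ) = tr(QTQ) ≥ 0`. -/
theorem trace_nonneg_of_commute {n : Type} [Fintype n] [DecidableEq n] {T R : Matrix n n ℝ}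
    (hT : T.PosSemidef) (hR : R * R = R) (h : T * R = R * T) : 0 ≤ (T * R).trace := by
  -- `M = R + Rᵀ - 1` is invertible, `Q = R M⁻¹`
  have hRt : Rᵀ * Rᵀ = Rᵀ := by rw [← Matrix.transpose_mul, hR]
  set M : Matrix n n ℝ := R + Rᵀ - 1 with hM
  have hMt : Mᵀ = M := by
    rw [hM, Matrix.transpose_sub, Matrix.transpose_add, Matrix.transpose_transpose,
      Matrix.transpose_one, add_comm]
  have hMM : M * M = 1 + (R - Rᵀ) * (R - Rᵀ)ᵀ := by
    rw [hM, Matrix.transpose_sub, Matrix.transpose_transpose]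
    have h1 : (R + Rᵀ - 1) * (R + Rᵀ - 1) =
        R * R + Rᵀ * Rᵀ + 1 + R * Rᵀ + Rᵀ * R - R - R - Rᵀ - Rᵀ := by noncomm_ring
    have h2 : (1 : Matrix n n ℝ) + (R - Rᵀ) * (Rᵀ - R) =
        1 + R * Rᵀ - R * R - Rᵀ * Rᵀ + Rᵀ * R := by noncomm_ring
    rw [h1, h2, hR, hRt]
    abel
  have hpd : (M * M).PosDef := by
    rw [hMM]
    refine Matrix.PosDef.add_posSemidef Matrix.PosDef.one ?_
    have h1 := Matrix.posSemidef_self_mul_conjTranspose (R - Rᵀ)
    rwa [Matrix.conjTranspose_eq_transpose_of_trivial] at h1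
  have hdet : IsUnit M.det := by
    have h1 := hpd.det_pos
    rw [Matrix.det_mul] at h1
    refine isUnit_iff_ne_zero.2 ?_
    intro h0
    rw [h0] at h1
    simp at h1
  have hi1 : M * M⁻¹ = 1 := Matrix.mul_nonsing_inv M hdet
  have hi2 : M⁻¹ * M = 1 := Matrix.nonsing_inv_mul M hdet
  have hMR : M * R = Rᵀ * R := by
    have : M * R = R * R + Rᵀ * R - R := by rw [hM]; noncomm_ring
    rw [this, hR]; abel
  have hRM : Rᵀ * M = Rᵀ * R := by
    have : Rᵀ * M = Rᵀ * R + Rᵀ * Rᵀ - Rᵀ := by rw [hM]; noncomm_ring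
    rw [this, hRt]; abel
  have hQ1 : R * M⁻¹ = M⁻¹ * Rᵀ := by
    have h1 : M * R = Rᵀ * M := by rw [hMR, hRM]
    calc R * M⁻¹ = (M⁻¹ * M) * R * M⁻¹ := by rw [hi2, Matrix.one_mul]
      _ = M⁻¹ * (M * R) * M⁻¹ := by simp only [Matrix.mul_assoc]
      _ = M⁻¹ * (Rᵀ * M) * M⁻¹ := by rw [h1]
      _ = M⁻¹ * Rᵀ * (M * M⁻¹) := by simp only [Matrix.mul_assoc]
      _ = M⁻¹ * Rᵀ := by rw [hi1, Matrix.mul_one]
  set Q : Matrix n n ℝ := R * M⁻¹ with hQ
  have hRQ : R * Q = Q := by rw [hQ, ← Matrix.mul_assoc, hR]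
  have hQR : Q * R = R := by
    rw [hQ1, Matrix.mul_assoc, ← hMR, ← Matrix.mul_assoc, hi2, Matrix.one_mul]
  have hQt : Qᵀ = Q := by
    have h1 : Qᵀ = M⁻¹ * Rᵀ := by
      rw [hQ, Matrix.transpose_mul, Matrix.transpose_nonsing_inv, hMt]
    rw [h1, ← hQ1]
  have hQQ : Q * Q = Q := by
    have h1 : Q * Q = (Q * R) * M⁻¹ := by
      rw [Matrix.mul_assoc Q R M⁻¹]
    rw [h1, hQR]
  clear_value Q
  have e1 : (T * R).trace = (Qᵀ * T * Q).trace := by
    calc (T * R).trace = (T * (Q * R)).trace := by rw [hQR]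
      _ = ((T * Q) * R).trace := by rw [Matrix.mul_assoc]
      _ = (R * (T * Q)).trace := Matrix.trace_mul_comm _ _
      _ = ((R * T) * Q).trace := by rw [Matrix.mul_assoc]
      _ = ((T * R) * Q).trace := by rw [h]
      _ = (T * (R * Q)).trace := by rw [Matrix.mul_assoc]
      _ = (T * Q).trace := by rw [hRQ]
      _ = (T * (Q * Q)).trace := by rw [hQQ]
      _ = ((T * Q) * Q).trace := by rw [Matrix.mul_assoc]
      _ = (Q * (T * Q)).trace := Matrix.trace_mul_comm _ _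
      _ = (Qᵀ * T * Q).trace := by rw [hQt, Matrix.mul_assoc]
  rw [e1]
  have h2 := hT.conjTranspose_mul_mul_same Q
  rw [Matrix.conjTranspose_eq_transpose_of_trivial] at h2
  exact h2.trace_nonneg

/-- `T s t = ω (s⁻¹ t)`, `R s t = e (t⁻¹ s)`: `R R = R`, `T R = R T` (`ω (a b) = ω (b a)`),
`tr(TR) = |G| ∑ e ω`. -/
theorem posdef_idem {G : Type} [Group G] [Fintype G] [DecidableEq G] (e : G → ℝ)
    (he : ∀ g, ∑ h, e h * e (h⁻¹ * g) = e g) (ω : G → ℝ)
    (hpd : ∀ c : G → ℝ, 0 ≤ ∑ s, ∑ t, c s * c t * ω (s⁻¹ * t))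
    (hcl : ∀ s t, ω (t * s * t⁻¹) = ω s) (hinv : ∀ s, ω s⁻¹ = ω s) :
    0 ≤ ∑ g, e g * ω g := by
  classical
  let T : Matrix G G ℝ := Matrix.of fun s t => ω (s⁻¹ * t)
  let R : Matrix G G ℝ := Matrix.of fun s t => e (t⁻¹ * s)
  have hT : T.PosSemidef := by
    refine Matrix.PosSemidef.of_dotProduct_mulVec_nonneg ?_ ?_
    · ext s t
      simp only [Matrix.conjTranspose_apply, star_trivial, T, Matrix.of_apply]
      rw [← hinv (t⁻¹ * s)]
      congr 1
      group
    · intro x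
      have h1 := hpd x
      have h2 : star x ⬝ᵥ T.mulVec x = ∑ s, ∑ t, x s * x t * ω (s⁻¹ * t) := by
        simp only [dotProduct, Matrix.mulVec, T, Matrix.of_apply, star_trivial, Finset.mul_sum]
        refine Finset.sum_congr rfl fun s _ => Finset.sum_congr rfl fun t _ => ?_
        ring
      rw [h2]
      exact h1
  have hR : R * R = R := by
    ext s t
    simp only [Matrix.mul_apply, R, Matrix.of_apply]
    rw [← he (t⁻¹ * s)]
    refine (Fintype.sum_equiv (Equiv.mulLeft t) _ _ fun v => ?_).symm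
    simp only [Equiv.coe_mulLeft]
    rw [mul_comm]
    congr 2 <;> group
  have hcomm : T * R = R * T := by
    ext s t
    simp only [Matrix.mul_apply, T, R, Matrix.of_apply]
    have h1 : ∑ u, ω (s⁻¹ * u) * e (t⁻¹ * u)⁻¹⁻¹ = ∑ v, ω (s⁻¹ * t * v) * e v := by
      refine (Fintype.sum_equiv (Equiv.mulLeft t) _ _ fun v => ?_).symm
      simp only [Equiv.coe_mulLeft]
      congr 2 <;> group
    have h2 : ∑ u, e (u⁻¹ * s) * ω (u⁻¹ * t) = ∑ v, e v * ω (v * (s⁻¹ * t)) := by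
      refine (Fintype.sum_equiv ((Equiv.inv G).trans (Equiv.mulLeft s)) _ _ fun v => ?_).symm
      simp only [Equiv.trans_apply, Equiv.inv_apply, Equiv.coe_mulLeft]
      congr 2 <;> group
    have h3 : ∀ u, e (u⁻¹ * s) = e (u⁻¹ * s) := fun _ => rfl
    simp only [inv_inv] at h1
    first
      | rw [h1, h2]
        refine Finset.sum_congr rfl fun v _ => ?_
        rw [mul_comm]
        congr 1
        rw [← hcl (s⁻¹ * t * v) v]
        congr 1
        group
  have hfin := trace_nonneg_of_commute hT hR hcomm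
  have htr : (T * R).trace = (Fintype.card G : ℝ) * ∑ g, e g * ω g := by
    simp only [Matrix.trace, Matrix.diag_apply, Matrix.mul_apply, T, R, Matrix.of_apply]
    have h1 : ∀ s : G, ∑ u, ω (s⁻¹ * u) * e (s⁻¹ * u) = ∑ g, e g * ω g := by
      intro s
      refine (Fintype.sum_equiv (Equiv.mulLeft s) _ _ fun v => ?_).symm
      simp only [Equiv.coe_mulLeft, inv_mul_cancel_left]
      ring
    simp only [h1]
    rw [Finset.sum_const, Finset.card_univ, nsmul_eq_mul]
  rw [htr] at hfin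
  have hc : (0 : ℝ) < Fintype.card G := by exact_mod_cast Fintype.card_pos
  exact nonneg_of_mul_nonneg_right hfin hc

/-- `|ω(s)| ≤ ω(1)`: test on `c = 1_1 ± 1_s` -/
theorem posdef_le {G : Type} [Group G] [Fintype G] [DecidableEq G] (ω : G → ℝ)
    (hpd : ∀ c : G → ℝ, 0 ≤ ∑ s, ∑ t, c s * c t * ω (s⁻¹ * t)) (hinv : ∀ s, ω s⁻¹ = ω s) (s : G) :
    |ω s| ≤ ω 1 := by
  have key : ∀ a : ℝ, 0 ≤ ω 1 + a * ω s + a * ω s + a ^ 2 * ω 1 := by
    intro a
    have h1 := hpd (Pi.single 1 1 + a • Pi.single s 1)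
    have h2 : ∑ x, ∑ t, (Pi.single 1 1 + a • Pi.single s 1 : G → ℝ) x *
        (Pi.single 1 1 + a • Pi.single s 1 : G → ℝ) t * ω (x⁻¹ * t) =
        ω 1 + a * ω s + a * ω s + a ^ 2 * ω 1 := by
      simp only [Pi.add_apply, Pi.smul_apply, smul_eq_mul, add_mul, mul_add, Finset.sum_add_distrib,
        Pi.single_apply, ite_mul, mul_ite, one_mul, mul_one, zero_mul, mul_zero,
        Finset.sum_ite_eq', Finset.sum_ite_eq, Finset.mem_univ, if_true, inv_one,
        inv_mul_cancel, hinv]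
      ring
    rw [h2] at h1
    exact h1
  have k1 := key 1
  have k2 := key (-1)
  rw [abs_le]
  constructor <;> nlinarith

end MPbcd198.C
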