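import Pool.Agent.Lib.MP_bcd198_co.C.G1
import Pool.Agent.Lib.MP_bcd198_co.C.G2
import Pool.Agent.Lib.MP_bcd198_co.C.E9
import Pool.Agent.Lib.MP_bcd198_co.C.B9

/-!
# MP_bcd198_co, C/G3: positive definite class functions are small on rectangular classes
-/

set_option autoImplicit false

namespace MPbcd198.C

open Equiv Pool.Agent.Lib.MP_463376_co Pool.Agent.Lib.MP_463376_co.Hs

/-- a real class function on `S_m` is symmetric (`w⁻¹` is conjugate to `w`) -/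
theorem class_inv {m : ℕ} (ω : Perm (Fin m) → ℝ) (hcl : ∀ s t, ω (t * s * t⁻¹) = ω s)
    (s : Perm (Fin m)) : ω s⁻¹ = ω s := by
  have h : IsConj s s⁻¹ := by
    rw [Equiv.Perm.isConj_iff_cycleType_eq, Equiv.Perm.cycleType_inv]
  obtain ⟨c, hc⟩ := isConj_iff.1 h
  rw [← hc, hcl]

/-- the coefficients `a_λ = hall (frob ω) (schur λ)` of a positive definite class function:
nonnegative (`exists_idempotent'`, `posdef_idem`) and `a_λ ≤ (E ω²)^{1/2}` (Cauchy-Schwarz,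
`hall_frob`, `ch_ortho`) -/
theorem coeff_posdef {m : ℕ} (ω : Perm (Fin m) → ℝ)
    (hpd : ∀ c : Perm (Fin m) → ℝ, 0 ≤ ∑ s, ∑ t, c s * c t * ω (s⁻¹ * t))
    (hcl : ∀ s t, ω (t * s * t⁻¹) = ω s) (δ : ℝ) (hδ : 0 < δ)
    (h2 : (∑ s, ω s ^ 2) / (m.factorial : ℝ) ≤ δ ^ 2) (lam : YoungDiagram) (hl : lam.card = m) :
    0 ≤ hall (frob ω) (schur ℝ lam) ∧ hall (frob ω) (schur ℝ lam) ≤ δ := by
  classical
  constructor
  · obtain ⟨e, he, hw⟩ := exists_idempotent' m lam hl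
    have h3 := hw ℝ ω (fun w w' => hcl w' w)
    rw [← h3]
    refine posdef_idem (fun g => algebraMap ℚ ℝ (e g)) (fun g => ?_) ω hpd hcl
      (class_inv ω hcl)
    rw [← he g, map_sum]
    refine Finset.sum_congr rfl fun h _ => ?_
    rw [map_mul]
  · have hl' : lam.card = Fintype.card (Fin m) := by rw [hl, Fintype.card_fin]
    have h3 := ch_ortho ℝ (ι := Fin m) lam lam hl' hl'
    rw [if_pos rfl, Fintype.card_fin] at h3
    have h4 := hall_frob (K := ℝ) ω (schur ℝ lam)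
    rw [Fintype.card_fin] at h4
    have hf : (0 : ℝ) < (m.factorial : ℝ) := by positivity
    have hcs := Finset.sum_mul_sq_le_sq_mul_sq (Finset.univ : Finset (Perm (Fin m))) ω
      (fun w => ch ℝ lam w)
    have h5 : ∑ w : Perm (Fin m), (ch ℝ lam w) ^ 2 = (m.factorial : ℝ) := by
      have h6 : ∑ w : Perm (Fin m), ch ℝ lam w * ch ℝ lam w = (m.factorial : ℝ) := by
        rw [inv_mul_eq_iff_eq_mul₀ hf.ne', mul_one] at h3
        exact h3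
      rw [← h6]
      exact Finset.sum_congr rfl fun w _ => sq _
    rw [h5] at hcs
    have h7 : hall (frob ω) (schur ℝ lam) ^ 2 ≤ δ ^ 2 := by
      rw [h4]
      have h8 : (((m.factorial : ℕ) : ℝ)⁻¹ * ∑ w, ω w * hall (pcyc ℝ w) (schur ℝ lam)) ^ 2 =
          (m.factorial : ℝ)⁻¹ ^ 2 * (∑ w, ω w * ch ℝ lam w) ^ 2 := by
        rw [mul_pow]
        rfl
      rw [h8]
      calc (m.factorial : ℝ)⁻¹ ^ 2 * (∑ w, ω w * ch ℝ lam w) ^ 2
          ≤ (m.factorial : ℝ)⁻¹ ^ 2 * ((∑ w, ω w ^ 2) * (m.factorial : ℝ)) :=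
            mul_le_mul_of_nonneg_left hcs (by positivity)
        _ = (∑ w, ω w ^ 2) / (m.factorial : ℝ) := by field_simp
        _ ≤ δ ^ 2 := h2
    exact (le_abs_self _).trans (abs_le_of_sq_le_sq h7 hδ.le)

/-- Put `η₀ = min η (1/4)`, `η' = η₀/3`; `class_expand`, `∑ a_λ f^λ = ω(1) = 1`, `ch_bound`:
`|ω(s)| ≤ C (m+1)^C ∑ a_λ (f^λ)^{1/r+η'}`; for `f^λ ≤ 1/δ` use `a_λ ≤ δ`,
`(f^λ)^{1/r+η'} ≤ δ^{-1/r-2η'} (f^λ)^{-η'}` and `sum_fd`; for `f^λ > 1/δ` use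
`a_λ (f^λ)^{1/r+η'} = a_λ f^λ (f^λ)^{-(1-1/r-η')} ≤ a_λ f^λ δ^{1-1/r-η'}`. -/
theorem posdef_bound (r : ℕ) (hr : 2 ≤ r) (η : ℝ) (hη : 0 < η) : ∃ C : ℝ, ∀ m : ℕ, r ∣ m →
    ∀ ω : Perm (Fin m) → ℝ,
      (∀ c : Perm (Fin m) → ℝ, 0 ≤ ∑ s, ∑ t, c s * c t * ω (s⁻¹ * t)) →
      (∀ s t, ω (t * s * t⁻¹) = ω s) → ω 1 = 1 →
      ∀ δ : ℝ, 0 < δ → δ ≤ 1 → (∑ s, ω s ^ 2) / (m.factorial : ℝ) ≤ δ ^ 2 →
      ∀ s : Perm (Fin m), (∀ x, Function.minimalPeriod (⇑s) x = r) →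
        |ω s| ≤ C * ((m : ℝ) + 1) ^ C * δ ^ (1 - 1 / (r : ℝ) - η) := by
  obtain ⟨η', hη'0, hη'1, hη'2⟩ : ∃ η' : ℝ, 0 < η' ∧ 2 * η' ≤ η ∧ η' ≤ 1 / 12 := by
    refine ⟨min η (1 / 4) / 3, by positivity, ?_, ?_⟩
    · have := min_le_left η (1 / 4); linarith
    · have := min_le_right η (1 / 4); linarith
  obtain ⟨C1, hC1, hch⟩ := ch_bound r (by omega) η' hη'0
  obtain ⟨C2, hC2⟩ := sum_fd η' hη'0
  have hC2n : 0 ≤ C2 := by
    have := hC2 0 ∅ (by simp)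
    simpa using this
  refine ⟨C1 * (C2 + 1) + C1, ?_⟩
  intro m hrm ω hpd hcl h1 δ hδ hδ1 h2 s hs
  obtain ⟨S, hS⟩ := exists_partitions m
  have hS' : ∀ lam, lam ∈ S ↔ lam.card = Fintype.card (Fin m) := by
    intro lam; rw [hS, Fintype.card_fin]
  have hexp := class_expand ℝ ω (fun w w' => hcl w' w) S hS'
  set a : YoungDiagram → ℝ := fun lam => hall (frob ω) (schur ℝ lam) with ha
  have hr2 : (2 : ℝ) ≤ r := by exact_mod_cast hr
  have hrinv : 1 / (r : ℝ) ≤ 1 / 2 := one_div_le_one_div_of_le (by norm_num) hr2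
  have hrinv0 : 0 < 1 / (r : ℝ) := by positivity
  have ha0 : ∀ lam ∈ S, 0 ≤ a lam := fun lam hl => (coeff_posdef ω hpd hcl δ hδ h2 lam
    ((hS lam).1 hl)).1
  have had : ∀ lam ∈ S, a lam ≤ δ := fun lam hl => (coeff_posdef ω hpd hcl δ hδ h2 lam
    ((hS lam).1 hl)).2
  have hsum1 : ∑ lam ∈ S, a lam * fd lam = 1 := by
    rw [← h1, hexp 1]
    refine Finset.sum_congr rfl fun lam hl => ?_
    rw [ch_one ((hS' lam).1 hl)]
  have hm1 : (1 : ℝ) ≤ (m : ℝ) + 1 := by linarith [Nat.cast_nonneg (α := ℝ) m]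
  -- the pointwise estimate
  have hpt : ∀ lam ∈ S, a lam * fd lam ^ (1 / (r : ℝ) + η') ≤
      δ ^ (1 - 1 / (r : ℝ) - η) * fd lam ^ (-η') + δ ^ (1 - 1 / (r : ℝ) - η) * (a lam * fd lam) := by
    intro lam hl
    have hf1 := one_le_fd lam
    have hf0 : 0 < fd lam := by linarith
    have hpos1 : 0 ≤ δ ^ (1 - 1 / (r : ℝ) - η) := Real.rpow_nonneg hδ.le _
    have hpos2 : 0 ≤ fd lam ^ (-η') := Real.rpow_nonneg hf0.le _
    rcases le_or_gt (fd lam) (1 / δ) with hcase | hcase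
    · have e1 : fd lam ^ (1 / (r : ℝ) + η') = fd lam ^ (1 / (r : ℝ) + 2 * η') * fd lam ^ (-η') := by
        rw [← Real.rpow_add hf0]; congr 1; ring
      have e2 : fd lam ^ (1 / (r : ℝ) + 2 * η') ≤ (1 / δ) ^ (1 / (r : ℝ) + 2 * η') :=
        Real.rpow_le_rpow hf0.le hcase (by positivity)
      have e3 : δ * (1 / δ) ^ (1 / (r : ℝ) + 2 * η') = δ ^ (1 - 1 / (r : ℝ) - 2 * η') := by
        rw [one_div, Real.inv_rpow hδ.le, ← Real.rpow_neg hδ.le]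
        conv_lhs => rw [← Real.rpow_one δ]
        rw [← Real.rpow_mul hδ.le, ← Real.rpow_add hδ]
        congr 1; ring
      have e4 : δ ^ (1 - 1 / (r : ℝ) - 2 * η') ≤ δ ^ (1 - 1 / (r : ℝ) - η) :=
        Real.rpow_le_rpow_of_exponent_ge hδ hδ1 (by linarith)
      have e5 : a lam * fd lam ^ (1 / (r : ℝ) + η') ≤ δ ^ (1 - 1 / (r : ℝ) - η) * fd lam ^ (-η') := by
        rw [e1, ← mul_assoc]
        refine mul_le_mul_of_nonneg_right ?_ hpos2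
        calc a lam * fd lam ^ (1 / (r : ℝ) + 2 * η') ≤ δ * (1 / δ) ^ (1 / (r : ℝ) + 2 * η') :=
              mul_le_mul (had lam hl) e2 (Real.rpow_nonneg hf0.le _) hδ.le
          _ = δ ^ (1 - 1 / (r : ℝ) - 2 * η') := e3
          _ ≤ _ := e4
      have e6 : 0 ≤ δ ^ (1 - 1 / (r : ℝ) - η) * (a lam * fd lam) :=
        mul_nonneg hpos1 (mul_nonneg (ha0 lam hl) hf0.le)
      linarith
    · have e1 : fd lam ^ (1 / (r : ℝ) + η') = fd lam * (fd lam)⁻¹ ^ (1 - 1 / (r : ℝ) - η') := by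
        rw [Real.inv_rpow hf0.le, ← Real.rpow_neg hf0.le]
        conv_rhs => rw [← Real.rpow_one (fd lam)]
        rw [← Real.rpow_mul hf0.le, ← Real.rpow_add hf0]
        congr 1; ring
      have e2 : (fd lam)⁻¹ ≤ δ := by
        rw [one_div] at hcase
        exact (inv_lt_of_inv_lt₀ hδ hcase).le
      have e3 : (fd lam)⁻¹ ^ (1 - 1 / (r : ℝ) - η') ≤ δ ^ (1 - 1 / (r : ℝ) - η') :=
        Real.rpow_le_rpow (by positivity) e2 (by linarith)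
      have e4 : δ ^ (1 - 1 / (r : ℝ) - η') ≤ δ ^ (1 - 1 / (r : ℝ) - η) :=
        Real.rpow_le_rpow_of_exponent_ge hδ hδ1 (by linarith)
      have e5 : a lam * fd lam ^ (1 / (r : ℝ) + η') ≤
          δ ^ (1 - 1 / (r : ℝ) - η) * (a lam * fd lam) := by
        rw [e1, ← mul_assoc, mul_comm]
        exact mul_le_mul_of_nonneg_right (e3.trans e4) (mul_nonneg (ha0 lam hl) hf0.le)
      have e6 : 0 ≤ δ ^ (1 - 1 / (r : ℝ) - η) * fd lam ^ (-η') := mul_nonneg hpos1 hpos2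
      linarith
  have hD0 : 0 ≤ δ ^ (1 - 1 / (r : ℝ) - η) := Real.rpow_nonneg hδ.le _
  have hsum2 : ∑ lam ∈ S, a lam * fd lam ^ (1 / (r : ℝ) + η') ≤
      δ ^ (1 - 1 / (r : ℝ) - η) * (C2 + 1) := by
    refine (Finset.sum_le_sum hpt).trans ?_
    rw [Finset.sum_add_distrib, ← Finset.mul_sum, ← Finset.mul_sum, hsum1, mul_add]
    have := hC2 m S (fun lam hl => (hS lam).1 hl)
    exact add_le_add (mul_le_mul_of_nonneg_left this hD0) le_rfl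
  have hmain : |ω s| ≤ C1 * ((m : ℝ) + 1) ^ C1 * (δ ^ (1 - 1 / (r : ℝ) - η) * (C2 + 1)) := by
    rw [hexp s]
    refine (Finset.abs_sum_le_sum_abs _ _).trans ?_
    have hterm : ∀ lam ∈ S, |a lam * ch ℝ lam s| ≤
        C1 * ((m : ℝ) + 1) ^ C1 * (a lam * fd lam ^ (1 / (r : ℝ) + η')) := by
      intro lam hl
      rw [abs_mul, abs_of_nonneg (ha0 lam hl)]
      have h3 := hch (Fin m) s hs (by rw [Fintype.card_fin]; exact hrm) lam ((hS' lam).1 hl)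
      rw [Fintype.card_fin] at h3
      calc a lam * |ch ℝ lam s| ≤ a lam * (C1 * ((m : ℝ) + 1) ^ C1 *
            fd lam ^ (1 / (r : ℝ) + η')) := mul_le_mul_of_nonneg_left h3 (ha0 lam hl)
        _ = _ := by ring
    refine (Finset.sum_le_sum hterm).trans ?_
    rw [← Finset.mul_sum]
    exact mul_le_mul_of_nonneg_left hsum2 (by positivity)
  refine hmain.trans ?_
  have hCC : C1 ≤ C1 * (C2 + 1) + C1 := by nlinarith [mul_nonneg hC1 hC2n]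
  have hpow : ((m : ℝ) + 1) ^ C1 ≤ ((m : ℝ) + 1) ^ (C1 * (C2 + 1) + C1) :=
    Real.rpow_le_rpow_of_exponent_le hm1 hCC
  have hp0 : 0 ≤ ((m : ℝ) + 1) ^ C1 := by positivity
  calc C1 * ((m : ℝ) + 1) ^ C1 * (δ ^ (1 - 1 / (r : ℝ) - η) * (C2 + 1))
      = (C1 * (C2 + 1)) * ((m : ℝ) + 1) ^ C1 * δ ^ (1 - 1 / (r : ℝ) - η) := by ring
    _ ≤ (C1 * (C2 + 1) + C1) * ((m : ℝ) + 1) ^ (C1 * (C2 + 1) + C1) *
        δ ^ (1 - 1 / (r : ℝ) - η) := by
        refine mul_le_mul_of_nonneg_right ?_ hD0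
        exact mul_le_mul (by linarith) hpow hp0 (by positivity)

end MPbcd198.C
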