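import Pool.Agent.Lib.MP_bcd198_co.C.G1

/-!
# MP_bcd198_co, C/G4: irreducible representations of the symmetric group
-/

set_option autoImplicit false

namespace MPbcd198.C

open Equiv Pool.Agent.Lib.MP_463376_co Pool.Agent.Lib.MP_463376_co.Hs

/-- elementary criterion -/
theorem isIrreducible_of {G V : Type} [Group G] [AddCommGroup V] [Module ℂ V]
    (ρ : Representation ℂ G V) [Nontrivial V]
    (h : ∀ W : Submodule ℂ V, (∀ g, ∀ w ∈ W, ρ g w ∈ W) → W = ⊥ ∨ W = ⊤) :
    Representation.IsIrreducible ρ := by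
  have hbt : (⊥ : Subrepresentation ρ) ≠ ⊤ := by
    intro hh
    have h1 : (⊥ : Submodule ℂ V) = ⊤ := congrArg Subrepresentation.toSubmodule hh
    exact bot_ne_top h1
  have : Nontrivial (Subrepresentation ρ) := ⟨⟨⊥, ⊤, hbt⟩⟩
  refine ⟨fun W => ?_⟩
  rcases h W.toSubmodule (fun g w hw => W.apply_mem_toSubmodule g hw) with h1 | h1
  · left
    exact Subrepresentation.toSubmodule_injective h1
  · right
    exact Subrepresentation.toSubmodule_injective h1

/-- the idempotents on the representation -/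
private theorem G4_idem {ι V : Type} [Fintype ι] [DecidableEq ι] [AddCommGroup V] [Module ℂ V]
    (ρ : Representation ℂ (Perm ι) V) (e : MonoidAlgebra ℚ (Perm ι)) (he : e * e = e) :
    IsIdempotentElem (∑ g : Perm ι, (algebraMap ℚ ℂ (e.coeff g)) • ρ g : V →ₗ[ℂ] V) := by
  have h1 : ∀ g, ∑ h, e.coeff h * e.coeff (h⁻¹ * g) = e.coeff g := by
    intro g
    have h1 := congrArg (fun x : MonoidAlgebra ℚ (Perm ι) => x.coeff g) he
    simp only [hprim_coeff_mul] at h1
    exact h1
  change (∑ g : Perm ι, (algebraMap ℚ ℂ (e.coeff g)) • ρ g : V →ₗ[ℂ] V) *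
    (∑ g : Perm ι, (algebraMap ℚ ℂ (e.coeff g)) • ρ g : V →ₗ[ℂ] V) = _
  rw [Finset.sum_mul]
  have h2 : ∀ g : Perm ι, ((algebraMap ℚ ℂ (e.coeff g)) • ρ g : V →ₗ[ℂ] V) *
      (∑ h : Perm ι, (algebraMap ℚ ℂ (e.coeff h)) • ρ h : V →ₗ[ℂ] V) =
      ∑ k : Perm ι, (algebraMap ℚ ℂ (e.coeff g * e.coeff (g⁻¹ * k))) • ρ k := by
    intro g
    rw [Finset.mul_sum]
    refine Fintype.sum_equiv (Equiv.mulLeft g) _ _ fun h => ?_
    rw [Equiv.coe_mulLeft, inv_mul_cancel_left, map_mul, map_mul, smul_mul_smul_comm]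
  rw [Finset.sum_congr rfl fun g _ => h2 g, Finset.sum_comm]
  refine Finset.sum_congr rfl fun k _ => ?_
  rw [← Finset.sum_smul, ← map_sum, h1]

/-- the multiplicities are natural numbers: `hall (frob χ) (schur λ) = ∑ e(g) χ(g) = tr(∑ e(g) ρ(g))`
(`exists_idempotent'`) and `∑ e(g) ρ(g)` is idempotent; `LinearMap.IsProj.trace`.  The library statement
is for `Fin n`; transport `Perm ι ≃ Perm (Fin n)` (`pcyc` is invariant under relabelling) or use
`exists_schur_idem` and `tch` directly as in the proof of `exists_idempotent'`. -/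
theorem mult_nat {ι V : Type} [Fintype ι] [DecidableEq ι] [AddCommGroup V] [Module ℂ V]
    [FiniteDimensional ℂ V] (ρ : Representation ℂ (Perm ι) V) (lam : YoungDiagram)
    (hl : lam.card = Fintype.card ι) :
    ∃ a : ℕ, hall (frob fun g => ρ.character g) (schur ℂ lam) = (a : ℂ) := by
  obtain ⟨e, he, hw⟩ := exists_schur_idem (ι := ι) lam hl
  have hid := G4_idem ρ e he
  have hproj := LinearMap.IsIdempotentElem.isProj_range _ hid
  have htr := hproj.trace
  refine ⟨_, Eq.trans ?_ htr⟩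
  have hf : ∀ w w' : Perm ι, ρ.character (w * w' * w⁻¹) = ρ.character w' := fun w w' =>
    Representation.char_conj ρ w' w
  have hfac : (((Fintype.card ι).factorial : ℕ) : ℂ) ≠ 0 := by
    exact_mod_cast (Nat.factorial_ne_zero _)
  rw [hall_frob, inv_mul_eq_iff_eq_mul₀ hfac]
  have h1 : ∀ w : Perm ι, hall (pcyc ℂ w) (schur ℂ lam) = algebraMap ℚ ℂ (tch e w) := by
    intro w
    rw [hw w, ← hall_map, pcyc_map, schur_map]
  have h2 : ∀ w : Perm ι, tch e w = ∑ h, e.coeff (h⁻¹ * w * h) := by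
    intro w
    have h3 : tch e w = tch e w⁻¹ := by rw [hw, hw, pcyc_inv]
    rw [h3, tch]
    simp
  have h4 : LinearMap.trace ℂ V (∑ g : Perm ι, (algebraMap ℚ ℂ (e.coeff g)) • ρ g) =
      ∑ g : Perm ι, algebraMap ℚ ℂ (e.coeff g) * ρ.character g := by
    rw [map_sum]
    refine Finset.sum_congr rfl fun g _ => ?_
    rw [map_smul, smul_eq_mul]
    rfl
  rw [h4]
  symm
  calc (((Fintype.card ι).factorial : ℕ) : ℂ) *
        ∑ g : Perm ι, algebraMap ℚ ℂ (e.coeff g) * ρ.character g
      = ∑ h : Perm ι, ∑ g : Perm ι, algebraMap ℚ ℂ (e.coeff g) * ρ.character g := by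
        rw [Finset.sum_const, Finset.card_univ, Fintype.card_perm, nsmul_eq_mul]
    _ = ∑ h : Perm ι, ∑ g : Perm ι,
          algebraMap ℚ ℂ (e.coeff (h⁻¹ * g * h)) * ρ.character g := by
        refine Finset.sum_congr rfl fun h _ => ?_
        refine Fintype.sum_equiv (MulAut.conj h).toEquiv _ _ fun g => ?_
        simp only [MulEquiv.toEquiv_eq_coe, EquivLike.coe_coe, MulAut.conj_apply]
        rw [hf h g]
        congr 3
        group
    _ = ∑ g : Perm ι, ρ.character g * hall (pcyc ℂ g) (schur ℂ lam) := by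
        rw [Finset.sum_comm]
        refine Finset.sum_congr rfl fun g _ => ?_
        rw [h1, h2, map_sum, ← Finset.sum_mul, mul_comm]

/-- `∑ a_λ² = (1/n!) ∑ χ(g) χ(g⁻¹) = 1` (`Representation.char_orthonormal` or
`card_inv_mul_sum_char_mul_char_eq_finrank`, `finrank_intertwiningMap_self`; `class_expand`,
`ch_ortho`, `ch_inv`), so exactly one multiplicity is one. -/
theorem irr_eq_ch {ι V : Type} [Fintype ι] [DecidableEq ι] [AddCommGroup V] [Module ℂ V]
    [FiniteDimensional ℂ V] (ρ : Representation ℂ (Perm ι) V)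
    (hρ : Representation.IsIrreducible ρ) :
    ∃ lam : YoungDiagram, lam.card = Fintype.card ι ∧ ∀ g, ρ.character g = ch ℂ lam g := by
  classical
  obtain ⟨s, hs⟩ := exists_partitions (Fintype.card ι)
  have hf : ∀ w w' : Perm ι, ρ.character (w * w' * w⁻¹) = ρ.character w' := fun w w' =>
    Representation.char_conj ρ w' w
  choose! a ha using fun lam => mult_nat ρ lam
  have hexp : ∀ w, ρ.character w = ∑ lam ∈ s, (a lam : ℂ) * ch ℂ lam w := by
    intro w
    rw [class_expand ℂ (fun g => ρ.character g) hf s hs w]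
    refine Finset.sum_congr rfl fun lam hlam => ?_
    rw [ha lam ((hs lam).1 hlam)]
  have hfac : (((Fintype.card ι).factorial : ℕ) : ℂ) ≠ 0 := by
    exact_mod_cast (Nat.factorial_ne_zero _)
  have hcard : (Nat.card (Perm ι) : ℂ) = ((Fintype.card ι).factorial : ℕ) := by
    rw [Nat.card_eq_fintype_card, Fintype.card_perm]
  have : Invertible (Nat.card (Perm ι) : ℂ) := invertibleOfNonzero (by rw [hcard]; exact hfac)
  have horth := Representation.card_inv_mul_sum_char_mul_char_eq_finrank ρ ρ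
  rw [Representation.IsIrreducible.finrank_intertwiningMap_self, hcard] at horth
  have hsq : ∑ lam ∈ s, (a lam : ℂ) * (a lam : ℂ) = 1 := by
    have h1 : ∀ w : Perm ι, ρ.character w * ρ.character w⁻¹ =
        ∑ lam ∈ s, ∑ mu ∈ s, (a lam : ℂ) * (a mu : ℂ) * (ch ℂ lam w * ch ℂ mu w) := by
      intro w
      rw [hexp w, hexp w⁻¹, Finset.sum_mul_sum]
      refine Finset.sum_congr rfl fun lam _ => Finset.sum_congr rfl fun mu _ => ?_
      rw [ch_inv]
      ring
    have h2 : ∑ w : Perm ι, ρ.character w * ρ.character w⁻¹ =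
        ∑ lam ∈ s, ∑ mu ∈ s, (a lam : ℂ) * (a mu : ℂ) * ∑ w : Perm ι, (ch ℂ lam w * ch ℂ mu w) := by
      rw [Finset.sum_congr rfl fun w _ => h1 w, Finset.sum_comm]
      refine Finset.sum_congr rfl fun lam _ => ?_
      rw [Finset.sum_comm]
      refine Finset.sum_congr rfl fun mu _ => ?_
      rw [Finset.mul_sum]
    rw [h2, Finset.mul_sum] at horth
    rw [← Nat.cast_one (R := ℂ), ← horth]
    refine Finset.sum_congr rfl fun lam hlam => ?_
    rw [Finset.mul_sum, Finset.sum_eq_single_of_mem lam hlam]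
    · have h3 := ch_ortho ℂ (ι := ι) lam lam ((hs lam).1 hlam) ((hs lam).1 hlam)
      rw [if_pos rfl] at h3
      rw [mul_left_comm, h3, mul_one]
    · intro mu hmu hne
      have h3 := ch_ortho ℂ (ι := ι) lam mu ((hs lam).1 hlam) ((hs mu).1 hmu)
      rw [if_neg hne.symm] at h3
      rw [mul_left_comm, h3, mul_zero]
  have hsq' : ∑ lam ∈ s, a lam * a lam = 1 := by exact_mod_cast hsq
  -- exactly one term
  obtain ⟨lam, hlam, hne⟩ : ∃ lam ∈ s, a lam * a lam ≠ 0 := by
    by_contra hcon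
    push Not at hcon
    rw [Finset.sum_eq_zero hcon] at hsq'
    exact zero_ne_one hsq'
  have hle : a lam * a lam ≤ 1 := by
    rw [← hsq']
    exact Finset.single_le_sum (f := fun lam => a lam * a lam) (fun _ _ => Nat.zero_le _) hlam
  have ha1 : a lam = 1 := by
    rcases Nat.lt_or_ge (a lam) 2 with h | h
    · interval_cases h5 : a lam
      · simp at hne
      · rfl
    · nlinarith
  have hother : ∀ mu ∈ s, mu ≠ lam → a mu = 0 := by
    intro mu hmu hne'
    have h1 : ∑ nu ∈ s, a nu * a nu = a lam * a lam + ∑ nu ∈ s.erase lam, a nu * a nu :=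
      (Finset.add_sum_erase s (fun nu => a nu * a nu) hlam).symm
    have h2 : a mu * a mu ≤ ∑ nu ∈ s.erase lam, a nu * a nu :=
      Finset.single_le_sum (f := fun nu => a nu * a nu) (fun _ _ => Nat.zero_le _)
        (Finset.mem_erase.2 ⟨hne', hmu⟩)
    rw [hsq', ha1] at h1
    have h3 : a mu * a mu = 0 := by omega
    exact mul_self_eq_zero.1 h3
  refine ⟨lam, (hs lam).1 hlam, fun g => ?_⟩
  rw [hexp g, Finset.sum_eq_single_of_mem lam hlam, ha1, Nat.cast_one, one_mul]
  intro mu hmu hne'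
  rw [hother mu hmu hne', Nat.cast_zero, zero_mul]

end MPbcd198.C
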