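import Pool.Agent.Lib.MP_bcd198_co.C.G4
import Pool.Agent.Lib.MP_bcd198_co.C.B9

/-!
# MP_bcd198_co, C/G5: sum over irreducible characters
-/

set_option autoImplicit false

namespace MPbcd198.C

open Equiv Pool.Agent.Lib.MP_463376_co Pool.Agent.Lib.MP_463376_co.Hs

/-- `irr_eq_ch` gives a diagram for every `χ ∈ S`, and `χ` is determined by it; `(χ 1).re = fd`
(`ch_map` for `ℝ → ℂ`, `ch_one`); `sum_fd` -/
theorem chars_sum (s : ℝ) (hs : 0 < s) : ∃ C : ℝ,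
    ∀ (ι : Type) [Fintype ι] [DecidableEq ι] (S : Finset (Perm ι → ℂ)),
      (∀ χ ∈ S, ∃ (V : Type) (_ : AddCommGroup V) (_ : Module ℂ V) (_ : FiniteDimensional ℂ V)
        (ρ : Representation ℂ (Perm ι) V), Representation.IsIrreducible ρ ∧
          ∀ g, χ g = ρ.character g) →
      ∑ χ ∈ S, (χ 1).re ^ (-s) ≤ C := by
  classical
  obtain ⟨C, hC⟩ := sum_fd s hs
  refine ⟨C, ?_⟩
  intro ι _ _ S hS
  have h1 : ∀ χ ∈ S, ∃ lam : YoungDiagram, lam.card = Fintype.card ι ∧ ∀ g, χ g = ch ℂ lam g := by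
    intro χ hχ
    obtain ⟨V, _, _, _, ρ, hρ, hg⟩ := hS χ hχ
    obtain ⟨lam, hl, hch⟩ := irr_eq_ch ρ hρ
    exact ⟨lam, hl, fun g => by rw [hg g, hch g]⟩
  choose! L hL using h1
  have h2 : ∀ χ ∈ S, (χ 1).re = fd (L χ) := by
    intro χ hχ
    rw [(hL χ hχ).2 1, ch_map ℝ Complex.ofRealHom, ch_one (hL χ hχ).1]
    simp
  have h3 : Set.InjOn L S := by
    intro χ hχ χ' hχ' h
    funext g
    rw [(hL χ hχ).2 g, (hL χ' hχ').2 g, h]
  calc ∑ χ ∈ S, (χ 1).re ^ (-s) = ∑ χ ∈ S, fd (L χ) ^ (-s) :=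
        Finset.sum_congr rfl fun χ hχ => by rw [h2 χ hχ]
    _ = ∑ lam ∈ S.image L, fd lam ^ (-s) := (Finset.sum_image (f := fun lam => fd lam ^ (-s)) h3).symm
    _ ≤ C := hC (Fintype.card ι) _ (by
        intro lam hlam
        obtain ⟨χ, hχ, rfl⟩ := Finset.mem_image.mp hlam
        exact (hL χ hχ).1)

end MPbcd198.C
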