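import Pool.Agent.Lib.MP_bcd198_co.C.G4
import Pool.Agent.Lib.MP_bcd198_co.C.B4

/-!
# MP_bcd198_co, C/G6: one row and one column; restriction to a subset
-/

set_option autoImplicit false

namespace MPbcd198.C

open Equiv Pool.Agent.Lib.MP_463376_co Pool.Agent.Lib.MP_463376_co.Hs

/-- one column -/
def colD (n : ℕ) : YoungDiagram := (rowD n).transpose

private theorem G6_mem_rowD {n i j : ℕ} : (i, j) ∈ rowD n ↔ i = 0 ∧ j < n := by
  rw [rowD, YoungDiagram.mem_mk, Finset.mem_product, Finset.mem_singleton, Finset.mem_range]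

private theorem G6_mem_colD {n i j : ℕ} : (i, j) ∈ colD n ↔ j = 0 ∧ i < n := by
  rw [colD, YoungDiagram.mem_transpose]
  exact G6_mem_rowD

private theorem G6_card_rowD (n : ℕ) : (rowD n).card = n := by
  rw [YoungDiagram.card]
  change (({0} : Finset ℕ) ×ˢ Finset.range n).card = n
  rw [Finset.card_product, Finset.card_singleton, Finset.card_range, one_mul]

private theorem G6_card_colD (n : ℕ) : (colD n).card = n := by
  have h : (colD n).card = (rowD n).card := Finset.card_map _
  rw [h, G6_card_rowD]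

private theorem G6_rowLen_rowD (n : ℕ) : (rowD n).rowLen 0 = n := by
  apply le_antisymm
  · by_contra h
    have h1 : (0, n) ∈ rowD n := YoungDiagram.mem_iff_lt_rowLen.2 (not_le.1 h)
    exact absurd (G6_mem_rowD.1 h1).2 (lt_irrefl n)
  · by_contra h
    have h2 := G6_mem_rowD.2 ⟨rfl, not_le.1 h⟩
    exact absurd (YoungDiagram.mem_iff_lt_rowLen.1 h2) (lt_irrefl _)

private theorem G6_colLen_rowD (n : ℕ) : (rowD n).colLen 0 ≤ 1 := by
  by_contra h
  have h1 : (1, 0) ∈ rowD n := YoungDiagram.mem_iff_lt_colLen.2 (not_le.1 h)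
  exact absurd (G6_mem_rowD.1 h1).1 one_ne_zero

private theorem G6_schur_rowD (n : ℕ) :
    schur ℂ (rowD n) = ∏ b : Fin 1, hS ℂ ((fun _ : Fin 1 => n) b) := by
  rw [schur_eq_det (rowD n) (G6_colLen_rowD n), Matrix.det_fin_one, Matrix.of_apply,
    Fin.prod_univ_one]
  have h1 : (((rowD n).rowLen ((0 : Fin 1) : ℕ) : ℤ) - (((0 : Fin 1) : ℕ) : ℤ) +
      (((0 : Fin 1) : ℕ) : ℤ)) = (n : ℤ) := by
    rw [Fin.val_zero, G6_rowLen_rowD]
    simp
  rw [h1, hZ, if_neg (by omega), Int.toNat_natCast]

/-- `hall_schur` with one variable: the coefficient of `x^n` in `∏ x^{m_i}` -/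
theorem ch_row {ι : Type} [Fintype ι] [DecidableEq ι] (w : Perm ι) :
    ch ℂ (rowD (Fintype.card ι)) w = 1 := by
  rw [ch, G6_schur_rowD, hall_pcyc_hS]
  have h1 : (Finset.univ.filter fun φ : ι → Fin 1 => φ ∘ w = φ ∧
      ∀ b, (Finset.univ.filter fun i => φ i = b).card = (fun _ : Fin 1 => Fintype.card ι) b) =
      Finset.univ := by
    rw [Finset.filter_eq_self]
    intro φ _
    refine ⟨Subsingleton.elim _ _, fun b => ?_⟩
    rw [Finset.filter_true_of_mem fun i _ => Subsingleton.elim _ _, Finset.card_univ]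
  rw [h1, Finset.card_univ]
  simp

private theorem G6_eq_rowD {lam : YoungDiagram} (h : lam.card ≤ lam.rowLen 0) :
    lam = rowD lam.card := by
  have hsub : lam.row 0 ⊆ lam.cells := fun c hc => (YoungDiagram.mem_row_iff.1 hc).1
  have heq : lam.row 0 = lam.cells := by
    refine Finset.eq_of_subset_of_card_le hsub ?_
    rw [← YoungDiagram.rowLen_eq_card]
    exact h
  have hlen : lam.rowLen 0 = lam.card := by
    rw [YoungDiagram.rowLen_eq_card, heq]
  apply YoungDiagram.ext
  ext ⟨i, j⟩
  rw [YoungDiagram.mem_cells, YoungDiagram.mem_cells, G6_mem_rowD]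
  constructor
  · intro hm
    have h1 : (i, j) ∈ lam.row 0 := by rw [heq]; exact hm
    have h2 : i = 0 := (YoungDiagram.mem_row_iff.1 h1).2
    subst h2
    exact ⟨rfl, by rw [← hlen]; exact YoungDiagram.mem_iff_lt_rowLen.1 hm⟩
  · rintro ⟨rfl, hj⟩
    exact YoungDiagram.mem_iff_lt_rowLen.2 (by rw [hlen]; exact hj)

/-- the sign representation -/
private noncomputable def G6_rho (ι : Type) [Fintype ι] [DecidableEq ι] :
    Representation ℂ (Perm ι) ℂ where
  toFun w := ((Perm.sign w : ℤ) : ℂ) • LinearMap.id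
  map_one' := by simp; rfl
  map_mul' x y := by
    rw [Perm.sign_mul]
    ext
    simp [mul_comm]

private theorem G6_rho_char (ι : Type) [Fintype ι] [DecidableEq ι] (w : Perm ι) :
    (G6_rho ι).character w = ((Perm.sign w : ℤ) : ℂ) := by
  change LinearMap.trace ℂ ℂ (((Perm.sign w : ℤ) : ℂ) • LinearMap.id) = _
  rw [map_smul, LinearMap.trace_id, Module.finrank_self, Nat.cast_one, smul_eq_mul, mul_one]

private theorem G6_rho_irr (ι : Type) [Fintype ι] [DecidableEq ι] :
    Representation.IsIrreducible (G6_rho ι) :=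
  isIrreducible_of (G6_rho ι) fun W _ => eq_bot_or_eq_top W

/-- The sign is an irreducible character (dimension one), so it is `ch lam` (`irr_eq_ch`) with
`fd lam = 1`, hence `tt lam = 0` (`two_pow_tt_le`) and `lam` is a row or a column; if it is a row then
`sign = 1` (`ch_row`), so `card ι ≤ 1` and the row is a column. -/
theorem ch_col {ι : Type} [Fintype ι] [DecidableEq ι] (w : Perm ι) :
    ch ℂ (colD (Fintype.card ι)) w = ((Perm.sign w : ℤ) : ℂ) := by
  obtain ⟨lam, hl, hch⟩ := irr_eq_ch (G6_rho ι) (G6_rho_irr ι)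
  have hfd : fd lam = 1 := by
    have h1 := hch 1
    rw [G6_rho_char, Perm.sign_one, ch_map ℝ Complex.ofRealHom lam (1 : Perm ι), ch_one hl] at h1
    have h2 : ((fd lam : ℝ) : ℂ) = ((1 : ℝ) : ℂ) := by
      rw [Complex.ofReal_one]
      have h3 : (((1 : ℤˣ) : ℤ) : ℂ) = 1 := by simp
      rw [← h3, h1]
      rfl
    exact_mod_cast h2
  have htt : tt lam = 0 := by
    have h1 := two_pow_tt_le lam
    rw [hfd, one_pow] at h1
    by_contra hne
    have h2 : (2 : ℝ) ^ 1 ≤ (2 : ℝ) ^ tt lam :=
      pow_le_pow_right₀ (by norm_num) (Nat.one_le_iff_ne_zero.2 hne)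
    linarith
  have hcard0 : lam.card ≤ lam.rowLen 0 ∨ lam.card ≤ lam.colLen 0 := by
    have h1 : lam.card ≤ max (lam.rowLen 0) (lam.colLen 0) := Nat.sub_eq_zero_iff_le.1 htt
    exact le_max_iff.1 h1
  have hcol : lam = colD (Fintype.card ι) := by
    rcases hcard0 with h | h
    · have h1 := G6_eq_rowD h
      rw [hl] at h1
      have hle : Fintype.card ι ≤ 1 := by
        rw [Fintype.card_le_one_iff]
        intro a b
        by_contra hab
        have h2 := hch (Equiv.swap a b)
        rw [h1, ch_row, G6_rho_char, Perm.sign_swap hab] at h2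
        norm_num at h2
      rw [h1]
      apply YoungDiagram.ext
      ext ⟨i, j⟩
      rw [YoungDiagram.mem_cells, YoungDiagram.mem_cells, G6_mem_rowD, G6_mem_colD]
      omega
    · have h1 : lam.transpose.card ≤ lam.transpose.rowLen 0 := by
        rw [YoungDiagram.rowLen_transpose]
        have h2 : lam.transpose.card = lam.card := Finset.card_map _
        rw [h2]
        exact h
      have h2 := G6_eq_rowD h1
      have h3 : lam.transpose.card = Fintype.card ι := (Finset.card_map _).trans hl
      rw [h3] at h2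
      rw [colD, ← h2, YoungDiagram.transpose_transpose]
  rw [← hcol, ← hch w, G6_rho_char]

/-- `parseval` for `schur (rowD n)` -/
theorem frob_one (ι : Type) [Fintype ι] [DecidableEq ι] :
    frob (fun _ : Perm ι => (1 : ℂ)) = schur ℂ (rowD (Fintype.card ι)) := by
  have h1 := parseval (ι := ι) (schur ℂ (rowD (Fintype.card ι))) (by
    have h2 := schur_wh (K := ℂ) (rowD (Fintype.card ι))
    rwa [G6_card_rowD] at h2)
  rw [← h1]
  congr 1
  funext w
  exact (ch_row w).symm

theorem frob_sign (ι : Type) [Fintype ι] [DecidableEq ι] :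
    frob (fun w : Perm ι => ((Perm.sign w : ℤ) : ℂ)) = schur ℂ (colD (Fintype.card ι)) := by
  have h1 := parseval (ι := ι) (schur ℂ (colD (Fintype.card ι))) (by
    have h2 := schur_wh (K := ℂ) (colD (Fintype.card ι))
    rwa [G6_card_colD] at h2)
  rw [← h1]
  congr 1
  funext w
  exact (ch_col w).symm

/-- cycle type of the extension of a permutation of a subset by the identity:
`Equiv.Perm.ofSubtype`, `Equiv.Perm.cycleType_ofSubtype`, `Equiv.Perm.parts_partition` -/
theorem pcyc_ofSubtype {ι : Type} [Fintype ι] [DecidableEq ι] (W : Finset ι)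
    (w : Perm {x : ι // x ∉ W}) :
    pcyc ℂ (Perm.ofSubtype w : Perm ι) = pcyc ℂ w * MvPolynomial.X 0 ^ W.card := by
  have hct : (Perm.ofSubtype w : Perm ι).cycleType = w.cycleType := Perm.cycleType_ofSubtype
  have hs1 : (Perm.ofSubtype w : Perm ι).support.card = w.support.card := by
    rw [← Perm.sum_cycleType, ← Perm.sum_cycleType, hct]
  have hle : w.support.card ≤ Fintype.card {x : ι // x ∉ W} := w.support.card_le_univ
  have hc : Fintype.card {x : ι // x ∉ W} + W.card = Fintype.card ι := by
    rw [Fintype.card_subtype_compl, Fintype.card_coe]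
    exact Nat.sub_add_cancel (Finset.card_le_univ W)
  have hn : Fintype.card ι - (Perm.ofSubtype w : Perm ι).support.card =
      (Fintype.card {x : ι // x ∉ W} - w.support.card) + W.card := by
    omega
  unfold pcyc
  rw [Perm.parts_partition, Perm.parts_partition, hct, hn, Multiset.map_add, Multiset.map_add,
    Multiset.prod_add, Multiset.prod_add, Multiset.map_replicate, Multiset.map_replicate,
    Multiset.prod_replicate, Multiset.prod_replicate, pow_add, mul_assoc]

end MPbcd198.C
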