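import Pool.Agent.Lib.MP_bcd198_co.C.G6
import Pool.Agent.Lib.MP_bcd198_co.C.B6

/-!
# MP_bcd198_co, C/G7: representations of small degree
-/

set_option autoImplicit false

namespace MPbcd198.C

open Equiv Pool.Agent.Lib.MP_463376_co Pool.Agent.Lib.MP_463376_co.Hs

private theorem card_rowD (n : ℕ) : (rowD n).card = n := by
  simp [rowD, YoungDiagram.card]

private theorem card_colD (n : ℕ) : (colD n).card = n := by
  rw [colD, card_transpose_eq, card_rowD]

private theorem rowD_le {n : ℕ} {lam : YoungDiagram} (h : n ≤ lam.rowLen 0) : rowD n ≤ lam := by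
  intro c hc
  have hc' : c ∈ ({0} : Finset ℕ) ×ˢ Finset.range n := hc
  rw [Finset.mem_product, Finset.mem_singleton, Finset.mem_range] at hc'
  obtain ⟨i, j⟩ := c
  obtain ⟨h1, h2⟩ := hc'
  simp only at h1 h2
  subst h1
  rw [YoungDiagram.mem_iff_lt_rowLen]
  omega

private theorem colD_le {n : ℕ} {lam : YoungDiagram} (h : n ≤ lam.colLen 0) : colD n ≤ lam := by
  intro c hc
  have hc' : c.swap ∈ rowD n := (YoungDiagram.mem_transpose).1 hc
  have hc'' : c.swap ∈ ({0} : Finset ℕ) ×ˢ Finset.range n := hc'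
  rw [Finset.mem_product, Finset.mem_singleton, Finset.mem_range] at hc''
  obtain ⟨i, j⟩ := c
  obtain ⟨h1, h2⟩ := hc''
  simp only [Prod.fst_swap, Prod.snd_swap] at h1 h2
  subst h1
  rw [YoungDiagram.mem_iff_lt_colLen]
  omega

/-- the average of a function against the restricted character -/
private theorem avg_eq {ι : Type} [Fintype ι] [DecidableEq ι] (lam : YoungDiagram) (W : Finset ι)
    (f : Perm {x : ι // x ∉ W} → ℂ) :
    ((((Fintype.card {x : ι // x ∉ W}).factorial : ℕ) : ℂ))⁻¹ *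
      ∑ w : Perm {x : ι // x ∉ W}, f w * ch ℂ lam (Perm.ofSubtype w : Perm ι) =
    hall (frob f * MvPolynomial.X 0 ^ W.card) (schur ℂ lam) := by
  have h1 : frob f * MvPolynomial.X 0 ^ W.card =
      MvPolynomial.C ((((Fintype.card {x : ι // x ∉ W}).factorial : ℕ) : ℂ)⁻¹) *
        ∑ w : Perm {x : ι // x ∉ W}, MvPolynomial.C (f w) *
          (pcyc ℂ w * MvPolynomial.X 0 ^ W.card) := by
    rw [frob, mul_assoc, Finset.sum_mul]
    congr 1
    refine Finset.sum_congr rfl fun w _ => ?_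
    rw [mul_assoc]
  rw [h1, hall_C_mul_left, hall_sum_left]
  congr 1
  refine Finset.sum_congr rfl fun w _ => ?_
  rw [hall_C_mul_left, ch, pcyc_ofSubtype]

/-- the multiplicity is non zero -/
private theorem skew_ne {ι : Type} [Fintype ι] [DecidableEq ι] (nu lam : YoungDiagram)
    (hl : lam.card = Fintype.card ι) (W : Finset ι) (hnu : nu.card = Fintype.card ι - W.card)
    (h : nu ≤ lam) :
    hall (schur ℂ nu * MvPolynomial.X 0 ^ W.card) (schur ℂ lam) ≠ 0 := by
  have hWc : W.card ≤ Fintype.card ι := Finset.card_le_univ W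
  have h1 := one_le_hall_skew h
  have h2 : lam.card - nu.card = W.card := by omega
  rw [h2] at h1
  have h3 := hall_map (K := ℝ) Complex.ofRealHom (schur ℝ nu * MvPolynomial.X 0 ^ W.card)
    (schur ℝ lam)
  rw [map_mul, map_pow, MvPolynomial.map_X, schur_map, schur_map] at h3
  rw [h3]
  intro h4
  have h5 : hall (schur ℝ nu * MvPolynomial.X 0 ^ W.card) (schur ℝ lam) = 0 :=
    Complex.ofReal_injective (by rw [Complex.ofReal_zero]; exact h4)
  linarith

private theorem card_compl_sub {ι : Type} [Fintype ι] [DecidableEq ι] (W : Finset ι) :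
    Fintype.card {x : ι // x ∉ W} = Fintype.card ι - W.card := by
  rw [Fintype.card_subtype_compl, Fintype.card_coe]

/-- existence of an invariant vector from the character -/
private theorem exists_inv_of {G V : Type} [Group G] [Fintype G] [AddCommGroup V] [Module ℂ V]
    [FiniteDimensional ℂ V] (ρ : Representation ℂ G V)
    (h : (Fintype.card G : ℂ)⁻¹ * ∑ g : G, ρ.character g ≠ 0) :
    ∃ v : V, v ≠ 0 ∧ ∀ g, ρ g v = v := by
  have h0 : (Nat.card G : ℂ) ≠ 0 := by
    rw [Nat.card_eq_fintype_card]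
    exact_mod_cast Fintype.card_ne_zero
  let _ : Invertible (Nat.card G : ℂ) := invertibleOfNonzero h0
  have h1 := Representation.card_inv_mul_sum_char_eq_finrank ρ
  rw [Nat.card_eq_fintype_card] at h1
  rw [h1] at h
  have h2 : Module.finrank ℂ (Representation.invariants ρ) ≠ 0 := by
    intro h3
    apply h
    rw [h3]
    simp
  have h3 : Nontrivial (Representation.invariants ρ) :=
    Module.nontrivial_of_finrank_pos (R := ℂ) (Nat.pos_of_ne_zero h2)
  obtain ⟨v, hv⟩ := exists_ne (0 : Representation.invariants ρ)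
  refine ⟨v.1, fun h4 => hv (Subtype.ext h4), fun g => ?_⟩
  exact (Representation.mem_invariants ρ v.1).1 v.2 g

private theorem ofSubtype_of_fix {ι : Type} [Fintype ι] [DecidableEq ι] (W : Finset ι)
    {σ : Perm ι} (h : ∀ x ∈ W, σ x = x) :
    ∃ w : Perm {x : ι // x ∉ W}, (Perm.ofSubtype w : Perm ι) = σ := by
  have h1 : ∀ x, σ x ∉ W ↔ x ∉ W := by
    intro x
    rw [not_iff_not]
    constructor
    · intro hx
      have h2 := h _ hx
      have h3 : σ x = x := σ.injective h2
      rwa [h3] at hx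
    · intro hx
      rw [h x hx]
      exact hx
  have h2 : ∀ x, σ x ≠ x → x ∉ W := fun x hx hW => hx (h x hW)
  exact ⟨Perm.subtypePerm σ h1, Perm.ofSubtype_subtypePerm h1 h2⟩

/-- Let `ρ' = ρ ∘ ofSubtype`, a representation of `Perm {x // x ∉ W}`.  The dimension of its invariants is
`(1/n'!) ∑_w ρ.character (ofSubtype w)` (`Representation.card_inv_mul_sum_char_eq_finrank`) which is
`hall (frob 1 * X 0 ^ |W|) (schur λ) = hall (schur (rowD n') * X 0 ^ |W|) (schur λ) ≥ 1`
(`pcyc_ofSubtype`, `hall_frob`-like linearity, `frob_one`, `one_le_hall_skew`, cast `ℝ → ℂ` by `hall_map`).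
An invariant vector of `ρ'` is fixed by all `σ` fixing `W` pointwise (`σ = ofSubtype` of its
restriction). -/
theorem exists_fixed {ι V : Type} [Fintype ι] [DecidableEq ι] [AddCommGroup V] [Module ℂ V]
    [FiniteDimensional ℂ V] (ρ : Representation ℂ (Perm ι) V) (lam : YoungDiagram)
    (hl : lam.card = Fintype.card ι) (hc : ∀ g, ρ.character g = ch ℂ lam g) (W : Finset ι)
    (hW : rowD (Fintype.card ι - W.card) ≤ lam) :
    ∃ v : V, v ≠ 0 ∧ ∀ σ : Perm ι, (∀ x ∈ W, σ x = x) → ρ σ v = v := by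
  let ρ' : Representation ℂ (Perm {x : ι // x ∉ W}) V :=
    MonoidHom.comp ρ (Perm.ofSubtype : Perm {x : ι // x ∉ W} →* Perm ι)
  have h1 : (Fintype.card (Perm {x : ι // x ∉ W}) : ℂ)⁻¹ *
      ∑ g : Perm {x : ι // x ∉ W}, ρ'.character g ≠ 0 := by
    have h2 := avg_eq lam W (fun _ => (1 : ℂ))
    rw [frob_one, card_compl_sub W] at h2
    have h3 : ∀ g : Perm {x : ι // x ∉ W}, ρ'.character g =
        (1 : ℂ) * ch ℂ lam (Perm.ofSubtype g : Perm ι) := by
      intro g
      rw [one_mul, ← hc]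
      rfl
    rw [Fintype.card_perm, card_compl_sub W, Finset.sum_congr rfl fun g _ => h3 g, h2]
    exact skew_ne _ _ hl W (card_rowD _) hW
  obtain ⟨v, hv0, hv⟩ := exists_inv_of ρ' h1
  refine ⟨v, hv0, fun σ hσ => ?_⟩
  obtain ⟨w, hw⟩ := ofSubtype_of_fix W hσ
  rw [← hw]
  exact hv w

/-- the same with the representation `w ↦ sign w • ρ' w` and `frob_sign`, `colD` -/
theorem exists_sign {ι V : Type} [Fintype ι] [DecidableEq ι] [AddCommGroup V] [Module ℂ V]
    [FiniteDimensional ℂ V] (ρ : Representation ℂ (Perm ι) V) (lam : YoungDiagram)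
    (hl : lam.card = Fintype.card ι) (hc : ∀ g, ρ.character g = ch ℂ lam g) (W : Finset ι)
    (hW : colD (Fintype.card ι - W.card) ≤ lam) :
    ∃ v : V, v ≠ 0 ∧ ∀ σ : Perm ι, (∀ x ∈ W, σ x = x) →
      ρ σ v = ((Perm.sign σ : ℤ) : ℂ) • v := by
  let ρ' : Representation ℂ (Perm {x : ι // x ∉ W}) V :=
    { toFun := fun w => ((Perm.sign w : ℤ) : ℂ) • ρ (Perm.ofSubtype w)
      map_one' := by simp
      map_mul' := fun u w => by
        ext v
        simp only [map_mul, Units.val_mul, Int.cast_mul, LinearMap.smul_apply,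
          Module.End.mul_apply, map_smul, smul_smul]
        rw [mul_comm] }
  have hρ' : ∀ w, ρ' w = ((Perm.sign w : ℤ) : ℂ) • ρ (Perm.ofSubtype w) := fun w => rfl
  have h1 : (Fintype.card (Perm {x : ι // x ∉ W}) : ℂ)⁻¹ *
      ∑ g : Perm {x : ι // x ∉ W}, ρ'.character g ≠ 0 := by
    have h2 := avg_eq lam W (fun w => ((Perm.sign w : ℤ) : ℂ))
    rw [frob_sign, card_compl_sub W] at h2
    have h3 : ∀ g : Perm {x : ι // x ∉ W}, ρ'.character g =
        ((Perm.sign g : ℤ) : ℂ) * ch ℂ lam (Perm.ofSubtype g : Perm ι) := by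
      intro g
      rw [← hc, Representation.character, hρ', map_smul, smul_eq_mul]
      rfl
    rw [Fintype.card_perm, card_compl_sub W, Finset.sum_congr rfl fun g _ => h3 g, h2]
    exact skew_ne _ _ hl W (card_colD _) hW
  obtain ⟨v, hv0, hv⟩ := exists_inv_of ρ' h1
  refine ⟨v, hv0, fun σ hσ => ?_⟩
  obtain ⟨w, hw⟩ := ofSubtype_of_fix W hσ
  have h2 := hv w
  rw [hρ', LinearMap.smul_apply] at h2
  rw [← hw, Perm.sign_ofSubtype]
  have h3 : ((Perm.sign w : ℤ) : ℂ) * ((Perm.sign w : ℤ) : ℂ) = 1 := by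
    rcases Int.units_eq_one_or (Perm.sign w) with h | h <;> rw [h] <;> norm_num
  calc ρ (Perm.ofSubtype w) v = (((Perm.sign w : ℤ) : ℂ) * ((Perm.sign w : ℤ) : ℂ)) •
        ρ (Perm.ofSubtype w) v := by rw [h3, one_smul]
    _ = ((Perm.sign w : ℤ) : ℂ) • v := by rw [mul_smul, h2]

/-- `irr_eq_ch`, `finrank = fd lam` (`ch_one`), `fd_large`: `tt lam ≤ K₁`, so `rowLen 0 ≥ n - K₁` or
`colLen 0 ≥ n - K₁`; take any `W` with `min K₁ n` elements. -/
theorem rep_small (K : ℕ) : ∃ K₁ n₀ : ℕ,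
    ∀ (ι : Type) [Fintype ι] [DecidableEq ι], n₀ ≤ Fintype.card ι →
      ∀ (V : Type) [AddCommGroup V] [Module ℂ V] [FiniteDimensional ℂ V]
        (ρ : Representation ℂ (Perm ι) V), Representation.IsIrreducible ρ →
        (Module.finrank ℂ V : ℝ) < (Fintype.card ι : ℝ) ^ K →
        ∃ W : Finset ι, W.card ≤ K₁ ∧
          ((∃ v : V, v ≠ 0 ∧ ∀ σ : Perm ι, (∀ x ∈ W, σ x = x) → ρ σ v = v) ∨
            ∃ v : V, v ≠ 0 ∧ ∀ σ : Perm ι, (∀ x ∈ W, σ x = x) →
              ρ σ v = ((Perm.sign σ : ℤ) : ℂ) • v) := by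
  obtain ⟨K₁, n₀, hK⟩ := fd_large K
  refine ⟨K₁, n₀, ?_⟩
  intro ι _ _ hn V _ _ _ ρ hρ hfin
  obtain ⟨lam, hl, hc⟩ := irr_eq_ch ρ hρ
  have hfd : (Module.finrank ℂ V : ℝ) = fd lam := by
    have h1 : ρ.character 1 = (Module.finrank ℂ V : ℂ) := Representation.char_one ρ
    rw [hc 1, ch_map ℝ Complex.ofRealHom lam (1 : Perm ι), ch_one hl] at h1
    have h2 : ((fd lam : ℝ) : ℂ) = ((Module.finrank ℂ V : ℝ) : ℂ) := by
      rw [Complex.ofReal_natCast]
      exact h1
    exact (Complex.ofReal_injective h2).symm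
  have ht : tt lam ≤ K₁ := by
    by_contra hlt
    push Not at hlt
    have h1 := hK lam (by omega) hlt
    rw [hfd, ← hl] at hfin
    linarith
  obtain ⟨W, -, hWc⟩ := Finset.exists_subset_card_eq
    (s := (Finset.univ : Finset ι)) (n := min K₁ (Fintype.card ι)) (by
      rw [Finset.card_univ]
      exact min_le_right _ _)
  refine ⟨W, by omega, ?_⟩
  have h3 : Fintype.card ι - W.card ≤ max (lam.rowLen 0) (lam.colLen 0) := by
    unfold tt at ht
    omega
  rcases le_max_iff.1 h3 with h4 | h4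
  · exact Or.inl (exists_fixed ρ lam hl hc W (rowD_le h4))
  · exact Or.inr (exists_sign ρ lam hl hc W (colD_le h4))

end MPbcd198.C
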