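import Pool.Agent.Lib.MP_bcd198_co.C.G3
import Pool.Agent.Lib.MP_bcd198_co.C.G5
import Pool.Agent.Lib.MP_bcd198_co.C.G7

/-!
# MP_bcd198_co, stream C: all exports (`isIrreducible_of`, `posdef_bound`, `chars_sum`, `rep_small` in the
namespace `MPbcd198.C`)
-/
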